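import Pool.Agent.Lib_MP_a338c1_f.Interface
import Pool.Agent.Lib_MP_a338c1_f.LS

/-!
# Basic tools for the far case

Counting functions, the swap of summation for threshold counts, the decomposition of sums over a
nested triple by the positions `g` and `M - g`, and the elementary sumset inequalities.
-/

open Finset
open scoped Pointwise

namespace Pool.Agent.LibA338c1g

open Pool.Agent.LibA338c1f (Nest T2 U2 Q1)

/-- Number of elements `r` of `A` with `τ r ≤ t`. -/
def thr (A : Finset ℕ) (τ : ℕ → ℕ) (t : ℕ) : ℤ := ((A.filter (fun r => τ r ≤ t)).card : ℤ)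

/-- Counting function of `A` on `[0, t]`. -/
def ct (A : Finset ℕ) (t : ℕ) : ℤ := ((A.filter (fun r => r ≤ t)).card : ℤ)

/-- Indicator of `A`. -/
def ind (A : Finset ℕ) (g : ℕ) : ℤ := if g ∈ A then 1 else 0

theorem ind_of_mem {A : Finset ℕ} {g : ℕ} (h : g ∈ A) : ind A g = 1 := if_pos h

theorem ind_of_not_mem {A : Finset ℕ} {g : ℕ} (h : g ∉ A) : ind A g = 0 := if_neg h

theorem ind_nonneg (A : Finset ℕ) (g : ℕ) : 0 ≤ ind A g := by
  unfold ind; split_ifs <;> omega

theorem ind_le_one (A : Finset ℕ) (g : ℕ) : ind A g ≤ 1 := by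
  unfold ind; split_ifs <;> omega

theorem ind_mono {A B : Finset ℕ} (h : A ⊆ B) (g : ℕ) : ind A g ≤ ind B g := by
  unfold ind
  by_cases h1 : g ∈ A
  · rw [if_pos h1, if_pos (h h1)]
  · rw [if_neg h1]; split_ifs <;> omega

theorem ct_nonneg (A : Finset ℕ) (t : ℕ) : 0 ≤ ct A t := Int.natCast_nonneg _

theorem ct_mono (A : Finset ℕ) {s t : ℕ} (h : s ≤ t) : ct A s ≤ ct A t := by
  unfold ct
  have : A.filter (fun r => r ≤ s) ⊆ A.filter (fun r => r ≤ t) := by
    intro x hx
    rw [mem_filter] at hx ⊢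
    exact ⟨hx.1, hx.2.trans h⟩
  exact_mod_cast card_le_card this

theorem ct_subset {A B : Finset ℕ} (h : A ⊆ B) (t : ℕ) : ct A t ≤ ct B t := by
  unfold ct
  have : A.filter (fun r => r ≤ t) ⊆ B.filter (fun r => r ≤ t) := filter_subset_filter _ h
  exact_mod_cast card_le_card this

theorem ct_le (A : Finset ℕ) (t : ℕ) : ct A t ≤ t + 1 := by
  unfold ct
  have : A.filter (fun r => r ≤ t) ⊆ range (t + 1) := by
    intro x hx
    rw [mem_filter] at hx
    rw [mem_range]
    omega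
  have h := card_le_card this
  rw [card_range] at h
  exact_mod_cast h

theorem ct_succ (A : Finset ℕ) (t : ℕ) : ct A (t + 1) = ct A t + ind A (t + 1) := by
  unfold ct ind
  by_cases h : t + 1 ∈ A
  · rw [if_pos h]
    have : A.filter (fun r => r ≤ t + 1) = insert (t + 1) (A.filter (fun r => r ≤ t)) := by
      ext x
      rw [mem_filter, mem_insert, mem_filter]
      constructor
      · rintro ⟨h1, h2⟩
        by_cases hx : x = t + 1
        · exact Or.inl hx
        · exact Or.inr ⟨h1, by omega⟩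
      · rintro (h1 | ⟨h1, h2⟩)
        · subst h1; exact ⟨h, le_refl _⟩
        · exact ⟨h1, by omega⟩
    rw [this, card_insert_of_notMem (by rw [mem_filter]; omega)]
    push_cast; ring
  · rw [if_neg h]
    have : A.filter (fun r => r ≤ t + 1) = A.filter (fun r => r ≤ t) := by
      ext x
      rw [mem_filter, mem_filter]
      constructor
      · rintro ⟨h1, h2⟩
        refine ⟨h1, ?_⟩
        by_contra hc
        have : x = t + 1 := by omega
        subst this; exact h h1
      · rintro ⟨h1, h2⟩; exact ⟨h1, by omega⟩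
    rw [this]; ring

theorem ct_zero {A : Finset ℕ} (h : 0 ∈ A) : ct A 0 = 1 := by
  unfold ct
  have : A.filter (fun r => r ≤ 0) = {0} := by
    ext x
    rw [mem_filter, mem_singleton]
    constructor
    · rintro ⟨_, h2⟩; omega
    · rintro rfl; exact ⟨h, le_refl _⟩
  rw [this]; rfl

/-- Summing a threshold count. -/
theorem sum_thr (A : Finset ℕ) (τ : ℕ → ℕ) (a b : ℕ) :
    ∑ t ∈ Ico a b, thr A τ t = ∑ r ∈ A, ((b - max a (τ r) : ℕ) : ℤ) := by
  have h1 : ∀ t ∈ Ico a b, thr A τ t = ∑ r ∈ A, (if τ r ≤ t then (1 : ℤ) else 0) := by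
    intro t _
    unfold thr
    rw [card_filter]
    push_cast
    rfl
  rw [sum_congr rfl h1, sum_comm]
  refine sum_congr rfl fun r _ => ?_
  rw [← sum_filter, sum_const, nsmul_eq_mul, mul_one]
  have : (Ico a b).filter (fun t => τ r ≤ t) = Ico (max a (τ r)) b := by
    ext t
    rw [mem_filter, mem_Ico, mem_Ico]
    omega
  rw [this, Nat.card_Ico]

theorem ct_eq_thr (A : Finset ℕ) (t : ℕ) : ct A t = thr A (fun r => r) t := rfl

theorem ct_half (A : Finset ℕ) (t : ℕ) : ct A (t / 2) = thr A (fun r => 2 * r) t := by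
  unfold ct thr
  rw [filter_congr (fun x _ => (by omega : x ≤ t / 2 ↔ 2 * x ≤ t))]

theorem ct_half' (A : Finset ℕ) (t : ℕ) : ct A ((t + 1) / 2) = thr A (fun r => 2 * r - 1) t := by
  unfold ct thr
  rw [filter_congr (fun x _ => (by omega : x ≤ (t + 1) / 2 ↔ 2 * x - 1 ≤ t))]

theorem ct_sub (A : Finset ℕ) {w t : ℕ} (h : w ≤ t) :
    ct A (t - w) = thr A (fun r => r + w) t := by
  unfold ct thr
  rw [filter_congr (fun x _ => (by omega : x ≤ t - w ↔ x + w ≤ t))]

theorem sum_ind (A : Finset ℕ) {n : ℕ} (hA : ∀ r ∈ A, r < n) (c : ℕ → ℤ) :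
    ∑ r ∈ A, c r = ∑ r ∈ range n, ind A r * c r := by
  have h : A = (range n).filter (fun r => r ∈ A) := by
    ext x
    rw [mem_filter, mem_range]
    exact ⟨fun hx => ⟨hA x hx, hx⟩, fun hx => hx.2⟩
  conv_lhs => rw [h]
  rw [sum_filter]
  refine sum_congr rfl fun r _ => ?_
  unfold ind
  split_ifs <;> ring

/-- Decomposition of a sum over `A ⊆ [0, M)` by the positions `g` and `M - g`. -/
theorem decomp {M N e : ℕ} (hM : M + e = 2 * N) (he : e ≤ 1) (hN : 1 ≤ N) (A : Finset ℕ)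
    (hA : ∀ r ∈ A, r < M) (c : ℕ → ℤ) :
    ∑ r ∈ A, c r = ind A 0 * c 0 +
      ∑ g ∈ Ico 1 N, (ind A g * c g + ind A (M - g) * c (M - g)) +
      (1 - e) * (ind A N * c N) := by
  rw [sum_ind A hA c, sum_add_distrib]
  have hM1 : 1 ≤ M := by omega
  have hsplit : ∑ r ∈ range M, ind A r * c r = ind A 0 * c 0 +
      ∑ r ∈ Ico 1 N, ind A r * c r + ∑ r ∈ Ico N M, ind A r * c r := by
    rw [range_eq_Ico, ← sum_Ico_consecutive _ (Nat.zero_le N) (by omega : N ≤ M),
      ← sum_Ico_consecutive _ (Nat.zero_le 1) hN]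
    simp
  rw [hsplit]
  have href : ∑ g ∈ Ico 1 N, ind A (M - g) * c (M - g) =
      ∑ r ∈ Ico (M + 1 - N) M, ind A r * c r := by
    have := sum_Ico_reflect (fun r => ind A r * c r) 1 (m := N) (n := M) (by omega)
    rw [this]
    congr 1
  rw [href]
  interval_cases e
  · have hN' : M + 1 - N = N + 1 := by omega
    rw [hN', sum_eq_sum_Ico_succ_bot (by omega : N < M)]
    push_cast; ring
  · have hN' : M + 1 - N = N := by omega
    rw [hN']
    push_cast; ring

/-- The complementary count. -/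
theorem pair_count {M : ℕ} {P Q R : Finset ℕ} (hR : ∀ r ∈ R, r ≤ M)
    (h : ∀ p ∈ P, ∀ q ∈ Q, ∀ r ∈ R, p + q + r ≠ M) (t : ℕ) :
    ct (P + Q) t + thr R (fun r => M - r) t ≤ t + 1 := by
  unfold ct thr
  set S1 := (P + Q).filter (fun r => r ≤ t)
  set S2 := (R.filter (fun r => M - r ≤ t)).image (fun r => M - r)
  have hc2 : S2.card = (R.filter (fun r => M - r ≤ t)).card := by
    refine card_image_of_injOn ?_
    intro x hx y hy hxy
    have hx' := hR x (mem_filter.1 hx).1
    have hy' := hR y (mem_filter.1 hy).1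
    simp only at hxy
    omega
  have hdis : Disjoint S1 S2 := by
    rw [disjoint_left]
    intro x hx hx2
    rw [mem_filter] at hx
    rw [mem_image] at hx2
    obtain ⟨r, hr, hrx⟩ := hx2
    obtain ⟨p, hp, q, hq, hpq⟩ := mem_add.1 hx.1
    have hr' := mem_filter.1 hr
    have := hR r hr'.1
    exact h p hp q hq r hr'.1 (by omega)
  have hsub : S1 ∪ S2 ⊆ range (t + 1) := by
    intro x hx
    rw [mem_union] at hx
    rw [mem_range]
    rcases hx with hx | hx
    · have := (mem_filter.1 hx).2; omega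
    · obtain ⟨r, hr, hrx⟩ := mem_image.1 hx
      have := (mem_filter.1 hr).2
      omega
  have := card_le_card hsub
  rw [card_union_of_disjoint hdis, card_range, hc2] at this
  exact_mod_cast this

/-- Superadditivity. -/
theorem superadd {P Q : Finset ℕ} (hP : 0 ∈ P) (hQ : 0 ∈ Q) {a b t : ℕ} (hab : a + b ≤ t) :
    ct P a + ct Q b - 1 ≤ ct (P + Q) t := by
  unfold ct
  set P' := P.filter (fun r => r ≤ a)
  set Q' := Q.filter (fun r => r ≤ b)
  have hP' : P'.Nonempty := ⟨0, mem_filter.2 ⟨hP, Nat.zero_le _⟩⟩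
  have hQ' : Q'.Nonempty := ⟨0, mem_filter.2 ⟨hQ, Nat.zero_le _⟩⟩
  have h := cauchy_davenport_add_of_linearOrder_isCancelAdd hP' hQ'
  have hsub : P' + Q' ⊆ (P + Q).filter (fun r => r ≤ t) := by
    intro x hx
    obtain ⟨p, hp, q, hq, hpq⟩ := mem_add.1 hx
    have hp' := mem_filter.1 hp
    have hq' := mem_filter.1 hq
    rw [mem_filter]
    exact ⟨mem_add.2 ⟨p, hp'.1, q, hq'.1, hpq⟩, by omega⟩
  have h2 := card_le_card hsub
  have h3 : 0 < P'.card := card_pos.2 hP'
  omega

/-- The part of `A` below `w`. -/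
def lowp (A : Finset ℕ) (w : ℕ) : Finset ℕ := A.filter (fun r => r < w)

/-- The window inequality of the start phase: below `w` all elements are divisible by `d`, and
`w` is not. -/
theorem mid {X Q : Finset ℕ} (h0 : 0 ∈ Q) (hQX : Q ⊆ X) {w d : ℕ} (hw : w ∈ X) (hw0 : 0 < w)
    (hd : ∀ x ∈ X, x < w → d ∣ x) (hdw : ¬ d ∣ w) {a b t : ℕ} (hab : a + b ≤ t)
    (hwt : w ≤ t) (ht : t < 2 * w) :
    ct (lowp X w) a + ct (lowp Q w) b - 1 + ct Q (t - w) ≤ ct (X + Q) t := by
  have h0' : 0 ∈ lowp Q w := mem_filter.2 ⟨h0, hw0⟩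
  have h0X : 0 ∈ lowp X w := mem_filter.2 ⟨hQX h0, hw0⟩
  have h1 := superadd h0X h0' hab
  have h2 : ct (lowp X w + lowp Q w) t + ct Q (t - w) ≤ ct (X + Q) t := by
    unfold ct
    set S1 := (lowp X w + lowp Q w).filter (fun r => r ≤ t)
    set S2 := (Q.filter (fun r => r ≤ t - w)).image (fun r => r + w)
    have hc2 : S2.card = (Q.filter (fun r => r ≤ t - w)).card := by
      refine card_image_of_injOn ?_
      intro x hx y hy hxy
      simp only at hxy
      omega
    have hdis : Disjoint S1 S2 := by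
      rw [disjoint_left]
      intro x hx hx2
      rw [mem_filter] at hx
      rw [mem_image] at hx2
      obtain ⟨r, hr, hrx⟩ := hx2
      obtain ⟨p, hp, q, hq, hpq⟩ := mem_add.1 hx.1
      have hr' := mem_filter.1 hr
      have hp' := mem_filter.1 hp
      have hq' := mem_filter.1 hq
      have d1 := hd p hp'.1 hp'.2
      have d2 := hd q (hQX hq'.1) hq'.2
      have d3 := hd r (hQX hr'.1) (by omega)
      apply hdw
      have hh : d ∣ r + w := by rw [hrx, ← hpq]; exact dvd_add d1 d2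
      exact (Nat.dvd_add_right d3).1 hh
    have hsub : S1 ∪ S2 ⊆ (X + Q).filter (fun r => r ≤ t) := by
      intro x hx
      rw [mem_union] at hx
      rw [mem_filter]
      rcases hx with hx | hx
      · rw [mem_filter] at hx
        obtain ⟨p, hp, q, hq, hpq⟩ := mem_add.1 hx.1
        exact ⟨mem_add.2 ⟨p, (mem_filter.1 hp).1, q, (mem_filter.1 hq).1, hpq⟩, hx.2⟩
      · obtain ⟨r, hr, hrx⟩ := mem_image.1 hx
        have hr' := mem_filter.1 hr
        exact ⟨mem_add.2 ⟨w, hw, r, hr'.1, by omega⟩, by omega⟩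
    have := card_le_card hsub
    rw [card_union_of_disjoint hdis, hc2] at this
    exact_mod_cast this
  linarith

/-- The density function `a(s) = X(s) + Z(s) - 2 - s`. -/
def dens (X Z : Finset ℕ) (s : ℕ) : ℤ := ct X s + ct Z s - 2 - s

theorem dens_succ (X Z : Finset ℕ) (s : ℕ) :
    dens X Z (s + 1) = dens X Z s + ind X (s + 1) + ind Z (s + 1) - 1 := by
  unfold dens
  rw [ct_succ, ct_succ]
  push_cast
  ring

/-- Pigeonhole: if `a(s) ≥ 0` then `s` is a sum. -/
theorem pigeon {X Z : Finset ℕ} {s : ℕ} (h : 0 ≤ dens X Z s) : ∃ x ∈ X, ∃ z ∈ Z, x + z = s := by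
  by_contra hcon
  push Not at hcon
  unfold dens ct at h
  set S1 := X.filter (fun r => r ≤ s)
  set S2 := (Z.filter (fun r => r ≤ s)).image (fun r => s - r)
  have hc2 : S2.card = (Z.filter (fun r => r ≤ s)).card := by
    refine card_image_of_injOn ?_
    intro x hx y hy hxy
    have hx' := (mem_filter.1 hx).2
    have hy' := (mem_filter.1 hy).2
    simp only at hxy
    omega
  have hdis : Disjoint S1 S2 := by
    rw [disjoint_left]
    intro x hx hx2
    rw [mem_filter] at hx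
    rw [mem_image] at hx2
    obtain ⟨r, hr, hrx⟩ := hx2
    have hr' := mem_filter.1 hr
    exact hcon x hx.1 r hr'.1 (by omega)
  have hsub : S1 ∪ S2 ⊆ range (s + 1) := by
    intro x hx
    rw [mem_union] at hx
    rw [mem_range]
    rcases hx with hx | hx
    · have := (mem_filter.1 hx).2; omega
    · obtain ⟨r, hr, hrx⟩ := mem_image.1 hx
      have := (mem_filter.1 hr).2
      omega
  have := card_le_card hsub
  rw [card_union_of_disjoint hdis, card_range, hc2] at this
  omega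

variable {M : ℕ} {X Y Z : Finset ℕ}

theorem nest_zero (h : Nest M X Y Z) : 0 ∈ X ∧ 0 ∈ Y ∧ 0 ∈ Z :=
  ⟨h.YX (h.ZY h.zero), h.ZY h.zero, h.zero⟩

theorem nest_lt (h : Nest M X Y Z) : ∀ x ∈ X, x < M := by
  intro x hx
  have h1 := h.le x hx
  have h2 := h.free x hx 0 (h.ZY h.zero) 0 h.zero
  omega

/-- The deficit of the position `g`. -/
def dd (M : ℕ) (X Y Z : Finset ℕ) (g : ℕ) : ℤ :=
  3 - (ind X g + ind Y g + ind Z g + ind X (M - g) + ind Y (M - g) + ind Z (M - g))

/-- The states of a position. -/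
theorem states (h : Nest M X Y Z) {g : ℕ} (hg : g < M) :
    (ind Z g ≤ ind Y g ∧ ind Y g ≤ ind X g ∧ ind Z (M - g) ≤ ind Y (M - g) ∧
      ind Y (M - g) ≤ ind X (M - g)) ∧ ind Y g + ind X (M - g) ≤ 1 ∧
      ind X g + ind Y (M - g) ≤ 1 := by
  refine ⟨⟨ind_mono h.ZY _, ind_mono h.YX _, ind_mono h.ZY _, ind_mono h.YX _⟩, ?_, ?_⟩
  · by_contra hcon
    have h1 := ind_le_one Y g
    have h2 := ind_le_one X (M - g)
    have h3 := ind_nonneg Y g
    have h4 := ind_nonneg X (M - g)
    have hy : g ∈ Y := by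
      by_contra hn; rw [ind_of_not_mem hn] at hcon; omega
    have hx : M - g ∈ X := by
      by_contra hn; rw [ind_of_not_mem hn] at hcon; omega
    exact h.free _ hx _ hy 0 h.zero (by omega)
  · by_contra hcon
    have h1 := ind_le_one X g
    have h2 := ind_le_one Y (M - g)
    have hx : g ∈ X := by
      by_contra hn; rw [ind_of_not_mem hn] at hcon; omega
    have hy : M - g ∈ Y := by
      by_contra hn; rw [ind_of_not_mem hn] at hcon; omega
    exact h.free _ hx _ hy 0 h.zero (by omega)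

theorem dd_nonneg (h : Nest M X Y Z) {g : ℕ} (hg : g < M) : 0 ≤ dd M X Y Z g := by
  have h1 := states h hg
  have h2 := ind_le_one X g
  have h3 := ind_le_one X (M - g)
  have h4 := ind_nonneg X g
  have h5 := ind_nonneg X (M - g)
  have h6 := ind_nonneg Y g
  have h7 := ind_nonneg Y (M - g)
  unfold dd
  omega

/-- The case `M = 2 N`: the middle element. -/
theorem mid_le (h : Nest M X Y Z) {N : ℕ} (hM : M = 2 * N) : ind Y N = 0 ∧ ind Z N = 0 := by
  have hy : N ∉ Y := by
    intro hy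
    exact h.free N (h.YX hy) N hy 0 h.zero (by omega)
  exact ⟨ind_of_not_mem hy, ind_of_not_mem fun hz => hy (h.ZY hz)⟩

/-- The total deficit. -/
theorem U2_eq (h : Nest M X Y Z) {N e : ℕ} (hM : M + e = 2 * N) (he : e ≤ 1) (hN : 1 ≤ N) :
    U2 M X Y Z = 2 * ∑ g ∈ Ico 1 N, dd M X Y Z g + (1 - e) * (3 - 2 * ind X N) := by
  have hX := nest_lt h
  have hY : ∀ r ∈ Y, r < M := fun r hr => hX r (h.YX hr)
  have hZ : ∀ r ∈ Z, r < M := fun r hr => hY r (h.ZY hr)
  have hc : ∀ A : Finset ℕ, (A.card : ℤ) = ∑ r ∈ A, (fun _ => (1 : ℤ)) r := by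
    intro A; simp
  unfold U2
  rw [hc X, hc Y, hc Z, decomp hM he hN X hX, decomp hM he hN Y hY, decomp hM he hN Z hZ]
  obtain ⟨h0X, h0Y, h0Z⟩ := nest_zero h
  rw [ind_of_mem h0X, ind_of_mem h0Y, ind_of_mem h0Z]
  have hsum : ∑ g ∈ Ico 1 N, dd M X Y Z g = 3 * (N - 1 : ℤ) -
      (∑ g ∈ Ico 1 N, (ind X g * 1 + ind X (M - g) * 1) +
       ∑ g ∈ Ico 1 N, (ind Y g * 1 + ind Y (M - g) * 1) +
       ∑ g ∈ Ico 1 N, (ind Z g * 1 + ind Z (M - g) * 1)) := by
    rw [← sum_add_distrib, ← sum_add_distrib]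
    have h3 : (3 * (N - 1 : ℤ)) = ∑ g ∈ Ico 1 N, (3 : ℤ) := by
      rw [sum_const, Nat.card_Ico, nsmul_eq_mul]
      push_cast [Nat.cast_sub hN]
      ring
    rw [h3, ← sum_sub_distrib]
    refine sum_congr rfl fun g _ => ?_
    unfold dd
    ring
  rw [hsum]
  have hMz : (M : ℤ) = 2 * N - e := by
    have : (M : ℤ) + e = 2 * N := by exact_mod_cast hM
    linarith
  rw [hMz]
  interval_cases e
  · obtain ⟨h1, h2⟩ := mid_le h (by omega : M = 2 * N)
    rw [h1, h2]
    push_cast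
    ring
  · push_cast
    ring

/-- The Lagrangian bound: sums of coefficient functions over the triple are bounded position by
position. -/
theorem lagr (h : Nest M X Y Z) {N e : ℕ} (hM : M + e = 2 * N) (he : e ≤ 1) (hN : 1 ≤ N)
    (cX cY cZ : ℕ → ℤ) :
    ∑ r ∈ X, cX r + ∑ r ∈ Y, cY r + ∑ r ∈ Z, cZ r =
      cX 0 + cY 0 + cZ 0 + (1 - e) * (ind X N * cX N) +
      ∑ g ∈ Ico 1 N, (ind X g * cX g + ind Y g * cY g + ind Z g * cZ g +
        ind X (M - g) * cX (M - g) + ind Y (M - g) * cY (M - g) +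
        ind Z (M - g) * cZ (M - g)) := by
  have hX := nest_lt h
  have hY : ∀ r ∈ Y, r < M := fun r hr => hX r (h.YX hr)
  have hZ : ∀ r ∈ Z, r < M := fun r hr => hY r (h.ZY hr)
  rw [decomp hM he hN X hX, decomp hM he hN Y hY, decomp hM he hN Z hZ]
  obtain ⟨h0X, h0Y, h0Z⟩ := nest_zero h
  rw [ind_of_mem h0X, ind_of_mem h0Y, ind_of_mem h0Z]
  have hs : ∑ g ∈ Ico 1 N, (ind X g * cX g + ind Y g * cY g + ind Z g * cZ g +
        ind X (M - g) * cX (M - g) + ind Y (M - g) * cY (M - g) +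
        ind Z (M - g) * cZ (M - g)) =
      ∑ g ∈ Ico 1 N, (ind X g * cX g + ind X (M - g) * cX (M - g)) +
      ∑ g ∈ Ico 1 N, (ind Y g * cY g + ind Y (M - g) * cY (M - g)) +
      ∑ g ∈ Ico 1 N, (ind Z g * cZ g + ind Z (M - g) * cZ (M - g)) := by
    rw [← sum_add_distrib, ← sum_add_distrib]
    refine sum_congr rfl fun g _ => ?_
    ring
  rw [hs]
  interval_cases e
  · obtain ⟨h1, h2⟩ := mid_le h (by omega : M = 2 * N)
    rw [h1, h2]
    push_cast
    ring
  · push_cast
    ring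

end Pool.Agent.LibA338c1g
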