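import Pool.Agent.Lib_MP_a338c1_g.Basic

/-!
# The regime (DIR): the low elements are divisible by `d ≥ 3` (or there are none)
-/

open Finset
open scoped Pointwise

namespace Pool.Agent.LibA338c1g

open Pool.Agent.LibA338c1f (Nest T2 U2 Q1)

variable {M : ℕ} {X Y Z : Finset ℕ}

/-- The first moment by positions. -/
theorem Q1_eq (h : Nest M X Y Z) {N e : ℕ} (hM : M + e = 2 * N) (he : e ≤ 1) (hN : 1 ≤ N) :
    Q1 M X Y Z = 3 * M + (1 - e) * (ind X N * (M - N)) +
      ∑ g ∈ Ico 1 N, ((ind X g + ind Y g + ind Z g) * ((M : ℤ) - g) +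
        (ind X (M - g) + ind Y (M - g) + ind Z (M - g)) * g) := by
  unfold Q1
  rw [lagr h hM he hN (fun r => (M : ℤ) - r) (fun r => (M : ℤ) - r) (fun r => (M : ℤ) - r)]
  push_cast
  congr 1
  · ring
  · refine sum_congr rfl fun g hg => ?_
    rw [mem_Ico] at hg
    have : ((M - g : ℕ) : ℤ) = M - g := by omega
    rw [this]
    ring

/-- Sums over the multiples of `d ≥ 3`. -/
theorem sum_mult (L : ℤ) {d : ℕ} (hd : 3 ≤ d) (n : ℕ) :
    ∑ g ∈ Ico 1 (n + 1), (if d ∣ g then L - 2 * g else 0) ≤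
      (n / d : ℕ) * L - 3 * (n / d : ℕ) * ((n / d : ℕ) + 1) := by
  induction n with
  | zero => simp
  | succ n ih =>
    rw [sum_Ico_succ_top (by omega)]
    by_cases hdv : d ∣ n + 1
    · rw [if_pos hdv, Nat.succ_div_of_dvd hdv]
      have h1 : d * (n / d + 1) = n + 1 := by
        have := Nat.div_mul_cancel hdv
        rw [Nat.succ_div_of_dvd hdv] at this
        rw [mul_comm]; exact this
      have h2 : 3 * (n / d + 1) ≤ n + 1 := by
        calc 3 * (n / d + 1) ≤ d * (n / d + 1) := Nat.mul_le_mul_right _ hd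
          _ = n + 1 := h1
      have h3 : (3 : ℤ) * ((n / d : ℕ) + 1) ≤ (n : ℤ) + 1 := by exact_mod_cast h2
      push_cast
      push_cast at ih
      nlinarith
    · rw [if_neg hdv, Nat.succ_div_of_not_dvd hdv]
      linarith

theorem sum_mult_le (L : ℤ) {d : ℕ} (hd : d = 0 ∨ 3 ≤ d) (n : ℕ) :
    12 * ∑ g ∈ Ico 1 (n + 1), (if d ∣ g then L - 2 * g else 0) ≤ (L - 3) ^ 2 := by
  rcases hd with rfl | hd
  · have : ∑ g ∈ Ico 1 (n + 1), (if 0 ∣ g then L - 2 * (g : ℤ) else 0) = 0 := by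
      refine sum_eq_zero fun g hg => ?_
      rw [mem_Ico] at hg
      rw [if_neg]
      intro h0
      have := Nat.eq_zero_of_zero_dvd h0
      omega
    rw [this]
    positivity
  · have h1 := sum_mult L hd n
    generalize ((n / d : ℕ) : ℤ) = K at h1
    nlinarith [sq_nonneg (6 * K - (L - 3))]

theorem sum_id_Ico (N : ℕ) (hN : 1 ≤ N) : 2 * ∑ g ∈ Ico 1 N, (g : ℤ) = N * (N - 1) := by
  obtain ⟨n, rfl⟩ : ∃ n, N = n + 1 := ⟨N - 1, by omega⟩
  clear hN
  induction n with
  | zero => simp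
  | succ n ih =>
    rw [sum_Ico_succ_top (by omega), mul_add, ih]
    push_cast
    ring

/-- **Regime (DIR).** -/
theorem T2_dir (h : Nest M X Y Z) {d : ℕ} (hd : d = 0 ∨ 3 ≤ d)
    (hdiv : ∀ x ∈ X, 2 * x < M → d ∣ x) : T2 M X Y Z := by
  have hM0 : 1 ≤ M := by
    by_contra hcon
    have : M = 0 := by omega
    exact h.free 0 (h.YX (h.ZY h.zero)) 0 (h.ZY h.zero) 0 h.zero (by omega)
  obtain ⟨N, e, hM, he, hN⟩ : ∃ N e, M + e = 2 * N ∧ e ≤ 1 ∧ 1 ≤ N := by
    rcases Nat.even_or_odd' M with ⟨k, hk | hk⟩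
    · exact ⟨k, 0, by omega, by omega, by omega⟩
    · exact ⟨k + 1, 1, by omega, by omega, by omega⟩
  have hQ := Q1_eq h hM he hN
  have hU := U2_eq h hM he hN
  have hD : 0 ≤ ∑ g ∈ Ico 1 N, dd M X Y Z g := by
    refine sum_nonneg fun g hg => ?_
    rw [mem_Ico] at hg
    exact dd_nonneg h (by omega)
  have hbound : ∑ g ∈ Ico 1 N, ((ind X g + ind Y g + ind Z g) * ((M : ℤ) - g) +
        (ind X (M - g) + ind Y (M - g) + ind Z (M - g)) * g) ≤
      3 * ∑ g ∈ Ico 1 N, (g : ℤ) + 3 * ∑ g ∈ Ico 1 N, (if d ∣ g then (M : ℤ) - 2 * g else 0) := by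
    rw [mul_sum, mul_sum, ← sum_add_distrib]
    refine sum_le_sum fun g hg => ?_
    rw [mem_Ico] at hg
    have hs := states h (g := g) (by omega)
    have hdd := dd_nonneg h (g := g) (by omega)
    unfold dd at hdd
    have n1 := ind_nonneg X g
    have n2 := ind_nonneg Y g
    have n3 := ind_nonneg Z g
    have n4 := ind_nonneg X (M - g)
    have n5 := ind_nonneg Y (M - g)
    have n6 := ind_nonneg Z (M - g)
    have hg0 : (0 : ℤ) ≤ g := Int.natCast_nonneg g
    have hg2 : (2 : ℤ) * g ≤ M := by exact_mod_cast (by omega : 2 * g ≤ M)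
    by_cases hdv : d ∣ g
    · rw [if_pos hdv]
      nlinarith
    · rw [if_neg hdv]
      have hX : ind X g = 0 := ind_of_not_mem fun hx => hdv (hdiv g hx (by omega))
      have hY : ind Y g = 0 := by have := hs.1.2.1; omega
      have hZ : ind Z g = 0 := by have := hs.1.1; omega
      rw [hX, hY, hZ] at hdd ⊢
      nlinarith
  obtain ⟨n, rfl⟩ : ∃ n, N = n + 1 := ⟨N - 1, by omega⟩
  have hmul := sum_mult_le (M : ℤ) hd n
  have hid := sum_id_Ico (n + 1) hN
  have hi0 := ind_nonneg X (n + 1)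
  have hi1 := ind_le_one X (n + 1)
  unfold T2
  generalize ∑ g ∈ Ico 1 (n + 1), dd M X Y Z g = D at *
  generalize ∑ g ∈ Ico 1 (n + 1), ((ind X g + ind Y g + ind Z g) * ((M : ℤ) - g) +
        (ind X (M - g) + ind Y (M - g) + ind Z (M - g)) * g) = S at *
  generalize ∑ g ∈ Ico 1 (n + 1), (if d ∣ g then (M : ℤ) - 2 * g else 0) = S2 at *
  generalize ∑ g ∈ Ico 1 (n + 1), (g : ℤ) = S3 at *
  generalize ind X (n + 1) = f at *
  generalize U2 M X Y Z = U at *
  generalize Q1 M X Y Z = Q at *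
  have hMz : (M : ℤ) = 2 * (n + 1) - e := by
    have : (M : ℤ) + e = 2 * ((n + 1 : ℕ) : ℤ) := by exact_mod_cast hM
    push_cast at this
    linarith
  have hM0' : (1 : ℤ) ≤ M := by exact_mod_cast hM0
  push_cast at hid hQ hU
  have hn : (n : ℤ) = (M + e) / 2 - 1 := by omega
  generalize (M : ℤ) = m at *
  interval_cases e
  · -- even
    have hn' : (n : ℤ) = m / 2 - 1 := by push_cast at hn; omega
    push_cast at hMz hQ hU
    have hm : m = 2 * (n : ℤ) + 2 := by linarith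
    generalize (n : ℤ) = ν at *
    subst hm
    have hUpos : 3 - 2 * f ≤ U := by linarith
    rcases (by omega : f = 0 ∨ f = 1) with rfl | rfl
    · nlinarith [mul_nonneg (show 0 ≤ U - 3 by linarith) (show 0 ≤ U + 3 by linarith)]
    · nlinarith [mul_nonneg (show 0 ≤ U - 1 by linarith) (show 0 ≤ U + 1 by linarith)]
  · push_cast at hMz hQ hU
    have hm : m = 2 * (n : ℤ) + 1 := by linarith
    generalize (n : ℤ) = ν at *
    subst hm
    have hUpos : 0 ≤ U := by linarith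
    nlinarith [mul_nonneg hUpos hUpos]

end Pool.Agent.LibA338c1g
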