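import Pool.Agent.Lib_MP_a338c1_g.Dir

/-!
# The regime (B): `M` odd and few low elements
-/

open Finset
open scoped Pointwise

namespace Pool.Agent.LibA338c1g

open Pool.Agent.LibA338c1f (Nest T2 U2 Q1)

variable {M : ℕ} {X Y Z : Finset ℕ}

theorem sum_ct (A : Finset ℕ) (n : ℕ) :
    ∑ s ∈ range n, ct A s = ∑ r ∈ A, ((n - r : ℕ) : ℤ) := by
  have h := sum_thr A (fun r => r) 0 n
  rw [range_eq_Ico]
  calc _ = ∑ t ∈ Ico 0 n, thr A (fun r => r) t := sum_congr rfl fun t _ => ct_eq_thr A t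
    _ = _ := by
      rw [h]
      refine sum_congr rfl fun r _ => ?_
      rw [Nat.zero_max]

theorem sum_ct_refl (A : Finset ℕ) (n : ℕ) :
    ∑ s ∈ range n, ct A (n - 1 - s) = ∑ r ∈ A, ((n - r : ℕ) : ℤ) := by
  rw [← sum_ct A n, ← sum_range_reflect (fun s => ct A s) n]

/-- A threshold count as a sum of indicators. -/
theorem thr_eq_sum (A : Finset ℕ) (τ : ℕ → ℕ) (t : ℕ) :
    thr A τ t = ∑ r ∈ A, (if τ r ≤ t then (1 : ℤ) else 0) := by
  unfold thr
  rw [card_filter]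
  push_cast
  rfl

theorem ct_eq_sum (A : Finset ℕ) (t : ℕ) :
    ct A t = ∑ r ∈ A, (if r ≤ t then (1 : ℤ) else 0) := by
  rw [ct_eq_thr, thr_eq_sum]

/-- The averaged superadditivity for one pair. -/
theorem avg_super (h : Nest M X Y Z) {N : ℕ} (hM : M + 1 = 2 * N) {P Q R : Finset ℕ}
    (hP : 0 ∈ P) (hQ : 0 ∈ Q) (hR : ∀ r ∈ R, r < M)
    (hfree : ∀ p ∈ P, ∀ q ∈ Q, ∀ r ∈ R, p + q + r ≠ M) :
    ∑ r ∈ P, ((N - r : ℕ) : ℤ) + ∑ r ∈ Q, ((N - r : ℕ) : ℤ) +
      ∑ r ∈ R, (if N ≤ r then (N : ℤ) else 0) ≤ N * (N + 1) := by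
  have h1 : ∀ s ∈ range N, ct P s + ct Q (N - 1 - s) + ∑ r ∈ R, (if N ≤ r then (1 : ℤ) else 0) ≤
      (N : ℤ) + 1 := by
    intro s hs
    have hs' := mem_range.1 hs
    have a1 := superadd hP hQ (a := s) (b := N - 1 - s) (t := N - 1) (by omega)
    have a2 := pair_count (fun r hr => (hR r hr).le) hfree (N - 1)
    rw [thr_eq_sum] at a2
    have a3 : ∑ r ∈ R, (if M - r ≤ N - 1 then (1 : ℤ) else 0) =
        ∑ r ∈ R, (if N ≤ r then (1 : ℤ) else 0) := by
      refine sum_congr rfl fun r hr => ?_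
      have := hR r hr
      have e1 : (M - r ≤ N - 1) ↔ N ≤ r := by omega
      simp only [e1]
    rw [a3] at a2
    have a4 : ((N - 1 : ℕ) : ℤ) = N - 1 := by omega
    rw [a4] at a2
    linarith
  have h2 := sum_le_sum h1
  rw [sum_add_distrib, sum_add_distrib, sum_ct, sum_ct_refl, sum_const, sum_const, card_range,
    nsmul_eq_mul, nsmul_eq_mul, mul_sum] at h2
  have h3 : ∑ r ∈ R, (N : ℤ) * (if N ≤ r then (1 : ℤ) else 0) =
      ∑ r ∈ R, (if N ≤ r then (N : ℤ) else 0) := by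
    refine sum_congr rfl fun r _ => ?_
    split_ifs <;> ring
  rw [h3] at h2
  exact h2

/-- **Regime (B).** -/
theorem T2_B (h : Nest M X Y Z) {N : ℕ} (hM : M + 1 = 2 * N)
    (hF : ct X (N - 1) + ct Y (N - 1) + ct Z (N - 1) ≤ N) : T2 M X Y Z := by
  have hN : 1 ≤ N := by omega
  have hQ := Q1_eq h (e := 1) hM le_rfl hN
  have hU := U2_eq h (e := 1) hM le_rfl hN
  obtain ⟨h0X, h0Y, h0Z⟩ := nest_zero h
  have hXlt := nest_lt h
  have hYlt : ∀ r ∈ Y, r < M := fun r hr => hXlt r (h.YX hr)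
  have hZlt : ∀ r ∈ Z, r < M := fun r hr => hYlt r (h.ZY hr)
  have s1 := avg_super h hM h0X h0Y hZlt (fun p hp q hq r hr => h.free p hp q hq r hr)
  have s2 := avg_super h hM h0X h0Z hYlt (fun p hp q hq r hr => by
    have := h.free p hp r hr q hq; omega)
  have s3 := avg_super h hM h0Y h0Z hXlt (fun p hp q hq r hr => by
    have := h.free r hr p hp q hq; omega)
  -- the sum of the three inequalities by positions
  have hsum : ∀ A : Finset ℕ, ∑ r ∈ A, (2 * ((N - r : ℕ) : ℤ) + (if N ≤ r then (N : ℤ) else 0)) =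
      2 * ∑ r ∈ A, ((N - r : ℕ) : ℤ) + ∑ r ∈ A, (if N ≤ r then (N : ℤ) else 0) := by
    intro A
    rw [sum_add_distrib, mul_sum]
  have hl := lagr h (e := 1) hM le_rfl hN
    (fun r => 2 * ((N - r : ℕ) : ℤ) + (if N ≤ r then (N : ℤ) else 0))
    (fun r => 2 * ((N - r : ℕ) : ℤ) + (if N ≤ r then (N : ℤ) else 0))
    (fun r => 2 * ((N - r : ℕ) : ℤ) + (if N ≤ r then (N : ℤ) else 0))
  rw [hsum X, hsum Y, hsum Z] at hl
  have hFl := lagr h (e := 1) hM le_rfl hN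
    (fun r => if r ≤ N - 1 then (1 : ℤ) else 0) (fun r => if r ≤ N - 1 then (1 : ℤ) else 0)
    (fun r => if r ≤ N - 1 then (1 : ℤ) else 0)
  rw [← ct_eq_sum, ← ct_eq_sum, ← ct_eq_sum] at hFl
  -- positionwise comparison
  have hpos : ∑ g ∈ Ico 1 N, ((ind X g + ind Y g + ind Z g) * ((M : ℤ) - g) +
        (ind X (M - g) + ind Y (M - g) + ind Z (M - g)) * g) ≤
      ∑ g ∈ Ico 1 N, (ind X g * (2 * ((N - g : ℕ) : ℤ) + (if N ≤ g then (N : ℤ) else 0)) +
        ind Y g * (2 * ((N - g : ℕ) : ℤ) + (if N ≤ g then (N : ℤ) else 0)) +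
        ind Z g * (2 * ((N - g : ℕ) : ℤ) + (if N ≤ g then (N : ℤ) else 0)) +
        ind X (M - g) * (2 * ((N - (M - g) : ℕ) : ℤ) + (if N ≤ M - g then (N : ℤ) else 0)) +
        ind Y (M - g) * (2 * ((N - (M - g) : ℕ) : ℤ) + (if N ≤ M - g then (N : ℤ) else 0)) +
        ind Z (M - g) * (2 * ((N - (M - g) : ℕ) : ℤ) + (if N ≤ M - g then (N : ℤ) else 0))) +
      (N - 1) * ∑ g ∈ Ico 1 N, (ind X g * (if g ≤ N - 1 then (1 : ℤ) else 0) +
        ind Y g * (if g ≤ N - 1 then (1 : ℤ) else 0) +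
        ind Z g * (if g ≤ N - 1 then (1 : ℤ) else 0) +
        ind X (M - g) * (if M - g ≤ N - 1 then (1 : ℤ) else 0) +
        ind Y (M - g) * (if M - g ≤ N - 1 then (1 : ℤ) else 0) +
        ind Z (M - g) * (if M - g ≤ N - 1 then (1 : ℤ) else 0)) +
      N * ∑ g ∈ Ico 1 N, dd M X Y Z g + 3 * ∑ g ∈ Ico 1 N, (g : ℤ) - 3 * N * (N - 1) := by
    have hc : (3 * N * (N - 1) : ℤ) = ∑ g ∈ Ico 1 N, (3 * N : ℤ) := by
      rw [sum_const, Nat.card_Ico, nsmul_eq_mul]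
      have : ((N - 1 : ℕ) : ℤ) = N - 1 := by omega
      rw [this]; ring
    rw [hc, mul_sum, mul_sum, mul_sum, ← sum_add_distrib, ← sum_add_distrib, ← sum_add_distrib,
      ← sum_sub_distrib]
    refine sum_le_sum fun g hg => ?_
    rw [mem_Ico] at hg
    have hdd := dd_nonneg h (g := g) (by omega)
    have e1 : ((N - g : ℕ) : ℤ) = N - g := by omega
    have e2 : N - (M - g) = 0 := by omega
    rw [e1, e2, if_neg (by omega : ¬ N ≤ g), if_pos (by omega : N ≤ M - g),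
      if_pos (by omega : g ≤ N - 1), if_neg (by omega : ¬ M - g ≤ N - 1)]
    have hMz : (M : ℤ) = 2 * N - 1 := by omega
    have hgN : (g : ℤ) ≤ N := by exact_mod_cast (by omega : g ≤ N)
    have hg0 : (0 : ℤ) ≤ g := Int.natCast_nonneg g
    unfold dd at hdd ⊢
    rw [hMz]
    generalize ind X g = x at *
    generalize ind Y g = y at *
    generalize ind Z g = z at *
    generalize ind X (M - g) = x' at *
    generalize ind Y (M - g) = y' at *
    generalize ind Z (M - g) = z' at *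
    push_cast
    nlinarith [mul_nonneg hg0 hdd]
  have hid := sum_id_Ico N hN
  have hD : 0 ≤ ∑ g ∈ Ico 1 N, dd M X Y Z g := by
    refine sum_nonneg fun g hg => ?_
    rw [mem_Ico] at hg
    exact dd_nonneg h (by omega)
  unfold T2
  simp only [Nat.sub_zero, Nat.zero_le, if_true] at hl hFl
  rw [if_neg (by omega : ¬ N ≤ 0)] at hl
  push_cast at hl hFl hQ hU
  generalize ∑ g ∈ Ico 1 N, dd M X Y Z g = D at *
  generalize ∑ g ∈ Ico 1 N, ((ind X g + ind Y g + ind Z g) * ((M : ℤ) - g) +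
        (ind X (M - g) + ind Y (M - g) + ind Z (M - g)) * g) = S at *
  generalize ∑ g ∈ Ico 1 N, (g : ℤ) = S3 at *
  generalize U2 M X Y Z = U at *
  generalize Q1 M X Y Z = Q at *
  have hMz : (M : ℤ) = 2 * N - 1 := by omega
  rw [hMz] at hQ ⊢
  have hN' : (1 : ℤ) ≤ N := by exact_mod_cast hN
  have hU' : U = 2 * D := by linarith
  rw [hU']
  generalize (N : ℤ) = n at *
  nlinarith [mul_nonneg hD hD, mul_nonneg hD (show 0 ≤ n - 1 by linarith)]

end Pool.Agent.LibA338c1g
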