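import Pool.Agent.Lib_MP_a338c1_g.RegB

/-!
# The regime (EV): `M` even, and the low odd elements are large
-/

open Finset
open scoped Pointwise

namespace Pool.Agent.LibA338c1g

open Pool.Agent.LibA338c1f (Nest T2 U2 Q1)

variable {M : ℕ} {X Y Z : Finset ℕ}

/-- The halves of the even elements. -/
def hf (A : Finset ℕ) : Finset ℕ := (A.filter (fun r => r % 2 = 0)).image (fun r => r / 2)

theorem mem_hf {A : Finset ℕ} {r : ℕ} : r ∈ hf A ↔ 2 * r ∈ A := by
  unfold hf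
  rw [mem_image]
  constructor
  · rintro ⟨x, hx, hxr⟩
    rw [mem_filter] at hx
    have : 2 * r = x := by omega
    rw [this]; exact hx.1
  · intro h
    exact ⟨2 * r, mem_filter.2 ⟨h, by omega⟩, by omega⟩

theorem sum_hf (A : Finset ℕ) (F : ℕ → ℤ) :
    ∑ r ∈ hf A, F (2 * r) = ∑ r ∈ A, (if r % 2 = 0 then F r else 0) := by
  unfold hf
  rw [sum_image, ← sum_filter]
  · refine sum_congr rfl fun r hr => ?_
    rw [mem_filter] at hr
    congr 1
    omega
  · intro x hx y hy hxy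
    rw [mem_coe, mem_filter] at hx hy
    simp only at hxy
    omega

/-- The averaged half-superadditivity of one pair. -/
theorem avg_half {N : ℕ} {P Q R : Finset ℕ} (hP : 0 ∈ P) (hQ : 0 ∈ Q) (hR : ∀ r ∈ R, r ≤ N)
    (hfree : ∀ p ∈ P, ∀ q ∈ Q, ∀ r ∈ R, p + q + r ≠ N) :
    2 * (∑ r ∈ P, ((N - (2 * r - 1) : ℕ) : ℤ) + ∑ r ∈ Q, ((N - 2 * r : ℕ) : ℤ) +
      ∑ r ∈ R, (r : ℤ)) ≤ N * (N + 1) + 2 * N := by
  have h1 : ∀ u ∈ Ico 0 N, thr P (fun r => 2 * r - 1) u + thr Q (fun r => 2 * r) u +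
      thr R (fun r => N - r) u ≤ (u : ℤ) + 2 := by
    intro u _
    have a1 := superadd hP hQ (a := (u + 1) / 2) (b := u / 2) (t := u) (by omega)
    have a2 := pair_count hR hfree u
    rw [ct_half', ct_half] at a1
    linarith
  have h2 := sum_le_sum h1
  rw [sum_add_distrib, sum_add_distrib, sum_thr, sum_thr, sum_thr] at h2
  have h3 : ∑ r ∈ P, ((N - max 0 (2 * r - 1) : ℕ) : ℤ) = ∑ r ∈ P, ((N - (2 * r - 1) : ℕ) : ℤ) :=
    sum_congr rfl fun r _ => by rw [Nat.zero_max]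
  have h4 : ∑ r ∈ Q, ((N - max 0 (2 * r) : ℕ) : ℤ) = ∑ r ∈ Q, ((N - 2 * r : ℕ) : ℤ) :=
    sum_congr rfl fun r _ => by rw [Nat.zero_max]
  have h5 : ∑ r ∈ R, ((N - max 0 (N - r) : ℕ) : ℤ) = ∑ r ∈ R, (r : ℤ) :=
    sum_congr rfl fun r hr => by
      have := hR r hr
      rw [Nat.zero_max, show N - (N - r) = r by omega]
  rw [h3, h4, h5] at h2
  have h6 : 2 * ∑ u ∈ Ico 0 N, ((u : ℤ) + 2) = N * (N + 1) + 2 * N := by
    clear h1 h2 h3 h4 h5 hR hfree
    induction N with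
    | zero => simp
    | succ n ih => rw [sum_Ico_succ_top (by omega), mul_add, ih]; push_cast; ring
  linarith

/-- The inequality for the even elements of a nested triple. -/
theorem even_main (h : Nest M X Y Z) {N : ℕ} (hM : M = 2 * N) :
    (∑ r ∈ X, (if r % 2 = 0 then 2 * (((N - (r - 1) : ℕ) : ℤ) + ((N - r : ℕ) : ℤ)) + r else 0)) +
    (∑ r ∈ Y, (if r % 2 = 0 then 2 * (((N - (r - 1) : ℕ) : ℤ) + ((N - r : ℕ) : ℤ)) + r else 0)) +
    (∑ r ∈ Z, (if r % 2 = 0 then 2 * (((N - (r - 1) : ℕ) : ℤ) + ((N - r : ℕ) : ℤ)) + r else 0)) ≤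
      3 * N * (N + 3) := by
  obtain ⟨h0X, h0Y, h0Z⟩ := nest_zero h
  have hXlt := nest_lt h
  have hYlt : ∀ r ∈ Y, r < M := fun r hr => hXlt r (h.YX hr)
  have hZlt : ∀ r ∈ Z, r < M := fun r hr => hYlt r (h.ZY hr)
  have b0 : ∀ A : Finset ℕ, 0 ∈ A → 0 ∈ hf A := fun A hA => mem_hf.2 (by simpa using hA)
  have bl : ∀ A : Finset ℕ, (∀ r ∈ A, r < M) → ∀ r ∈ hf A, r ≤ N := by
    intro A hA r hr
    have := hA _ (mem_hf.1 hr)
    omega
  have key : ∀ P Q R : Finset ℕ, 0 ∈ P → 0 ∈ Q → (∀ r ∈ R, r < M) →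
      (∀ p ∈ P, ∀ q ∈ Q, ∀ r ∈ R, p + q + r ≠ M) →
      2 * (∑ r ∈ hf P, ((N - (2 * r - 1) : ℕ) : ℤ) + ∑ r ∈ hf Q, ((N - 2 * r : ℕ) : ℤ) +
      ∑ r ∈ hf R, (r : ℤ)) ≤ N * (N + 1) + 2 * N := by
    intro P Q R hP hQ hR hfree
    refine avg_half (b0 P hP) (b0 Q hQ) (bl R hR) (fun p hp q hq r hr hs => ?_)
    exact hfree _ (mem_hf.1 hp) _ (mem_hf.1 hq) _ (mem_hf.1 hr) (by omega)
  have k1 := key X Y Z h0X h0Y hZlt (fun p hp q hq r hr => h.free p hp q hq r hr)
  have k2 := key Y X Z h0Y h0X hZlt (fun p hp q hq r hr => by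
    have := h.free q hq p hp r hr; omega)
  have k3 := key X Z Y h0X h0Z hYlt (fun p hp q hq r hr => by
    have := h.free p hp r hr q hq; omega)
  have k4 := key Z X Y h0Z h0X hYlt (fun p hp q hq r hr => by
    have := h.free q hq r hr p hp; omega)
  have k5 := key Y Z X h0Y h0Z hXlt (fun p hp q hq r hr => by
    have := h.free r hr p hp q hq; omega)
  have k6 := key Z Y X h0Z h0Y hXlt (fun p hp q hq r hr => by
    have := h.free r hr q hq p hp; omega)
  have e1 : ∀ A : Finset ℕ, (∑ r ∈ A, (if r % 2 = 0 then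
      2 * (((N - (r - 1) : ℕ) : ℤ) + ((N - r : ℕ) : ℤ)) + r else 0)) =
      2 * ∑ r ∈ hf A, ((N - (2 * r - 1) : ℕ) : ℤ) + 2 * ∑ r ∈ hf A, ((N - 2 * r : ℕ) : ℤ) +
        2 * ∑ r ∈ hf A, (r : ℤ) := by
    intro A
    rw [← sum_hf A (fun r => 2 * (((N - (r - 1) : ℕ) : ℤ) + ((N - r : ℕ) : ℤ)) + (r : ℤ)), mul_sum,
      mul_sum, mul_sum, ← sum_add_distrib, ← sum_add_distrib]
    refine sum_congr rfl fun r _ => ?_
    push_cast
    ring
  rw [e1 X, e1 Y, e1 Z]
  linarith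

/-- Sums over the even and over the odd positions. -/
theorem S_par (L : ℤ) (n : ℕ) :
    (∑ g ∈ Ico 1 (2 * n + 1), (if g % 2 = 0 then L - g else 0) = n * L - n * (n + 1)) ∧
    (∑ g ∈ Ico 1 (2 * n + 2), (if g % 2 = 0 then L - g else 0) = n * L - n * (n + 1)) ∧
    (∑ g ∈ Ico 1 (2 * n + 1), (if g % 2 = 1 then (g : ℤ) else 0) = (n : ℤ) ^ 2) ∧
    (∑ g ∈ Ico 1 (2 * n + 2), (if g % 2 = 1 then (g : ℤ) else 0) = ((n : ℤ) + 1) ^ 2) := by
  induction n with
  | zero => simp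
  | succ n ih =>
    obtain ⟨i1, i2, i3, i4⟩ := ih
    have a1 : ∑ g ∈ Ico 1 (2 * (n + 1) + 1), (if g % 2 = 0 then L - g else 0) =
        ((n + 1 : ℕ) : ℤ) * L - ((n + 1 : ℕ) : ℤ) * (((n + 1 : ℕ) : ℤ) + 1) := by
      rw [show 2 * (n + 1) + 1 = (2 * n + 2) + 1 by ring, sum_Ico_succ_top (by omega), i2,
        if_pos (by omega)]
      push_cast
      ring
    have a3 : ∑ g ∈ Ico 1 (2 * (n + 1) + 1), (if g % 2 = 1 then (g : ℤ) else 0) =
        ((n + 1 : ℕ) : ℤ) ^ 2 := by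
      rw [show 2 * (n + 1) + 1 = (2 * n + 2) + 1 by ring, sum_Ico_succ_top (by omega), i4,
        if_neg (by omega)]
      push_cast
      ring
    refine ⟨a1, ?_, a3, ?_⟩
    · rw [show 2 * (n + 1) + 2 = (2 * (n + 1) + 1) + 1 by ring, sum_Ico_succ_top (by omega), a1,
        if_neg (by omega)]
      ring
    · rw [show 2 * (n + 1) + 2 = (2 * (n + 1) + 1) + 1 by ring, sum_Ico_succ_top (by omega), a3,
        if_pos (by omega)]
      push_cast
      ring

/-- The large odd positions. -/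
theorem S_large (c N L : ℕ) : ∀ w, w + L = N →
    4 * ∑ g ∈ Ico w N, (if g % 2 = c then (N : ℤ) - g else 0) ≤ ((L : ℤ) + 1) ^ 2 := by
  induction L using Nat.twoStepInduction with
  | zero => intro w hw; rw [show w = N by omega]; simp
  | one =>
    intro w hw
    rw [← hw, sum_Ico_succ_top (by omega)]
    simp only [Ico_self, sum_empty]
    split_ifs <;> push_cast <;> linarith
  | more L ih _ =>
    intro w hw
    have h1 := ih (w + 2) (by omega)
    rw [sum_eq_sum_Ico_succ_bot (by omega), sum_eq_sum_Ico_succ_bot (by omega)]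
    have hwN : (w : ℤ) + L + 2 = N := by exact_mod_cast (by omega : w + L + 2 = N)
    have h2 : (if w % 2 = c then (N : ℤ) - w else 0) +
        (if (w + 1) % 2 = c then (N : ℤ) - ((w + 1 : ℕ) : ℤ) else 0) ≤ L + 2 := by
      by_cases hc : w % 2 = c
      · rw [if_pos hc, if_neg (by omega)]; linarith
      · rw [if_neg hc]
        have hL : (0 : ℤ) ≤ L := Int.natCast_nonneg L
        split_ifs
        · push_cast; linarith
        · linarith
    rw [show w + 1 + 1 = w + 2 by ring]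
    push_cast at h2 ⊢
    nlinarith

theorem S_w_le (N w : ℕ) :
    4 * ∑ g ∈ Ico 1 N, (if g % 2 = 1 ∧ w ≤ g then (N : ℤ) - g else 0) ≤
      (((N - w : ℕ) : ℤ) + 1) ^ 2 := by
  rcases Nat.lt_or_ge N w with h | h
  · have : ∑ g ∈ Ico 1 N, (if g % 2 = 1 ∧ w ≤ g then (N : ℤ) - g else 0) = 0 := by
      refine sum_eq_zero fun g hg => ?_
      rw [mem_Ico] at hg
      rw [if_neg (by omega)]
    rw [this]
    positivity
  · have h1 := S_large 1 N (N - w) w (by omega)
    have h2 : ∑ g ∈ Ico 1 N, (if g % 2 = 1 ∧ w ≤ g then (N : ℤ) - g else 0) ≤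
        ∑ g ∈ Ico w N, (if g % 2 = 1 then (N : ℤ) - g else 0) := by
      rw [← sum_filter, ← sum_filter]
      refine sum_le_sum_of_subset_of_nonneg ?_ ?_
      · intro g hg
        rw [mem_filter, mem_Ico] at hg ⊢
        omega
      · intro g hg _
        rw [mem_filter, mem_Ico] at hg
        have : (g : ℤ) ≤ N := by exact_mod_cast (by omega : g ≤ N)
        linarith
    linarith

/-- **Regime (EV).** -/
theorem T2_EV (h : Nest M X Y Z) {N w : ℕ} (hM : M = 2 * N) (hN : 15 ≤ N) (hw : 4 * N < 5 * w)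
    (hodd : ∀ x ∈ X, x % 2 = 1 → x < N → w ≤ x) : T2 M X Y Z := by
  have hM' : M + 0 = 2 * N := by omega
  have hQ := Q1_eq h (e := 0) hM' (by omega) (by omega)
  have hU := U2_eq h (e := 0) hM' (by omega) (by omega)
  have hE := even_main h hM
  rw [lagr h (e := 0) hM' (by omega) (by omega)] at hE
  obtain ⟨mY, mZ⟩ := mid_le h hM
  -- positionwise comparison
  have hpos : 4 * ∑ g ∈ Ico 1 N, ((ind X g + ind Y g + ind Z g) * ((M : ℤ) - g) +
        (ind X (M - g) + ind Y (M - g) + ind Z (M - g)) * g) ≤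
      4 * ∑ g ∈ Ico 1 N,
        (ind X g * (if g % 2 = 0 then 2 * (((N - (g - 1) : ℕ) : ℤ) + ((N - g : ℕ) : ℤ)) + g else 0) +
        ind Y g * (if g % 2 = 0 then 2 * (((N - (g - 1) : ℕ) : ℤ) + ((N - g : ℕ) : ℤ)) + g else 0) +
        ind Z g * (if g % 2 = 0 then 2 * (((N - (g - 1) : ℕ) : ℤ) + ((N - g : ℕ) : ℤ)) + g else 0) +
        ind X (M - g) * (if (M - g) % 2 = 0 then 2 * (((N - (M - g - 1) : ℕ) : ℤ) +
          ((N - (M - g) : ℕ) : ℤ)) + ((M - g : ℕ) : ℤ) else 0) +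
        ind Y (M - g) * (if (M - g) % 2 = 0 then 2 * (((N - (M - g - 1) : ℕ) : ℤ) +
          ((N - (M - g) : ℕ) : ℤ)) + ((M - g : ℕ) : ℤ) else 0) +
        ind Z (M - g) * (if (M - g) % 2 = 0 then 2 * (((N - (M - g - 1) : ℕ) : ℤ) +
          ((N - (M - g) : ℕ) : ℤ)) + ((M - g : ℕ) : ℤ) else 0)) +
      (8 * N - 16) * ∑ g ∈ Ico 1 N, dd M X Y Z g -
      24 * ∑ g ∈ Ico 1 N, (if g % 2 = 0 then (N : ℤ) - g else 0) +
      12 * ∑ g ∈ Ico 1 N, (if g % 2 = 1 then (g : ℤ) else 0) +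
      24 * ∑ g ∈ Ico 1 N, (if g % 2 = 1 ∧ w ≤ g then (N : ℤ) - g else 0) := by
    rw [mul_sum, mul_sum, mul_sum, mul_sum, mul_sum, mul_sum, ← sum_add_distrib,
      ← sum_sub_distrib, ← sum_add_distrib, ← sum_add_distrib]
    refine sum_le_sum fun g hg => ?_
    rw [mem_Ico] at hg
    have hs := states h (g := g) (by omega)
    have hdd := dd_nonneg h (g := g) (by omega)
    have n1 := ind_nonneg X g
    have n2 := ind_nonneg Y g
    have n3 := ind_nonneg Z g
    have n4 := ind_nonneg X (M - g)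
    have n5 := ind_nonneg Y (M - g)
    have n6 := ind_nonneg Z (M - g)
    have hMz : (M : ℤ) = 2 * N := by rw [hM]; push_cast; ring
    have hgN : (g : ℤ) + 1 ≤ N := by exact_mod_cast (by omega : g + 1 ≤ N)
    have hg1 : (1 : ℤ) ≤ g := by exact_mod_cast hg.1
    rcases Nat.mod_two_eq_zero_or_one g with hpar | hpar
    · have hg2 : (2 : ℤ) ≤ g := by exact_mod_cast (by omega : 2 ≤ g)
      have e1 : ((N - (g - 1) : ℕ) : ℤ) = N - g + 1 := by omega
      have e2 : ((N - g : ℕ) : ℤ) = N - g := by omega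
      have e3 : N - (M - g - 1) = 0 := by omega
      have e4 : N - (M - g) = 0 := by omega
      have e5 : ((M - g : ℕ) : ℤ) = M - g := by omega
      rw [if_pos hpar, if_pos (by omega : (M - g) % 2 = 0), if_pos hpar, if_neg (by omega),
        if_neg (by omega), e1, e2, e3, e4, e5, hMz]
      unfold dd at hdd ⊢
      generalize ind X g = x at *
      generalize ind Y g = y at *
      generalize ind Z g = z at *
      generalize ind X (M - g) = x' at *
      generalize ind Y (M - g) = y' at *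
      generalize ind Z (M - g) = z' at *
      push_cast
      nlinarith [mul_nonneg (show (0 : ℤ) ≤ g - 2 by linarith) hdd]
    · rw [if_neg (by omega), if_neg (by omega : ¬ (M - g) % 2 = 0), if_neg (by omega),
        if_pos hpar, hMz]
      by_cases hwg : w ≤ g
      · rw [if_pos ⟨hpar, hwg⟩]
        unfold dd at hdd ⊢
        generalize ind X g = x at *
        generalize ind Y g = y at *
        generalize ind Z g = z at *
        generalize ind X (M - g) = x' at *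
        generalize ind Y (M - g) = y' at *
        generalize ind Z (M - g) = z' at *
        have hN' : (15 : ℤ) ≤ N := by exact_mod_cast hN
        nlinarith [mul_nonneg (show (0 : ℤ) ≤ g by linarith) hdd,
          mul_nonneg (show (0 : ℤ) ≤ N - g by linarith) (show 0 ≤ x' + y' + z' by linarith),
          mul_nonneg (show (0 : ℤ) ≤ 2 * N - g by linarith) hdd]
      · rw [if_neg (by omega)]
        have hX : ind X g = 0 := ind_of_not_mem fun hx => hwg (hodd g hx hpar (by omega))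
        have hY : ind Y g = 0 := by have := hs.1.2.1; omega
        have hZ : ind Z g = 0 := by have := hs.1.1; omega
        unfold dd at hdd ⊢
        rw [hX, hY, hZ] at hdd ⊢
        generalize ind X (M - g) = x' at *
        generalize ind Y (M - g) = y' at *
        generalize ind Z (M - g) = z' at *
        have hN' : (15 : ℤ) ≤ N := by exact_mod_cast hN
        nlinarith [mul_nonneg (show (0 : ℤ) ≤ g by linarith) hdd,
          mul_nonneg (show (0 : ℤ) ≤ 8 * N - 16 by linarith) hdd]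
  have hSw := S_w_le N w
  have hD : 0 ≤ ∑ g ∈ Ico 1 N, dd M X Y Z g := by
    refine sum_nonneg fun g hg => ?_
    rw [mem_Ico] at hg
    exact dd_nonneg h (by omega)
  have hL : 5 * ((N - w : ℕ) : ℤ) ≤ N := by exact_mod_cast (by omega : 5 * (N - w) ≤ N)
  have hL0 : 0 ≤ ((N - w : ℕ) : ℤ) := Int.natCast_nonneg _
  have hf0 := ind_nonneg X N
  have hf1 := ind_le_one X N
  have hf : ind X N = 0 ∨ ind X N = 1 := by omega
  unfold T2
  have hMz : (M : ℤ) = 2 * N := by rw [hM]; push_cast; ring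
  have hN' : (15 : ℤ) ≤ N := by exact_mod_cast hN
  simp only [Nat.sub_zero, Nat.zero_mod, if_true, Nat.zero_sub, Nat.sub_self] at hE
  have hL2 : 25 * (((N - w : ℕ) : ℤ) + 1) ^ 2 ≤ ((N : ℤ) + 5) ^ 2 := by nlinarith
  have h4Sw : 100 * ∑ g ∈ Ico 1 N, (if g % 2 = 1 ∧ w ≤ g then (N : ℤ) - g else 0) ≤
      ((N : ℤ) + 5) ^ 2 := by linarith
  -- the bound for the first moment
  have hmom : 4 * Q1 M X Y Z ≤ 9 * (N : ℤ) ^ 2 + 24 * N + 24 *
      (∑ g ∈ Ico 1 N, (if g % 2 = 1 ∧ w ≤ g then (N : ℤ) - g else 0)) +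
      (8 * N - 16) * (∑ g ∈ Ico 1 N, dd M X Y Z g) - 8 * ind X N ∨
      4 * Q1 M X Y Z ≤ 9 * (N : ℤ) ^ 2 + 18 * N - 3 + 24 *
      (∑ g ∈ Ico 1 N, (if g % 2 = 1 ∧ w ≤ g then (N : ℤ) - g else 0)) +
      (8 * N - 16) * (∑ g ∈ Ico 1 N, dd M X Y Z g) + 4 * N * ind X N := by
    rw [hMz] at hQ
    rcases Nat.even_or_odd' N with ⟨n, hn | hn⟩
    · left
      obtain ⟨n', rfl⟩ : ∃ n', n = n' + 1 := ⟨n - 1, by omega⟩
      have hn' : N = 2 * n' + 2 := by omega
      have hp := S_par (N : ℤ) n'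
      have e1 := hp.2.1
      have e2 := hp.2.2.2
      rw [← hn'] at e1 e2
      rw [e1, e2] at hpos
      rw [if_pos (by omega : N % 2 = 0)] at hE
      have e3 : ((N - (N - 1) : ℕ) : ℤ) = 1 := by omega
      rw [e3] at hE
      clear hp e1 e2
      push_cast at hE hQ
      have hNn : (n' : ℤ) = (N : ℤ) / 2 - 1 := by omega
      have hNn : (N : ℤ) = 2 * n' + 2 := by exact_mod_cast hn'
      generalize ∑ g ∈ Ico 1 N, dd M X Y Z g = D at *
      generalize ∑ g ∈ Ico 1 N, (if g % 2 = 1 ∧ w ≤ g then (N : ℤ) - g else 0) = Sw at *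
      generalize Q1 M X Y Z = Q at *
      rw [hMz] at hpos
      rcases hf with hf | hf <;> rw [hf] at hE hQ ⊢ <;> rw [hNn] at hE hQ hpos ⊢ <;> linarith
    · right
      have hp := S_par (N : ℤ) n
      have e1 := hp.1
      have e2 := hp.2.2.1
      rw [← hn] at e1 e2
      rw [e1, e2] at hpos
      rw [if_neg (by omega : ¬ N % 2 = 0)] at hE
      clear hp e1 e2
      push_cast at hE hQ
      have hNn : (N : ℤ) = 2 * n + 1 := by exact_mod_cast hn
      generalize ∑ g ∈ Ico 1 N, dd M X Y Z g = D at *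
      generalize ∑ g ∈ Ico 1 N, (if g % 2 = 1 ∧ w ≤ g then (N : ℤ) - g else 0) = Sw at *
      generalize Q1 M X Y Z = Q at *
      rw [hMz] at hpos
      rcases hf with hf | hf <;> rw [hf] at hE hQ ⊢ <;> rw [hNn] at hE hQ hpos ⊢ <;> linarith
  clear hE hpos hQ hSw hL hL0 hL2
  push_cast at hU
  rw [hMz]
  generalize ∑ g ∈ Ico 1 N, dd M X Y Z g = D at *
  generalize ∑ g ∈ Ico 1 N, (if g % 2 = 1 ∧ w ≤ g then (N : ℤ) - g else 0) = Sw at *
  generalize U2 M X Y Z = U at *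
  generalize Q1 M X Y Z = Q at *
  generalize (N : ℤ) = ν at *
  rcases hf with hf | hf
  · rw [hf] at hmom hU
    have hU' : U = 2 * D + 3 := by linarith
    rw [hU']
    rcases hmom with hmom | hmom <;> nlinarith [sq_nonneg (128 * D - (52 * ν - 592))]
  · rw [hf] at hmom hU
    have hU' : U = 2 * D + 1 := by linarith
    rw [hU']
    rcases hmom with hmom | hmom <;> nlinarith [sq_nonneg (128 * D - (52 * ν - 464))]

end Pool.Agent.LibA338c1g
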