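import Pool.Agent.Lib_MP_a338c1_g.RegIII

/-!
# The regime (III1): `10 (N - w) < N`
-/

open Finset
open scoped Pointwise

namespace Pool.Agent.LibA338c1g

open Pool.Agent.LibA338c1f (Nest T2 U2 Q1)

variable {M : ℕ} {X Y Z : Finset ℕ}

/-- The eight states of a position. -/
theorem st8 (h : Nest M X Y Z) {g : ℕ} (hg : g < M) :
    (ind X g = 1 ∧ ind Y g = 1 ∧ ind Z g = 1 ∧ ind X (M - g) = 0 ∧ ind Y (M - g) = 0 ∧
      ind Z (M - g) = 0) ∨
    (ind X g = 0 ∧ ind Y g = 0 ∧ ind Z g = 0 ∧ ind X (M - g) = 1 ∧ ind Y (M - g) = 1 ∧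
      ind Z (M - g) = 1) ∨
    (ind X g = 1 ∧ ind Y g = 1 ∧ ind Z g = 0 ∧ ind X (M - g) = 0 ∧ ind Y (M - g) = 0 ∧
      ind Z (M - g) = 0) ∨
    (ind X g = 0 ∧ ind Y g = 0 ∧ ind Z g = 0 ∧ ind X (M - g) = 1 ∧ ind Y (M - g) = 1 ∧
      ind Z (M - g) = 0) ∨
    (ind X g = 1 ∧ ind Y g = 0 ∧ ind Z g = 0 ∧ ind X (M - g) = 1 ∧ ind Y (M - g) = 0 ∧
      ind Z (M - g) = 0) ∨
    (ind X g = 1 ∧ ind Y g = 0 ∧ ind Z g = 0 ∧ ind X (M - g) = 0 ∧ ind Y (M - g) = 0 ∧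
      ind Z (M - g) = 0) ∨
    (ind X g = 0 ∧ ind Y g = 0 ∧ ind Z g = 0 ∧ ind X (M - g) = 1 ∧ ind Y (M - g) = 0 ∧
      ind Z (M - g) = 0) ∨
    (ind X g = 0 ∧ ind Y g = 0 ∧ ind Z g = 0 ∧ ind X (M - g) = 0 ∧ ind Y (M - g) = 0 ∧
      ind Z (M - g) = 0) := by
  have hs := states h hg
  have a1 := ind_le_one X g
  have a2 := ind_le_one X (M - g)
  have a3 := ind_nonneg Z g
  have a4 := ind_nonneg Z (M - g)
  omega

/-- The combined inequality of the regimes with the pair constraint of `w`. -/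
theorem III1_main (h : Nest M X Y Z) {N w : ℕ} (hM : M + 1 = 2 * N) (hw : w ∈ X) (hwN : w < N)
    (hwodd : w % 2 = 1) :
    ∑ r ∈ X, ((if r % 2 = 0 then 4 * ((N - r : ℕ) : ℤ) else 0) +
        (if r % 2 = 1 ∧ r < N then 4 * (N : ℤ) else 0) + (if N ≤ r then 2 * (N : ℤ) else 0)) +
    ∑ r ∈ Y, ((if r % 2 = 0 then 4 * ((N - r : ℕ) : ℤ) else 0) +
        (if N ≤ r then 2 * (N : ℤ) else 0) +
        3 * (N - 1) * (if r % 2 = 0 ∧ N - w ≤ r ∧ r < N then (1 : ℤ) else 0)) +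
    ∑ r ∈ Z, ((if r % 2 = 0 then 4 * ((N - r : ℕ) : ℤ) else 0) +
        (if N ≤ r then 2 * (N : ℤ) else 0) +
        3 * (N - 1) * (if r % 2 = 0 ∧ N - w ≤ r ∧ r < N then (1 : ℤ) else 0)) ≤
      6 * N * (N + 1) +
        3 * (N - 1) * (((Ico (N - w) N).filter (fun r => r % 2 = 0)).card : ℤ) := by
  obtain ⟨h0X, h0Y, h0Z⟩ := nest_zero h
  have hXlt := nest_lt h
  have hYlt : ∀ r ∈ Y, r < M := fun r hr => hXlt r (h.YX hr)
  have hZlt : ∀ r ∈ Z, r < M := fun r hr => hYlt r (h.ZY hr)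
  have s1 := avg_even hM h0X h0Y hZlt (fun p hp q hq r hr => h.free p hp q hq r hr)
  have s2 := avg_even hM h0X h0Z hYlt (fun p hp q hq r hr => by
    have := h.free p hp r hr q hq; omega)
  have s3 := avg_even hM h0Y h0Z hXlt (fun p hp q hq r hr => by
    have := h.free r hr p hp q hq; omega)
  have s4 := pair_w h hM hw hwN hwodd
  have hN : (1 : ℤ) ≤ N := by exact_mod_cast (by omega : 1 ≤ N)
  have s5 := mul_le_mul_of_nonneg_left s4 (show (0 : ℤ) ≤ 3 * (N - 1) by linarith)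
  have hO : 0 ≤ ∑ r ∈ Y, (if r % 2 = 1 ∧ r < N then (N : ℤ) else 0) := by
    refine sum_nonneg fun r _ => ?_
    split_ifs <;> linarith
  have c4 : ∀ A : Finset ℕ, ∑ r ∈ A, (if r % 2 = 0 then 4 * ((N - r : ℕ) : ℤ) else 0) =
      4 * ∑ r ∈ A, (if r % 2 = 0 then ((N - r : ℕ) : ℤ) else 0) := by
    intro A
    rw [mul_sum]
    refine sum_congr rfl fun r _ => ?_
    split_ifs <;> ring
  have c5 : ∀ A : Finset ℕ, ∑ r ∈ A, (if N ≤ r then 2 * (N : ℤ) else 0) =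
      2 * ∑ r ∈ A, (if N ≤ r then (N : ℤ) else 0) := by
    intro A
    rw [mul_sum]
    refine sum_congr rfl fun r _ => ?_
    split_ifs <;> ring
  have c6 : ∑ r ∈ X, (if r % 2 = 1 ∧ r < N then 4 * (N : ℤ) else 0) =
      4 * ∑ r ∈ X, (if r % 2 = 1 ∧ r < N then (N : ℤ) else 0) := by
    rw [mul_sum]
    refine sum_congr rfl fun r _ => ?_
    split_ifs <;> ring
  rw [sum_add_distrib, sum_add_distrib, sum_add_distrib, sum_add_distrib, sum_add_distrib,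
    sum_add_distrib, c4, c4, c4, c5, c5, c5, c6, ← mul_sum, ← mul_sum]
  linarith

/-- Closed form of the even count. -/
theorem ne_eq {N w : ℕ} (hwN : w < N) (hwodd : w % 2 = 1) :
    2 * (((Ico (N - w) N).filter (fun r => r % 2 = 0)).card : ℤ) =
      if (N - w) % 2 = 0 then (w : ℤ) + 1 else (w : ℤ) - 1 := by
  obtain ⟨k, hk⟩ : ∃ k, w = 2 * k + 1 := ⟨w / 2, by omega⟩
  have hc := card_even (N - w) k
  have e : N - w + 2 * k + 1 = N := by omega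
  rw [e] at hc
  rcases Nat.mod_two_eq_zero_or_one (N - w) with hL | hL
  · rw [if_pos hL, hc.1 hL, hk]; push_cast; ring
  · rw [if_neg (by omega), hc.2 hL, hk]; push_cast; ring

/-- The even positions below `L`. -/
theorem E2_eq {N L : ℕ} (hL1 : 1 ≤ L) (hLN : L ≤ N) (c : ℤ) :
    2 * ∑ g ∈ Ico 1 N, (if g % 2 = 0 ∧ g < L then c + 2 * (g : ℤ) else 0) =
      if L % 2 = 0 then ((L : ℤ) - 2) * c + L * (L - 2) else ((L : ℤ) - 1) * c + (L - 1) * (L + 1) := by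
  have h1 : ∑ g ∈ Ico 1 N, (if g % 2 = 0 ∧ g < L then c + 2 * (g : ℤ) else 0) =
      ∑ g ∈ Ico 1 L, (if g % 2 = 0 then c + 2 * (g : ℤ) else 0) := by
    rw [← sum_filter, ← sum_filter]
    refine sum_congr ?_ fun _ _ => rfl
    ext g
    rw [mem_filter, mem_filter, mem_Ico, mem_Ico]
    omega
  rw [h1]
  rcases Nat.mod_two_eq_zero_or_one L with hL | hL
  · obtain ⟨l, rfl⟩ : ∃ l, L = 2 * l + 2 := ⟨L / 2 - 1, by omega⟩
    rw [if_pos hL, (sum_even_lin c l).2]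
    push_cast
    ring
  · obtain ⟨l, rfl⟩ : ∃ l, L = 2 * l + 1 := ⟨L / 2, by omega⟩
    rw [if_neg (by omega), (sum_even_lin c l).1]
    push_cast
    ring

/-- The odd positions from `w` on. -/
theorem E3_eq {N w : ℕ} (hwN : w < N) (hwodd : w % 2 = 1) (c : ℤ) :
    ∑ g ∈ Ico 1 N, (if g % 2 = 1 ∧ w ≤ g then c - 12 * (g : ℤ) else 0) =
      if (N - w) % 2 = 0 then ((N - w) / 2 : ℕ) * c - 12 * (((N - w) / 2 : ℕ) * w +
        ((N - w) / 2 : ℕ) * (((N - w) / 2 : ℕ) - 1)) else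
      (((N - w) / 2 : ℕ) + 1) * c - 12 * ((((N - w) / 2 : ℕ) + 1) * w +
        (((N - w) / 2 : ℕ) + 1) * ((N - w) / 2 : ℕ)) := by
  have h1 : ∑ g ∈ Ico 1 N, (if g % 2 = 1 ∧ w ≤ g then c - 12 * (g : ℤ) else 0) =
      ∑ g ∈ Ico w N, (if g % 2 = 1 then c - 12 * (g : ℤ) else 0) := by
    rw [← sum_filter, ← sum_filter]
    refine sum_congr ?_ fun _ _ => rfl
    ext g
    rw [mem_filter, mem_filter, mem_Ico, mem_Ico]
    omega
  rw [h1]
  have hs := sum_odd_lin c w ((N - w) / 2) hwodd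
  rcases Nat.mod_two_eq_zero_or_one (N - w) with hL | hL
  · rw [if_pos hL]
    have e : w + 2 * ((N - w) / 2) = N := by omega
    rw [e] at hs
    exact hs.1
  · rw [if_neg (by omega)]
    have e : w + 2 * ((N - w) / 2) + 1 = N := by omega
    rw [e] at hs
    exact hs.2

/-- **Regime (III1).** -/
theorem T2_III1 (h : Nest M X Y Z) {N w : ℕ} (hM : M + 1 = 2 * N) (hN : 15 ≤ N) (hw : w ∈ X)
    (hwN : w < N) (hwodd : w % 2 = 1) (hev : ∀ x ∈ X, x < w → x % 2 = 0)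
    (hL : 10 * (N - w) < N) : T2 M X Y Z := by
  have hN1 : 1 ≤ N := by omega
  have hQ := Q1_eq h (e := 1) hM le_rfl hN1
  have hU := U2_eq h (e := 1) hM le_rfl hN1
  have hE := III1_main h hM hw hwN hwodd
  rw [lagr h (e := 1) hM le_rfl hN1] at hE
  have hpos : 2 * ∑ g ∈ Ico 1 N, ((ind X g + ind Y g + ind Z g) * ((M : ℤ) - g) +
        (ind X (M - g) + ind Y (M - g) + ind Z (M - g)) * g) ≤
      ∑ g ∈ Ico 1 N,
        (ind X g * ((if g % 2 = 0 then 4 * ((N - g : ℕ) : ℤ) else 0) +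
          (if g % 2 = 1 ∧ g < N then 4 * (N : ℤ) else 0) + (if N ≤ g then 2 * (N : ℤ) else 0)) +
        ind Y g * ((if g % 2 = 0 then 4 * ((N - g : ℕ) : ℤ) else 0) +
          (if N ≤ g then 2 * (N : ℤ) else 0) +
          3 * (N - 1) * (if g % 2 = 0 ∧ N - w ≤ g ∧ g < N then (1 : ℤ) else 0)) +
        ind Z g * ((if g % 2 = 0 then 4 * ((N - g : ℕ) : ℤ) else 0) +
          (if N ≤ g then 2 * (N : ℤ) else 0) +
          3 * (N - 1) * (if g % 2 = 0 ∧ N - w ≤ g ∧ g < N then (1 : ℤ) else 0)) +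
        ind X (M - g) * ((if (M - g) % 2 = 0 then 4 * ((N - (M - g) : ℕ) : ℤ) else 0) +
          (if (M - g) % 2 = 1 ∧ M - g < N then 4 * (N : ℤ) else 0) +
          (if N ≤ M - g then 2 * (N : ℤ) else 0)) +
        ind Y (M - g) * ((if (M - g) % 2 = 0 then 4 * ((N - (M - g) : ℕ) : ℤ) else 0) +
          (if N ≤ M - g then 2 * (N : ℤ) else 0) +
          3 * (N - 1) * (if (M - g) % 2 = 0 ∧ N - w ≤ M - g ∧ M - g < N then (1 : ℤ) else 0)) +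
        ind Z (M - g) * ((if (M - g) % 2 = 0 then 4 * ((N - (M - g) : ℕ) : ℤ) else 0) +
          (if N ≤ M - g then 2 * (N : ℤ) else 0) +
          3 * (N - 1) * (if (M - g) % 2 = 0 ∧ N - w ≤ M - g ∧ M - g < N then (1 : ℤ) else 0))) +
      3 * N * ∑ g ∈ Ico 1 N, dd M X Y Z g + (6 * ∑ g ∈ Ico 1 N, (g : ℤ) - 6 * N * (N - 1)) +
      ∑ g ∈ Ico 1 N, (if g % 2 = 0 then ((N - 2 - 2 * g : ℕ) : ℤ) else 0) +
      ∑ g ∈ Ico 1 N, (if g % 2 = 0 ∧ g < N - w then (5 * (N : ℤ) - 4) + 2 * (g : ℤ) else 0) +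
      ∑ g ∈ Ico 1 N, (if g % 2 = 1 ∧ w ≤ g then (14 * (N : ℤ) - 6) - 12 * (g : ℤ) else 0) := by
    have hc : (6 * N * (N - 1) : ℤ) = ∑ g ∈ Ico 1 N, (6 * N : ℤ) := by
      rw [sum_const, Nat.card_Ico, nsmul_eq_mul]
      have : ((N - 1 : ℕ) : ℤ) = N - 1 := by omega
      rw [this]; ring
    rw [hc, mul_sum, mul_sum, mul_sum, ← sum_sub_distrib, ← sum_add_distrib, ← sum_add_distrib,
      ← sum_add_distrib, ← sum_add_distrib, ← sum_add_distrib]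
    refine sum_le_sum fun g hg => ?_
    rw [mem_Ico] at hg
    have hst := st8 h (g := g) (by omega)
    have hgN : (g : ℤ) + 1 ≤ N := by exact_mod_cast (by omega : g + 1 ≤ N)
    have hg1 : (1 : ℤ) ≤ g := by exact_mod_cast hg.1
    have hN' : (15 : ℤ) ≤ N := by exact_mod_cast hN
    have hMz : (M : ℤ) = 2 * N - 1 := by omega
    have e1 : ((N - g : ℕ) : ℤ) = N - g := by omega
    have e2 : N - (M - g) = 0 := by omega
    have e3 : (N : ℤ) - 2 - 2 * g ≤ ((N - 2 - 2 * g : ℕ) : ℤ) := by omega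
    have e4 : (0 : ℤ) ≤ ((N - 2 - 2 * g : ℕ) : ℤ) := Int.natCast_nonneg _
    have q1 : ∀ a b : ℤ, (if (M - g) % 2 = 0 then a else b) =
        if g % 2 = 0 then b else a := by
      intro a b
      rcases Nat.mod_two_eq_zero_or_one g with hp | hp
      · rw [if_neg (by omega), if_pos hp]
      · rw [if_pos (by omega), if_neg (by omega)]
    rw [e2, if_neg (by omega : ¬ N ≤ g), if_pos (by omega : N ≤ M - g),
      if_neg (by omega : ¬ ((M - g) % 2 = 1 ∧ M - g < N)),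
      if_neg (by omega : ¬ ((M - g) % 2 = 0 ∧ N - w ≤ M - g ∧ M - g < N)), q1]
    unfold dd
    rw [hMz]
    rcases Nat.mod_two_eq_zero_or_one g with hp | hp
    · rw [if_pos hp, if_pos hp, if_pos hp, if_neg (by omega : ¬ (g % 2 = 1 ∧ g < N)),
        if_neg (by omega : ¬ (g % 2 = 1 ∧ w ≤ g)), e1]
      by_cases hgL : g < N - w
      · rw [if_neg (by omega : ¬ (g % 2 = 0 ∧ N - w ≤ g ∧ g < N)), if_pos ⟨hp, hgL⟩]
        generalize ((N - 2 - 2 * g : ℕ) : ℤ) = e at *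
        rcases hst with ⟨a1, a2, a3, a4, a5, a6⟩ | ⟨a1, a2, a3, a4, a5, a6⟩ |
          ⟨a1, a2, a3, a4, a5, a6⟩ | ⟨a1, a2, a3, a4, a5, a6⟩ | ⟨a1, a2, a3, a4, a5, a6⟩ |
          ⟨a1, a2, a3, a4, a5, a6⟩ | ⟨a1, a2, a3, a4, a5, a6⟩ | ⟨a1, a2, a3, a4, a5, a6⟩ <;>
          rw [a1, a2, a3, a4, a5, a6] <;> push_cast <;> linarith
      · rw [if_pos (by omega : (g % 2 = 0 ∧ N - w ≤ g ∧ g < N)),
          if_neg (by omega : ¬ (g % 2 = 0 ∧ g < N - w))]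
        generalize ((N - 2 - 2 * g : ℕ) : ℤ) = e at *
        rcases hst with ⟨a1, a2, a3, a4, a5, a6⟩ | ⟨a1, a2, a3, a4, a5, a6⟩ |
          ⟨a1, a2, a3, a4, a5, a6⟩ | ⟨a1, a2, a3, a4, a5, a6⟩ | ⟨a1, a2, a3, a4, a5, a6⟩ |
          ⟨a1, a2, a3, a4, a5, a6⟩ | ⟨a1, a2, a3, a4, a5, a6⟩ | ⟨a1, a2, a3, a4, a5, a6⟩ <;>
          rw [a1, a2, a3, a4, a5, a6] <;> push_cast <;> linarith
    · rw [if_neg (by omega : ¬ g % 2 = 0), if_neg (by omega : ¬ g % 2 = 0),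
        if_neg (by omega : ¬ g % 2 = 0), if_pos ⟨hp, hg.2⟩,
        if_neg (by omega : ¬ (g % 2 = 0 ∧ N - w ≤ g ∧ g < N)),
        if_neg (by omega : ¬ (g % 2 = 0 ∧ g < N - w))]
      by_cases hwg : w ≤ g
      · rw [if_pos ⟨hp, hwg⟩]
        rcases hst with ⟨a1, a2, a3, a4, a5, a6⟩ | ⟨a1, a2, a3, a4, a5, a6⟩ |
          ⟨a1, a2, a3, a4, a5, a6⟩ | ⟨a1, a2, a3, a4, a5, a6⟩ | ⟨a1, a2, a3, a4, a5, a6⟩ |
          ⟨a1, a2, a3, a4, a5, a6⟩ | ⟨a1, a2, a3, a4, a5, a6⟩ | ⟨a1, a2, a3, a4, a5, a6⟩ <;>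
          rw [a1, a2, a3, a4, a5, a6] <;> push_cast <;> linarith
      · rw [if_neg (by omega : ¬ (g % 2 = 1 ∧ w ≤ g))]
        have hX : ind X g = 0 := ind_of_not_mem fun hx => by
          have := hev g hx (by omega); omega
        rcases hst with ⟨a1, a2, a3, a4, a5, a6⟩ | ⟨a1, a2, a3, a4, a5, a6⟩ |
          ⟨a1, a2, a3, a4, a5, a6⟩ | ⟨a1, a2, a3, a4, a5, a6⟩ | ⟨a1, a2, a3, a4, a5, a6⟩ |
          ⟨a1, a2, a3, a4, a5, a6⟩ | ⟨a1, a2, a3, a4, a5, a6⟩ | ⟨a1, a2, a3, a4, a5, a6⟩ <;>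
          rw [a1, a2, a3, a4, a5, a6] <;> first | (exfalso; linarith) | (push_cast; linarith)
  have hE1 := sum_even_trunc (N - 2) N
  have hE2 := E2_eq (N := N) (L := N - w) (by omega) (by omega) (5 * (N : ℤ) - 4)
  have hE3 := E3_eq hwN hwodd (14 * (N : ℤ) - 6)
  have hne := ne_eq hwN hwodd
  have hid := sum_id_Ico N hN1
  have hD : 0 ≤ ∑ g ∈ Ico 1 N, dd M X Y Z g := by
    refine sum_nonneg fun g hg => ?_
    rw [mem_Ico] at hg
    exact dd_nonneg h (by omega)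
  simp only [Nat.zero_mod, if_true, Nat.sub_zero] at hE
  rw [if_neg (by omega : ¬ (0 = 1 ∧ 0 < N)), if_neg (by omega : ¬ N ≤ 0),
    if_neg (by omega : ¬ (True ∧ N - w ≤ 0 ∧ 0 < N))] at hE
  unfold T2
  have hMz : (M : ℤ) = 2 * N - 1 := by omega
  have hN' : (15 : ℤ) ≤ N := by exact_mod_cast hN
  have hN2 : ((N - 2 : ℕ) : ℤ) = N - 2 := by omega
  rw [hN2] at hE1
  push_cast at hE hQ hU
  generalize ∑ g ∈ Ico 1 N, ((ind X g + ind Y g + ind Z g) * ((M : ℤ) - g) +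
        (ind X (M - g) + ind Y (M - g) + ind Z (M - g)) * g) = S at hQ hpos
  rw [hMz] at hQ ⊢
  generalize ∑ g ∈ Ico 1 N, dd M X Y Z g = D at *
  generalize ∑ g ∈ Ico 1 N, (g : ℤ) = S3 at *
  generalize ∑ g ∈ Ico 1 N, (if g % 2 = 0 then ((N - 2 - 2 * g : ℕ) : ℤ) else 0) = E1 at *
  generalize ∑ g ∈ Ico 1 N, (if g % 2 = 0 ∧ g < N - w then (5 * (N : ℤ) - 4) + 2 * (g : ℤ) else 0) =
    E2 at *
  generalize ∑ g ∈ Ico 1 N, (if g % 2 = 1 ∧ w ≤ g then (14 * (N : ℤ) - 6) - 12 * (g : ℤ) else 0) =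
    E3 at *
  generalize (((Ico (N - w) N).filter (fun r => r % 2 = 0)).card : ℤ) = ne at *
  generalize U2 M X Y Z = U at *
  generalize Q1 M X Y Z = Q at *
  have hU' : U = 2 * D := by linarith
  rw [hU']
  have h2Q : 2 * Q ≤ 3 * (N : ℤ) ^ 2 + 9 * N - 6 + 3 * (N - 1) * ne + 3 * N * D + E1 + E2 + E3 := by
    linarith
  clear hE hpos hQ hU hU'
  rcases Nat.mod_two_eq_zero_or_one (N - w) with hpar | hpar
  · obtain ⟨l, hl⟩ : ∃ l, N - w = 2 * l := ⟨(N - w) / 2, by omega⟩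
    rw [if_pos hpar] at hE2 hE3 hne
    rw [hl] at hE2 hE3
    rw [show 2 * l / 2 = l by omega] at hE3
    have hwz : (w : ℤ) = N - 2 * l := by omega
    have h10 : 10 * (2 * (l : ℤ)) + 1 ≤ N := by omega
    have hl0 : (0 : ℤ) ≤ l := Int.natCast_nonneg l
    rw [hwz] at hE3 hne
    push_cast at hE2
    generalize (N : ℤ) = n at *
    generalize (l : ℤ) = k at *
    have hne' : ne = (n - 2 * k + 1) / 2 := by omega
    have h2ne : 2 * ((n - 1) * ne) = (n - 1) * (n - 2 * k + 1) := by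
      calc 2 * ((n - 1) * ne) = (n - 1) * (2 * ne) := by ring
        _ = _ := by rw [hne]
    nlinarith [sq_nonneg (128 * D - (25 * n - 156)), mul_nonneg (show 0 ≤ n - 1 - 20 * k by linarith)
      (show 0 ≤ n by linarith), mul_nonneg (show 0 ≤ n - 1 - 20 * k by linarith) hl0]
  · obtain ⟨l, hl⟩ : ∃ l, N - w = 2 * l + 1 := ⟨(N - w) / 2, by omega⟩
    rw [if_neg (by omega)] at hE2 hE3 hne
    rw [hl] at hE2 hE3
    rw [show (2 * l + 1) / 2 = l by omega] at hE3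
    have hwz : (w : ℤ) = N - 2 * l - 1 := by omega
    have h10 : 10 * (2 * (l : ℤ) + 1) + 1 ≤ N := by omega
    have hl0 : (0 : ℤ) ≤ l := Int.natCast_nonneg l
    rw [hwz] at hE3 hne
    push_cast at hE2
    generalize (N : ℤ) = n at *
    generalize (l : ℤ) = k at *
    have h2ne : 2 * ((n - 1) * ne) = (n - 1) * (n - 2 * k - 1 - 1) := by
      calc 2 * ((n - 1) * ne) = (n - 1) * (2 * ne) := by ring
        _ = _ := by rw [hne]
    nlinarith [sq_nonneg (128 * D - (25 * n - 156)),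
      mul_nonneg (show 0 ≤ n - 1 - 10 * (2 * k + 1) by linarith)
      (show 0 ≤ n by linarith), mul_nonneg (show 0 ≤ n - 1 - 10 * (2 * k + 1) by linarith) hl0]

end Pool.Agent.LibA338c1g
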