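import Pool.Agent.Lib_MP_a338c1_g.RegIII2

/-!
# The regime (III2): conclusion
-/

open Finset
open scoped Pointwise

namespace Pool.Agent.LibA338c1g

open Pool.Agent.LibA338c1f (Nest T2 U2 Q1)

variable {M : ℕ} {X Y Z : Finset ℕ}

/-- The bound for the first moment in the regime (III2). -/
theorem III2_mom (h : Nest M X Y Z) {N w g0 : ℕ} (hM : M + 1 = 2 * N) (hN : 15 ≤ N) (hw : w ∈ X)
    (hwN : w < N) (hwodd : w % 2 = 1) (hev : ∀ x ∈ X, x < w → x % 2 = 0)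
    (hL1 : N ≤ 10 * (N - w)) (hL2 : 5 * (N - w) < N)
    (hg0 : ((N - w) % 2 = 0 ∧ g0 = N - w) ∨ ((N - w) % 2 = 1 ∧ g0 = N - w + 1)) :
    4 * Q1 M X Y Z ≤ 12 * (2 * (N : ℤ) - 1) + 16 * w * w + 24 * w +
      (20 * ((N - w : ℕ) : ℤ) - 14) * (((Ico (N - w) N).filter (fun r => r % 2 = 0)).card : ℤ) -
      40 * w + 5 * N * ∑ g ∈ Ico 1 N, dd M X Y Z g + 10 * N * (N - 1) - 16 * w * (N - 1) +
      4 * ∑ g ∈ Ico 1 N, (if g % 2 = 0 ∧ g < N - w then (6 * ((N - w : ℕ) : ℤ) - 5) + 2 * (g : ℤ)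
        else 0) +
      ∑ g ∈ Ico 1 N, (if g % 2 = 0 then ((6 * N + 16 - 32 * (N - w) - 32 * g : ℕ) : ℤ) else 0) +
      ∑ g ∈ Ico 1 N, (if g % 2 = 0 ∧ g0 ≤ g then ((3 * N - 4 - 12 * g : ℕ) : ℤ) else 0) +
      ∑ g ∈ Ico 1 N, (if g % 2 = 0 ∧ g0 ≤ g then ((3 * N - 8 * (N - w) - 12 * g : ℕ) : ℤ) else 0) +
      ∑ g ∈ Ico 1 N, (if g % 2 = 1 ∧ w ≤ g then (40 * (N : ℤ) - 20) - 40 * (g : ℤ) else 0) := by
  have hN1 : 1 ≤ N := by omega
  have hQ := Q1_eq h (e := 1) hM le_rfl hN1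
  have hE := III2_main h hM hw hwN hwodd hev
  rw [lagr h (e := 1) hM le_rfl hN1] at hE
  have hsum : 4 * ∑ g ∈ Ico 1 N, ((ind X g + ind Y g + ind Z g) * ((M : ℤ) - g) +
        (ind X (M - g) + ind Y (M - g) + ind Z (M - g)) * g) ≤
      ∑ g ∈ Ico 1 N,
        (ind X g * cX2 M w g + ind Y g * (8 * ((w - (2 * g - 1) : ℕ) : ℤ) + cQ2 M N w g) +
        ind Z g * (8 * ((w - 2 * g : ℕ) : ℤ) + cQ2 M N w g) +
        ind X (M - g) * cX2 M w (M - g) +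
        ind Y (M - g) * (8 * ((w - (2 * (M - g) - 1) : ℕ) : ℤ) + cQ2 M N w (M - g)) +
        ind Z (M - g) * (8 * ((w - 2 * (M - g) : ℕ) : ℤ) + cQ2 M N w (M - g))) +
      5 * N * ∑ g ∈ Ico 1 N, dd M X Y Z g + (20 * ∑ g ∈ Ico 1 N, (g : ℤ) - 16 * w * (N - 1)) +
      4 * ∑ g ∈ Ico 1 N, (if g % 2 = 0 ∧ g < N - w then (6 * ((N - w : ℕ) : ℤ) - 5) + 2 * (g : ℤ)
        else 0) +
      ∑ g ∈ Ico 1 N, (if g % 2 = 0 then ((6 * N + 16 - 32 * (N - w) - 32 * g : ℕ) : ℤ) else 0) +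
      ∑ g ∈ Ico 1 N, (if g % 2 = 0 ∧ g0 ≤ g then ((3 * N - 4 - 12 * g : ℕ) : ℤ) else 0) +
      ∑ g ∈ Ico 1 N, (if g % 2 = 0 ∧ g0 ≤ g then ((3 * N - 8 * (N - w) - 12 * g : ℕ) : ℤ) else 0) +
      ∑ g ∈ Ico 1 N, (if g % 2 = 1 ∧ w ≤ g then (40 * (N : ℤ) - 20) - 40 * (g : ℤ) else 0) := by
    have hc : (16 * w * (N - 1) : ℤ) = ∑ g ∈ Ico 1 N, (16 * w : ℤ) := by
      rw [sum_const, Nat.card_Ico, nsmul_eq_mul]
      have : ((N - 1 : ℕ) : ℤ) = N - 1 := by omega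
      rw [this]; ring
    rw [hc, mul_sum, mul_sum, mul_sum, mul_sum, ← sum_sub_distrib, ← sum_add_distrib,
      ← sum_add_distrib, ← sum_add_distrib, ← sum_add_distrib, ← sum_add_distrib,
      ← sum_add_distrib, ← sum_add_distrib]
    refine sum_le_sum fun g hg => ?_
    rw [mem_Ico] at hg
    have hst := st8 h (g := g) (by omega)
    exact III2_pos hM hN hwN hwodd hL1 hL2 hg.1 hg.2 (by omega) (by omega) (by omega) hg0
      _ _ _ _ _ _ hst (fun hp hgw => ind_of_not_mem fun hx => by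
        have := hev g hx hgw; omega)
  have hid := sum_id_Ico N hN1
  have c0 : cX2 M w 0 = 8 * w := by
    unfold cX2
    have e1 : w - (M - 0) = 0 := by omega
    have e2 : 2 * w - max w (2 * 0 - 1) = w := by omega
    rw [e1, e2, if_pos (by omega)]
    simp
  have c1 : cQ2 M N w 0 = 8 * w := by
    unfold cQ2
    have e1 : 2 * w - max w (2 * 0) = w := by omega
    have e2 : 2 * w - max w (0 + w) = w := by omega
    have e3 : 2 * w - max w (M - 0) = 0 := by omega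
    rw [e1, e2, e3, if_pos (by omega), if_neg (by omega)]
    push_cast
    ring
  have c2 : ((w - (2 * 0 - 1) : ℕ) : ℤ) = w := by simp
  rw [c0, c1, c2] at hE
  have hMz : (M : ℤ) = 2 * N - 1 := by omega
  push_cast at hQ hE hsum ⊢
  generalize ∑ g ∈ Ico 1 N, ((ind X g + ind Y g + ind Z g) * ((M : ℤ) - g) +
        (ind X (M - g) + ind Y (M - g) + ind Z (M - g)) * g) = S at hQ hsum
  rw [hMz] at hQ
  linarith

/-- **Regime (III2).** -/
theorem T2_III2 (h : Nest M X Y Z) {N w : ℕ} (hM : M + 1 = 2 * N) (hN : 15 ≤ N) (hw : w ∈ X)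
    (hwN : w < N) (hwodd : w % 2 = 1) (hev : ∀ x ∈ X, x < w → x % 2 = 0)
    (hL1 : N ≤ 10 * (N - w)) (hL2 : 5 * (N - w) < N) : T2 M X Y Z := by
  have hN1 : 1 ≤ N := by omega
  have hU := U2_eq h (e := 1) hM le_rfl hN1
  obtain ⟨g0, hg0e, hg01, hg0⟩ : ∃ g0, g0 % 2 = 0 ∧ 1 ≤ g0 ∧
      (((N - w) % 2 = 0 ∧ g0 = N - w) ∨ ((N - w) % 2 = 1 ∧ g0 = N - w + 1)) := by
    rcases Nat.mod_two_eq_zero_or_one (N - w) with hp | hp
    · exact ⟨N - w, hp, by omega, Or.inl ⟨hp, rfl⟩⟩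
    · exact ⟨N - w + 1, by omega, by omega, Or.inr ⟨hp, rfl⟩⟩
  have hmom := III2_mom h hM hN hw hwN hwodd hev hL1 hL2 hg0
  have hE2 := E2_eq (N := N) (L := N - w) (by omega) (by omega) (6 * ((N - w : ℕ) : ℤ) - 5)
  have hU1 : 128 * ∑ g ∈ Ico 1 N, (if g % 2 = 0 then
      ((6 * N + 16 - 32 * (N - w) - 32 * g : ℕ) : ℤ) else 0) ≤
      (6 * (N : ℤ) - 16 - 32 * ((N - w : ℕ) : ℤ)) ^ 2 := by
    rcases Nat.lt_or_ge (32 * (N - w)) (6 * N + 16) with hc | hc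
    · have h1 := sum_even_trunc_gen (6 * N + 16 - 32 * (N - w)) 32 N (by norm_num)
      have h2 : ((6 * N + 16 - 32 * (N - w) : ℕ) : ℤ) = 6 * N + 16 - 32 * ((N - w : ℕ) : ℤ) := by
        omega
      rw [h2] at h1
      push_cast at h1 ⊢
      nlinarith
    · have h1 : ∑ g ∈ Ico 1 N, (if g % 2 = 0 then
        ((6 * N + 16 - 32 * (N - w) - 32 * g : ℕ) : ℤ) else 0) = 0 := by
        refine sum_eq_zero fun g _ => ?_
        have : 6 * N + 16 - 32 * (N - w) - 32 * g = 0 := by omega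
        rw [this]
        simp
      rw [h1]
      positivity
  have hU2 := (sum_from (3 * N - 4) g0 N hg0e hg01).1
  have hU3 := (sum_from (3 * N - 8 * (N - w)) g0 N hg0e hg01).1
  have a2 : ((3 * N - 4 : ℕ) : ℤ) = 3 * N - 4 := by omega
  have a3 : ((3 * N - 8 * (N - w) : ℕ) : ℤ) = 3 * N - 8 * ((N - w : ℕ) : ℤ) := by omega
  rw [a2] at hU2
  rw [a3] at hU3
  have hE3 := E3_gen hwN hwodd (40 * (N : ℤ) - 20) 40
  have hne := ne_eq hwN hwodd
  have hD : 0 ≤ ∑ g ∈ Ico 1 N, dd M X Y Z g := by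
    refine sum_nonneg fun g hg => ?_
    rw [mem_Ico] at hg
    exact dd_nonneg h (by omega)
  unfold T2
  have hMz : (M : ℤ) = 2 * N - 1 := by omega
  have hN' : (15 : ℤ) ≤ N := by exact_mod_cast hN
  push_cast at hU
  rw [hMz]
  generalize ∑ g ∈ Ico 1 N, dd M X Y Z g = D at *
  generalize ∑ g ∈ Ico 1 N, (if g % 2 = 0 ∧ g < N - w then (6 * ((N - w : ℕ) : ℤ) - 5) + 2 * (g : ℤ)
        else 0) = E2 at *
  generalize ∑ g ∈ Ico 1 N, (if g % 2 = 0 then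
      ((6 * N + 16 - 32 * (N - w) - 32 * g : ℕ) : ℤ) else 0) = V1 at *
  generalize ∑ g ∈ Ico 1 N, (if g % 2 = 0 ∧ g0 ≤ g then ((3 * N - 4 - 12 * g : ℕ) : ℤ) else 0) =
    V2 at *
  generalize ∑ g ∈ Ico 1 N, (if g % 2 = 0 ∧ g0 ≤ g then
    ((3 * N - 8 * (N - w) - 12 * g : ℕ) : ℤ) else 0) = V3 at *
  generalize ∑ g ∈ Ico 1 N, (if g % 2 = 1 ∧ w ≤ g then (40 * (N : ℤ) - 20) - 40 * (g : ℤ) else 0) =
    E3 at *
  generalize (((Ico (N - w) N).filter (fun r => r % 2 = 0)).card : ℤ) = ne at *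
  generalize U2 M X Y Z = U at *
  generalize Q1 M X Y Z = Q at *
  have hU' : U = 2 * D := by linarith
  rw [hU']
  clear hU hU'
  rcases hg0 with ⟨hpar, hg0⟩ | ⟨hpar, hg0⟩
  · obtain ⟨l, hl⟩ : ∃ l, N - w = 2 * l := ⟨(N - w) / 2, by omega⟩
    rw [if_pos hpar] at hE2 hE3 hne
    rw [hl] at hE2 hE3 hmom hU1 hU3
    rw [show 2 * l / 2 = l by omega] at hE3
    have hwz : (w : ℤ) = N - 2 * l := by omega
    have hgz : (g0 : ℤ) = 2 * l := by omega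
    have h10 : (N : ℤ) ≤ 20 * l := by omega
    have h5 : 10 * (l : ℤ) + 1 ≤ N := by omega
    rw [hwz] at hE3 hne hmom
    rw [hgz] at hU2 hU3
    push_cast at hE2 hmom hU1 hU3
    generalize (N : ℤ) = n at *
    generalize (l : ℤ) = k at *
    have h2ne : 2 * ((20 * (2 * k) - 14) * ne) = (20 * (2 * k) - 14) * (n - 2 * k + 1) := by
      rw [← hne]; ring
    have h4Q : 4 * Q ≤ 10 * n ^ 2 + 7 * n - 12 * k * n + 120 * k ^ 2 - 22 * k + 1 + V1 + V2 + V3 +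
        5 * n * D := by
      linarith
    clear hmom hE2 hE3 hne h2ne hgz hwz hl
    have hk : 0 ≤ k := by linarith
    nlinarith [sq_nonneg (256 * D - (23 * n - 312)),
      mul_nonneg (show 0 ≤ 20 * k - n by linarith) (show 0 ≤ n - 1 - 10 * k by linarith),
      mul_nonneg (show 0 ≤ 20 * k - n by linarith) (show 0 ≤ n - 15 by linarith),
      mul_nonneg (show 0 ≤ n - 1 - 10 * k by linarith) (show 0 ≤ n - 15 by linarith),
      mul_nonneg (show 0 ≤ n - 15 by linarith) (show 0 ≤ n - 15 by linarith)]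
  · obtain ⟨l, hl⟩ : ∃ l, N - w = 2 * l + 1 := ⟨(N - w) / 2, by omega⟩
    rw [if_neg (by omega)] at hE2 hE3 hne
    rw [hl] at hE2 hE3 hmom hU1 hU3
    rw [show (2 * l + 1) / 2 = l by omega] at hE3
    have hwz : (w : ℤ) = N - 2 * l - 1 := by omega
    have hgz : (g0 : ℤ) = 2 * l + 2 := by omega
    have h10 : (N : ℤ) ≤ 10 * (2 * l + 1) := by omega
    have h5 : 5 * (2 * (l : ℤ) + 1) + 1 ≤ N := by omega
    rw [hwz] at hE3 hne hmom
    rw [hgz] at hU2 hU3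
    push_cast at hE2 hmom hU1 hU3
    generalize (N : ℤ) = n at *
    generalize (l : ℤ) = k at *
    have h2ne : 2 * ((20 * (2 * k + 1) - 14) * ne) = (20 * (2 * k + 1) - 14) * (n - 2 * k - 1 - 1) := by
      rw [← hne]; ring
    have h4Q : 4 * Q ≤ 10 * n ^ 2 + 7 * n - 6 * (2 * k + 1) * n + 30 * (2 * k + 1) ^ 2 -
        15 * (2 * k + 1) + 3 + V1 + V2 + V3 + 5 * n * D := by
      linarith
    clear hmom hE2 hE3 hne h2ne hgz hwz hl
    nlinarith [sq_nonneg (256 * D - (23 * n - 312)),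
      mul_nonneg (show 0 ≤ 10 * (2 * k + 1) - n by linarith)
        (show 0 ≤ n - 1 - 5 * (2 * k + 1) by linarith),
      mul_nonneg (show 0 ≤ 10 * (2 * k + 1) - n by linarith) (show 0 ≤ n - 15 by linarith),
      mul_nonneg (show 0 ≤ n - 1 - 5 * (2 * k + 1) by linarith) (show 0 ≤ n - 15 by linarith),
      mul_nonneg (show 0 ≤ n - 15 by linarith) (show 0 ≤ n - 15 by linarith)]

end Pool.Agent.LibA338c1g
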