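import Pool.Agent.Lib_MP_a338c1_g.Generic
import Pool.Agent.Lib_MP_a338c1_g.Dir
import Pool.Agent.Lib_MP_a338c1_g.RegB
import Pool.Agent.Lib_MP_a338c1_g.RegEV
import Pool.Agent.Lib_MP_a338c1_g.RegIII1
import Pool.Agent.Lib_MP_a338c1_g.RegIII2b

/-!
# The far case: distinction of the regimes
-/

open Finset

namespace Pool.Agent.LibA338c1g

open Pool.Agent.LibA338c1f (Nest T2 FarStatement)

/-- The statement of the regime of a dense top. -/
def TDStatement : Prop :=
  ∀ (M : ℕ) (X Y Z : Finset ℕ), Nest M X Y Z → ∀ N e : ℕ, M + e = 2 * N → e ≤ 1 → 15 ≤ N →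
    (∀ d, (∀ x ∈ X, x ≤ N - 1 → d ∣ x) → d = 1) → 1 ≤ dens X Z (N - 1) → T2 M X Y Z

/-- The gcd of the elements up to `n`. -/
def gd (X : Finset ℕ) (n : ℕ) : ℕ := (X.filter fun x => x ≤ n).gcd id

theorem gd_dvd {X : Finset ℕ} {n x : ℕ} (hx : x ∈ X) (hxn : x ≤ n) : gd X n ∣ x :=
  Finset.gcd_dvd (f := id) (mem_filter.2 ⟨hx, hxn⟩)

theorem dvd_gd {X : Finset ℕ} {n d : ℕ} (h : ∀ x ∈ X, x ≤ n → d ∣ x) : d ∣ gd X n :=
  Finset.dvd_gcd fun x hx => h x (mem_filter.1 hx).1 (mem_filter.1 hx).2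

/-- The far case. -/
theorem far_of_TD (hTD : TDStatement) : FarStatement := by
  intro M X Y Z hM29 h hpar
  obtain ⟨N, e, hM, he⟩ : ∃ N e, M + e = 2 * N ∧ e ≤ 1 := by
    rcases Nat.even_or_odd' M with ⟨k, hk | hk⟩
    · exact ⟨k, 0, by omega, by omega⟩
    · exact ⟨k + 1, 1, by omega, by omega⟩
  have hN : 15 ≤ N := by omega
  set G := gd X (N - 1) with hG
  have hGdvd : ∀ x ∈ X, x < N → G ∣ x := fun x hx hxN => gd_dvd hx (by omega)
  -- the gcd is at most two
  by_cases hG3 : G = 0 ∨ 3 ≤ G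
  · exact T2_dir h hG3 fun x hx hxM => hGdvd x hx (by omega)
  have hG12 : G = 1 ∨ G = 2 := by omega
  rcases hG12 with hG1 | hG2
  swap
  · -- only even elements below `N`
    have hev : ∀ x ∈ X, x < N → x % 2 = 0 := by
      intro x hx hxN
      have := hGdvd x hx hxN
      rw [hG2] at this
      omega
    have hMe : M % 2 = 0 := by
      rcases hpar with hp | ⟨x, hx, hx1, hx2⟩
      · exact hp
      · have := hev x hx (by omega)
        omega
    exact T2_EV h (N := N) (w := N + 1) (by omega) hN (by omega)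
      (fun x hx hx1 hxN => by have := hev x hx hxN; omega)
  -- the gcd is one
  have hgcdN : ∀ d, (∀ x ∈ X, x ≤ N - 1 → d ∣ x) → d = 1 := by
    intro d hd
    have h1 := dvd_gd hd
    rw [← hG, hG1] at h1
    exact Nat.dvd_one.1 h1
  by_cases hden : 1 ≤ dens X Z (N - 1)
  · exact hTD M X Y Z h N e hM he hN hgcdN hden
  have hden' : dens X Z (N - 1) ≤ 0 := by omega
  by_cases hF : e = 1 ∧ ct X (N - 1) + ct Y (N - 1) + ct Z (N - 1) ≤ N
  · obtain ⟨he1, hF⟩ := hF
    exact T2_B h (by omega : M + 1 = 2 * N) hF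
  have hF' : e = 1 → (N : ℤ) + 1 ≤ ct X (N - 1) + ct Y (N - 1) + ct Z (N - 1) := by
    intro he1
    by_contra hcon
    exact hF ⟨he1, by omega⟩
  -- the least `w` with gcd one
  have hex : ∃ n, gd X n = 1 := ⟨N - 1, hG1⟩
  classical
  set w := Nat.find hex with hw
  have hw1 : gd X w = 1 := Nat.find_spec hex
  have hwmin : ∀ n, n < w → gd X n ≠ 1 := fun n hn => Nat.find_min hex hn
  have hwN : w ≤ N - 1 := Nat.find_min' hex hG1
  have h0X := (nest_zero h).1
  have hw0 : 1 ≤ w := by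
    by_contra hcon
    have hw00 : w = 0 := by omega
    have : (0 : ℕ) ∣ gd X w := dvd_gd fun x hx hxw => by
      have : x = 0 := by omega
      rw [this]
    rw [hw1] at this
    omega
  have hwX : w ∈ X := by
    by_contra hwX
    have h1 : gd X (w - 1) ∣ gd X w := dvd_gd fun x hx hxw => gd_dvd hx (by
      have : x ≠ w := fun hh => hwX (hh ▸ hx)
      omega)
    rw [hw1] at h1
    exact hwmin (w - 1) (by omega) (Nat.dvd_one.1 h1)
  have hgcd : ∀ d, (∀ x ∈ X, x ≤ w → d ∣ x) → d = 1 := by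
    intro d hd
    have h1 := dvd_gd hd
    rw [hw1] at h1
    exact Nat.dvd_one.1 h1
  set d := gd X (w - 1) with hd
  have hdd : ∀ x ∈ X, x < w → d ∣ x := fun x hx hxw => gd_dvd hx (by omega)
  have hd1 : d ≠ 1 := hwmin (w - 1) (by omega)
  have hdw : ¬ d ∣ w := by
    intro hdw
    refine hd1 (hgcd d fun x hx hxw => ?_)
    rcases Nat.lt_or_ge x w with h1 | h1
    · exact hdd x hx h1
    · have : x = w := by omega
      rw [this]; exact hdw
  have hwN' : w < N := by omega
  rcases Nat.eq_zero_or_pos d with hd0 | hdpos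
  · -- only zero below `w`, so `w = 1`
    have hz : ∀ x ∈ X, x < w → x = 0 := fun x hx hxw => by
      have := hdd x hx hxw
      rw [hd0] at this
      exact Nat.eq_zero_of_zero_dvd this
    have hww : w = 1 := hgcd w fun x hx hxw => by
      rcases Nat.lt_or_ge x w with h1 | h1
      · rw [hz x hx h1]; exact dvd_zero _
      · have : x = w := by omega
        rw [this]
    refine regI h hM he hN hwX hw0 hwN' hgcd (d := 2) (fun x hx hxw => ?_) (by rw [hww]; omega)
      (le_refl 2) (Or.inr (by omega)) hden' hF'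
    rw [hz x hx hxw]; exact dvd_zero _
  rcases Nat.lt_or_ge d 3 with hd3 | hd3
  swap
  · exact regI h hM he hN hwX hw0 hwN' hgcd hdd hdw (by omega) (Or.inl hd3) hden' hF'
  have hd2 : d = 2 := by omega
  by_cases h5 : 5 * w ≤ 4 * N
  · exact regI h hM he hN hwX hw0 hwN' hgcd hdd hdw (by omega) (Or.inr h5) hden' hF'
  -- a late odd element
  have hwodd : w % 2 = 1 := by
    rw [hd2] at hdw
    omega
  have hev : ∀ x ∈ X, x < w → x % 2 = 0 := by
    intro x hx hxw
    have := hdd x hx hxw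
    rw [hd2] at this
    omega
  have he' : e = 0 ∨ e = 1 := by omega
  rcases he' with he0 | he1
  · refine T2_EV h (N := N) (w := w) (by omega) hN (by omega) fun x hx hx1 hxN => ?_
    by_contra hcon
    have := hev x hx (by omega)
    omega
  · have hM1 : M + 1 = 2 * N := by omega
    by_cases h10 : 10 * (N - w) < N
    · exact T2_III1 h hM1 hN hwX hwN' hwodd hev h10
    · exact T2_III2 h hM1 hN hwX hwN' hwodd hev (by omega) (by omega)

end Pool.Agent.LibA338c1g
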