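import Pool.Agent.Lib_MP_a338c1_g.Basic

/-!
# Averaged Lev-Smeliansky inequality with dense deficits
-/

open Finset
open scoped Pointwise

namespace Pool.Agent.LibA338c1g

open Pool.Agent.LibA338c1f (Nest T2 U2 Q1)

/-- One Lev-Smeliansky window. -/
theorem win {X Q Z : Finset ℕ} (hZQ : Z ⊆ Q) (hQX : Q ⊆ X) (h0 : 0 ∈ Z) {u v w t : ℕ}
    (hw : w ≤ v) (hw1 : 1 ≤ w) (hvu : v ≤ u) (hu : u ∈ X)
    (hgcd : ∀ d, (∀ x ∈ X, x ≤ w → d ∣ x) → d = 1) (ht : u + v ≤ t) :
    ct Q v + min (u : ℤ) (ct X u + ct Z v - 2 - (if u = v then ind Z v else 0)) ≤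
      ct (X + Q) t := by
  set A := X.filter (fun r => r ≤ u) with hA
  set B := Q.filter (fun r => r ≤ v) with hB
  have h1 := Pool.Agent.LibA338c1f.lev_smeliansky A B u (by omega)
    (mem_filter.2 ⟨hu, le_refl _⟩) (fun a ha => (mem_filter.1 ha).2)
    (fun b hb => ((mem_filter.1 hb).2).trans hvu) (mem_filter.2 ⟨hQX (hZQ h0), Nat.zero_le _⟩)
    (mem_filter.2 ⟨hZQ h0, Nat.zero_le _⟩)
    (fun d hd => hgcd d fun x hx hxw => hd x (mem_filter.2 ⟨hx, by omega⟩))
  have hsub : A + B ⊆ (X + Q).filter (fun r => r ≤ t) := by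
    intro x hx
    obtain ⟨p, hp, q, hq, hpq⟩ := mem_add.1 hx
    have hp' := mem_filter.1 hp
    have hq' := mem_filter.1 hq
    rw [mem_filter]
    exact ⟨mem_add.2 ⟨p, hp'.1, q, hq'.1, hpq⟩, by omega⟩
  have h2 := card_le_card hsub
  have hcQ : ct Q v = (B.card : ℤ) := rfl
  have hcX : ct X u = (A.card : ℤ) := rfl
  have hcS : ct (X + Q) t = (((X + Q).filter (fun r => r ≤ t)).card : ℤ) := rfl
  have hZle : ct Z v - (if u = v then ind Z v else 0) ≤
      (B.card : ℤ) - (if u ∈ B then 1 else 0) := by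
    have hZQv := ct_subset hZQ v
    rw [hcQ] at hZQv
    by_cases huv : u = v
    · subst huv
      rw [if_pos rfl]
      by_cases huB : u ∈ B
      · rw [if_pos huB]
        -- compare on [0, u)
        by_cases huZ : u ∈ Z
        · rw [ind_of_mem huZ]; linarith
        · rw [ind_of_not_mem huZ]
          have hss : Z.filter (fun r => r ≤ u) ⊆ B.erase u := by
            intro x hx
            have hx' := mem_filter.1 hx
            rw [mem_erase]
            refine ⟨?_, mem_filter.2 ⟨hZQ hx'.1, hx'.2⟩⟩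
            rintro rfl
            exact huZ hx'.1
          have := card_le_card hss
          rw [card_erase_of_mem huB] at this
          have hpos : 0 < B.card := card_pos.2 ⟨u, huB⟩
          unfold ct
          omega
      · rw [if_neg huB]
        have := ind_nonneg Z u
        linarith
    · rw [if_neg huv]
      have : u ∉ B := by
        intro hb
        have := (mem_filter.1 hb).2
        omega
      rw [if_neg this]
      linarith
  rw [hcQ, hcX, hcS]
  have h2' : ((A + B).card : ℤ) ≤ (((X + Q).filter (fun r => r ≤ t)).card : ℤ) := by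
    exact_mod_cast h2
  rcases h1 with h1 | h1
  · have h1' : (u : ℤ) + B.card ≤ (A + B).card := by exact_mod_cast h1
    have := min_le_left (u : ℤ) ((A.card : ℤ) + ct Z v - 2 - (if u = v then ind Z v else 0))
    linarith
  · have h1' : (A.card : ℤ) + 2 * B.card ≤ (A + B).card + 2 + (if u ∈ B then 1 else 0) := by
      exact_mod_cast h1
    have := min_le_right (u : ℤ) ((A.card : ℤ) + ct Z v - 2 - (if u = v then ind Z v else 0))
    linarith

/-- The target of a window. -/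
def Tg (X Y Z : Finset ℕ) (s : ℕ) : ℤ := 3 * ct X s + 2 * ct Y s + 4 * ct Z s - 6

/-- The combined sumset count. -/
def Cc (X Y Z : Finset ℕ) (t : ℕ) : ℤ := 2 * ct (X + Y) t + ct (X + Z) t

theorem ct_gap {A : Finset ℕ} {p s : ℕ} (hps : p ≤ s) (h : ∀ x ∈ A, p < x → s < x) :
    ct A s = ct A p := by
  unfold ct
  have : A.filter (fun r => r ≤ s) = A.filter (fun r => r ≤ p) := by
    ext x
    rw [mem_filter, mem_filter]
    constructor
    · rintro ⟨h1, h2⟩
      refine ⟨h1, ?_⟩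
      by_contra hc
      have := h x h1 (by omega)
      omega
    · rintro ⟨h1, h2⟩; exact ⟨h1, by omega⟩
  rw [this]

variable {M : ℕ} {X Y Z : Finset ℕ}

/-- The bound for windows `(p,p)`. -/
theorem win1 (h : Nest M X Y Z) {p w t : ℕ} (hw : w ≤ p) (hw1 : 1 ≤ w) (hp : p ∈ X)
    (hgcd : ∀ d, (∀ x ∈ X, x ≤ w → d ∣ x) → d = 1) (ht : 2 * p ≤ t) :
    2 * ct Y p + ct Z p + 3 * min (p : ℤ) (ct X p + ct Z p - 2 - ind Z p) ≤ Cc X Y Z t := by
  have h1 := win h.ZY h.YX h.zero hw hw1 (le_refl p) hp hgcd (by omega : p + p ≤ t)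
  have h2 := win (subset_refl Z) (h.ZY.trans h.YX) h.zero hw hw1 (le_refl p) hp hgcd
    (by omega : p + p ≤ t)
  rw [if_pos rfl] at h1 h2
  unfold Cc
  linarith

/-- The bound for windows `(p',p)`. -/
theorem win2 (h : Nest M X Y Z) {p p' w t : ℕ} (hw : w ≤ p) (hw1 : 1 ≤ w) (hpp : p < p')
    (hp' : p' ∈ X) (hgap : ∀ x ∈ X, p < x → p' ≤ x)
    (hgcd : ∀ d, (∀ x ∈ X, x ≤ w → d ∣ x) → d = 1) (ht : p + p' ≤ t) :
    2 * ct Y p + ct Z p + 3 * min (p' : ℤ) (ct X p + ct Z p - 1) ≤ Cc X Y Z t := by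
  have hX : ct X p' = ct X p + 1 := by
    have h1 : ct X p' = ct X (p' - 1) + 1 := by
      have := ct_succ X (p' - 1)
      rw [Nat.sub_add_cancel (by omega : 1 ≤ p'), ind_of_mem hp'] at this
      exact this
    have h2 : ct X (p' - 1) = ct X p := by
      refine ct_gap (by omega) fun x hx hx1 => ?_
      have := hgap x hx hx1
      omega
    rw [h1, h2]
  have h1 := win h.ZY h.YX h.zero hw hw1 hpp.le hp' hgcd (by omega : p' + p ≤ t)
  have h2 := win (subset_refl Z) (h.ZY.trans h.YX) h.zero hw hw1 hpp.le hp' hgcd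
    (by omega : p' + p ≤ t)
  rw [if_neg (by omega : ¬ p' = p), hX] at h1 h2
  have e1 : ct X p + 1 + ct Z p - 2 - 0 = ct X p + ct Z p - 1 := by ring
  rw [e1] at h1 h2
  unfold Cc
  linarith

theorem sum_ge_const {a b : ℕ} (hab : a ≤ b) {F : ℕ → ℤ} {c : ℤ} (h : ∀ t ∈ Ico a b, c ≤ F t) :
    ((b : ℤ) - a) * c ≤ ∑ t ∈ Ico a b, F t := by
  have h1 := card_nsmul_le_sum (Ico a b) F c h
  rw [Nat.card_Ico, nsmul_eq_mul] at h1
  push_cast [Nat.cast_sub hab] at h1
  exact h1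

/-- The cost of a gap. -/
theorem gap_cost (h : Nest M X Y Z) {p p' w : ℕ} (hw : w ≤ p) (hw1 : 1 ≤ w) (hp : p ∈ X)
    (hpp : p < p') (hp' : p' ∈ X) (hgap : ∀ x ∈ X, p < x → p' ≤ x)
    (hgcd : ∀ d, (∀ x ∈ X, x ≤ w → d ∣ x) → d = 1) :
    4 * ∑ s ∈ Ico p p', Tg X Y Z s - 2 * ∑ t ∈ Ico (2 * p) (2 * p'), Cc X Y Z t ≤
      6 * ((p' : ℤ) - p) * (max (dens X Z p) (ind Z p) + max (dens X Z p - (p' - p)) (-1)) := by
  have hTg : ∀ s ∈ Ico p p', Tg X Y Z s = Tg X Y Z p := by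
    intro s hs
    rw [mem_Ico] at hs
    have hg : ∀ x ∈ X, p < x → s < x := fun x hx hx1 => by
      have := hgap x hx hx1; omega
    unfold Tg
    rw [ct_gap hs.1 hg, ct_gap hs.1 (fun x hx => hg x (h.YX hx)),
      ct_gap hs.1 (fun x hx => hg x (h.YX (h.ZY hx)))]
  rw [sum_congr rfl hTg, sum_const, Nat.card_Ico, nsmul_eq_mul]
  have hc : (((p' - p : ℕ)) : ℤ) = (p' : ℤ) - p := by push_cast [Nat.cast_sub hpp.le]; ring
  rw [hc]
  rw [← sum_Ico_consecutive (fun t => Cc X Y Z t) (by omega : 2 * p ≤ p + p')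
    (by omega : p + p' ≤ 2 * p')]
  have hs1 := sum_ge_const (by omega : 2 * p ≤ p + p')
    (fun t ht => win1 h hw hw1 hp hgcd (mem_Ico.1 ht).1)
  have hs2 := sum_ge_const (by omega : p + p' ≤ 2 * p')
    (fun t ht => win2 h hw hw1 hpp hp' hgap hgcd (mem_Ico.1 ht).1)
  have e1 : ((p + p' : ℕ) : ℤ) - ((2 * p : ℕ) : ℤ) = (p' : ℤ) - p := by push_cast; ring
  have e2 : ((2 * p' : ℕ) : ℤ) - ((p + p' : ℕ) : ℤ) = (p' : ℤ) - p := by push_cast; ring
  rw [e1] at hs1
  rw [e2] at hs2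
  have m1 : ct X p + ct Z p - 2 - min (p : ℤ) (ct X p + ct Z p - 2 - ind Z p) =
      max (dens X Z p) (ind Z p) := by
    unfold dens
    rw [← max_sub_sub_left]
    congr 1
    ring
  have m2 : ct X p + ct Z p - 2 - min (p' : ℤ) (ct X p + ct Z p - 1) =
      max (dens X Z p - (p' - p)) (-1) := by
    unfold dens
    rw [← max_sub_sub_left]
    congr 1 <;> ring
  rw [← m1, ← m2]
  unfold Tg
  set r : ℤ := (p' : ℤ) - p
  set u1 := min (p : ℤ) (ct X p + ct Z p - 2 - ind Z p)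
  set u2 := min (p' : ℤ) (ct X p + ct Z p - 1)
  nlinarith [hs1, hs2]

theorem dens_gap (h : Nest M X Y Z) {p s : ℕ} (hps : p ≤ s) (hg : ∀ x ∈ X, p < x → s < x) :
    dens X Z s = dens X Z p - ((s : ℤ) - p) := by
  unfold dens
  rw [ct_gap hps hg, ct_gap hps (fun x hx => hg x (h.YX (h.ZY hx)))]
  ring

theorem dens_le_self (X Z : Finset ℕ) (p : ℕ) : dens X Z p ≤ p := by
  have h1 := ct_le X p
  have h2 := ct_le Z p
  unfold dens
  linarith

/-- The payment of a zero. -/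
def pay (X Z : Finset ℕ) (w : ℕ) (K : ℕ → ℤ) (g : ℕ) : ℤ :=
  if g ∈ X then 0 else if 0 ≤ dens X Z g then 12 * ((g : ℤ) - w) + K g else 0

theorem pay_nonneg {X Z : Finset ℕ} {w : ℕ} {K : ℕ → ℤ} (hK : ∀ g, 0 ≤ K g) {g : ℕ}
    (hg : w ≤ g) : 0 ≤ pay X Z w K g := by
  unfold pay
  have h1 : (w : ℤ) ≤ g := by exact_mod_cast hg
  have h2 := hK g
  split_ifs <;> linarith

theorem sum_arith (p w n : ℕ) (K : ℕ → ℤ) :
    ∑ i ∈ Ico 1 (n + 1), (12 * (((p + i : ℕ) : ℤ) - w) + K (p + i)) =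
      12 * n * ((p : ℤ) - w) + 6 * n * (n + 1) + ∑ i ∈ Ico 1 (n + 1), K (p + i) := by
  induction n with
  | zero => simp
  | succ n ih =>
    rw [sum_Ico_succ_top (show 1 ≤ n + 1 by omega)
      (fun i => 12 * (((p + i : ℕ) : ℤ) - w) + K (p + i)), ih,
      sum_Ico_succ_top (show 1 ≤ n + 1 by omega) (fun i => K (p + i))]
    push_cast
    ring

/-- The zeros of a gap pay. -/
theorem pay_gap (h : Nest M X Y Z) {p p' w n : ℕ} {K : ℕ → ℤ} (hK : ∀ g, 0 ≤ K g) (hw : w ≤ p)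
    (hn : p + n < p') (hgap : ∀ x ∈ X, p < x → p' ≤ x) (hna : (n : ℤ) ≤ dens X Z p) :
    12 * n * ((p : ℤ) - w) + 6 * n * (n + 1) + ∑ i ∈ Ico 1 (n + 1), K (p + i) ≤
      ∑ g ∈ Ico p p', pay X Z w K g := by
  rw [← sum_arith]
  have h1 : ∑ i ∈ Ico 1 (n + 1), (12 * (((p + i : ℕ) : ℤ) - w) + K (p + i)) =
      ∑ g ∈ Ico (p + 1) (p + (n + 1)), (12 * ((g : ℤ) - w) + K g) := by
    rw [show (p + 1 : ℕ) = 1 + p by ring, show (p + (n + 1) : ℕ) = (n + 1) + p by ring,
      ← sum_Ico_add' (fun g : ℕ => 12 * ((g : ℤ) - w) + K g) 1 (n + 1) p]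
    refine sum_congr rfl fun i _ => ?_
    rw [add_comm p i]
  rw [h1]
  have hsub : Ico (p + 1) (p + (n + 1)) ⊆ Ico p p' := by
    intro x hx
    rw [mem_Ico] at hx ⊢
    omega
  have h2 : ∑ g ∈ Ico (p + 1) (p + (n + 1)), (12 * ((g : ℤ) - w) + K g) =
      ∑ g ∈ Ico (p + 1) (p + (n + 1)), pay X Z w K g := by
    refine sum_congr rfl fun g hg => ?_
    rw [mem_Ico] at hg
    have hgX : g ∉ X := by
      intro hx
      have := hgap g hx (by omega)
      omega
    have hd : dens X Z g = dens X Z p - ((g : ℤ) - p) :=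
      dens_gap h (by omega) fun x hx hx1 => by
        have := hgap x hx hx1; omega
    unfold pay
    rw [if_neg hgX, if_pos]
    rw [hd]
    have : (g : ℤ) ≤ p + n := by
      have : g ≤ p + n := by omega
      exact_mod_cast this
    linarith
  rw [h2]
  refine sum_le_sum_of_subset_of_nonneg hsub fun g hg _ => ?_
  rw [mem_Ico] at hg
  exact pay_nonneg hK (by omega)

/-- The condition on the payments of long gaps. -/
def LongGap (N w : ℕ) (K : ℕ → ℤ) (Bud : ℤ) : Prop :=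
  ∀ p r a : ℕ, w ≤ p → 1 ≤ a → a ≤ p → a + 2 ≤ r → p + r ≤ N →
    (6 * (r : ℤ) * (a - 1) ≤ 6 * a * (a + 1) + ∑ i ∈ Ico 1 (a + 1), K (p + i)) ∨
    (6 * (r : ℤ) * (a - 1) ≤ 6 * a * (a + 1) + ∑ i ∈ Ico 1 (a + 1), K (p + i) + Bud ∧
      N + p < 3 * r)

theorem hi_claim (h : Nest M X Y Z) {N w : ℕ} (hwX : w ∈ X) (hw1 : 1 ≤ w) (hN : 6 ≤ N)
    (hgcd : ∀ d, (∀ x ∈ X, x ≤ w → d ∣ x) → d = 1) {K : ℕ → ℤ} {Bud : ℤ}
    (hK : ∀ g, 0 ≤ K g) (hlong : LongGap N w K Bud) :
    ∀ p, p ∈ X → w ≤ p → p ≤ N → ∃ b : ℤ,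
      (b = 0 ∨ (b = Bud ∧ 2 * (N : ℤ) ≤ 3 * (p - dens X Z p) + 6)) ∧
      4 * ∑ s ∈ Ico w p, Tg X Y Z s - 2 * ∑ t ∈ Ico (2 * w) (2 * p), Cc X Y Z t ≤
        12 * ((p : ℤ) - w) * max (dens X Z p) 0 + ∑ g ∈ Ico w p, pay X Z w K g + b := by
  intro p
  induction p using Nat.strong_induction_on with
  | _ p ih =>
  intro hp hwp hpN
  rcases Nat.eq_or_lt_of_le hwp with heq | hlt
  · subst heq
    exact ⟨0, Or.inl rfl, by simp⟩
  -- the previous element
  have hne : ((X.filter (fun x => w ≤ x ∧ x < p))).Nonempty := ⟨w, mem_filter.2 ⟨hwX, le_refl _, hlt⟩⟩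
  obtain ⟨q, hq, hqmax⟩ := exists_max_image _ (fun x => x) hne
  rw [mem_filter] at hq
  obtain ⟨hqX, hwq, hqp⟩ := hq
  have hgap : ∀ x ∈ X, q < x → p ≤ x := by
    intro x hx hqx
    by_contra hc
    have := hqmax x (mem_filter.2 ⟨hx, by omega, by omega⟩)
    omega
  obtain ⟨b, hb, hcl⟩ := ih q hqp hqX hwq (by omega)
  have hcost := gap_cost h hwq hw1 hqX hqp hp hgap hgcd
  have hsT : ∑ s ∈ Ico w p, Tg X Y Z s = ∑ s ∈ Ico w q, Tg X Y Z s + ∑ s ∈ Ico q p, Tg X Y Z s :=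
    (sum_Ico_consecutive _ hwq hqp.le).symm
  have hsC : ∑ t ∈ Ico (2 * w) (2 * p), Cc X Y Z t = ∑ t ∈ Ico (2 * w) (2 * q), Cc X Y Z t +
      ∑ t ∈ Ico (2 * q) (2 * p), Cc X Y Z t :=
    (sum_Ico_consecutive _ (by omega) (by omega)).symm
  have hsP : ∑ g ∈ Ico w p, pay X Z w K g = ∑ g ∈ Ico w q, pay X Z w K g +
      ∑ g ∈ Ico q p, pay X Z w K g := (sum_Ico_consecutive _ hwq hqp.le).symm
  rw [hsT, hsC, hsP]
  -- the density at p
  have hdp1 : dens X Z (p - 1) = dens X Z q - (((p - 1 : ℕ) : ℤ) - q) :=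
    dens_gap h (by omega) fun x hx hx1 => by
      have := hgap x hx hx1; omega
  have hcast : ((p - 1 : ℕ) : ℤ) = (p : ℤ) - 1 := by push_cast [Nat.cast_sub (by omega : 1 ≤ p)]; ring
  have hdp : dens X Z p = dens X Z q - ((p : ℤ) - q) + 1 + ind Z p := by
    have := dens_succ X Z (p - 1)
    rw [Nat.sub_add_cancel (by omega : 1 ≤ p), hdp1, ind_of_mem hp, hcast] at this
    rw [this]; ring
  have hz0 := ind_nonneg Z p
  have hz1 := ind_le_one Z p
  have hzq0 := ind_nonneg Z q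
  have hzq1 := ind_le_one Z q
  have hq1 := dens_le_self X Z q
  have hqpz : (q : ℤ) < p := by exact_mod_cast hqp
  have hwqz : (w : ℤ) ≤ q := by exact_mod_cast hwq
  have hpay0 : 0 ≤ ∑ g ∈ Ico q p, pay X Z w K g :=
    sum_nonneg fun g hg => pay_nonneg hK (by rw [mem_Ico] at hg; omega)
  have hflag : b = 0 ∨ (b = Bud ∧ 2 * (N : ℤ) ≤ 3 * (p - dens X Z p) + 6) := by
    rcases hb with hb | ⟨hb, hb2⟩
    · exact Or.inl hb
    · refine Or.inr ⟨hb, ?_⟩
      rw [hdp]; linarith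
  by_cases ha : dens X Z q ≤ 0
  · -- no deficit
    refine ⟨b, hflag, ?_⟩
    have hm0 : max (dens X Z q) 0 = 0 := max_eq_right ha
    rw [hm0] at hcl
    have hm1 : max (dens X Z q) (ind Z q) ≤ 1 := max_le (by linarith) hzq1
    have hm2 : max (dens X Z q - (p - q)) (-1) = -1 := max_eq_right (by linarith)
    rw [hm2] at hcost
    have hm3 : 0 ≤ max (dens X Z p) 0 := le_max_right _ _
    have h1 : 6 * ((p : ℤ) - q) * (max (dens X Z q) (ind Z q) + -1) ≤ 0 := by
      apply mul_nonpos_of_nonneg_of_nonpos <;> linarith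
    have h2 : 0 ≤ 12 * ((p : ℤ) - w) * max (dens X Z p) 0 := by
      apply mul_nonneg _ hm3
      linarith
    linarith
  push Not at ha
  -- a positive density
  obtain ⟨a, ha'⟩ : ∃ a : ℕ, (a : ℤ) = dens X Z q := ⟨(dens X Z q).toNat, Int.toNat_of_nonneg ha.le⟩
  have ha1 : 1 ≤ a := by have : (0 : ℤ) < a := by rw [ha']; exact ha
                         exact_mod_cast this
  have haq : a ≤ q := by have : (a : ℤ) ≤ q := by rw [ha']; exact hq1
                         exact_mod_cast this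
  have hm0 : max (dens X Z q) 0 = a := by rw [← ha']; exact max_eq_left (by positivity)
  have hm1 : max (dens X Z q) (ind Z q) = a := by
    rw [← ha']
    refine max_eq_left ?_
    have : (1 : ℤ) ≤ a := by exact_mod_cast ha1
    linarith
  rw [hm0] at hcl
  rw [hm1] at hcost
  rw [← ha'] at hcost hdp
  by_cases hr : p - q ≤ a + 1
  · -- short gap
    refine ⟨b, hflag, ?_⟩
    have hm2 : max ((a : ℤ) - (p - q)) (-1) = a - (p - q) := by
      refine max_eq_left ?_
      have : (p : ℤ) - q ≤ a + 1 := by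
        have : p ≤ q + (a + 1) := by omega
        have h2 : (p : ℤ) ≤ q + (a + 1) := by exact_mod_cast this
        linarith
      linarith
    rw [hm2] at hcost
    have hpg := pay_gap h (n := p - q - 1) hK hwq (by omega) hgap (by
      rw [← ha']
      have : p - q - 1 ≤ a := by omega
      exact_mod_cast this)
    have hKs : 0 ≤ ∑ i ∈ Ico 1 (p - q - 1 + 1), K (q + i) := sum_nonneg fun i _ => hK _
    have hn : (((p - q - 1 : ℕ)) : ℤ) = (p : ℤ) - q - 1 := by
      push_cast [Nat.cast_sub (by omega : 1 ≤ p - q), Nat.cast_sub (by omega : q ≤ p)]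
      ring
    rw [hn] at hpg
    have hle : (p : ℤ) - q ≤ a + 1 := by
      have : p ≤ q + (a + 1) := by omega
      have h2 : (p : ℤ) ≤ q + (a + 1) := by exact_mod_cast this
      linarith
    have hm3 : (a : ℤ) - (p - q) + 1 ≤ max (dens X Z p) 0 :=
      le_trans (by rw [hdp]; linarith) (le_max_left _ _)
    have h2 : 12 * ((p : ℤ) - w) * ((a : ℤ) - (p - q) + 1) ≤
        12 * ((p : ℤ) - w) * max (dens X Z p) 0 := by
      apply mul_le_mul_of_nonneg_left hm3
      linarith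
    nlinarith [hcost, hpg, h2, hcl, hKs]
  · -- long gap
    have hm2 : max ((a : ℤ) - (p - q)) (-1) = -1 := by
      refine max_eq_right ?_
      have : q + (a + 2) ≤ p := by omega
      have h2 : (q : ℤ) + (a + 2) ≤ p := by exact_mod_cast this
      linarith
    rw [hm2] at hcost
    have hpg := pay_gap h (n := a) hK hwq (by omega) hgap (by rw [← ha'])
    have hr' : (((p - q : ℕ)) : ℤ) = (p : ℤ) - q := by
      push_cast [Nat.cast_sub (by omega : q ≤ p)]; ring
    have hm3 : 0 ≤ max (dens X Z p) 0 := le_max_right _ _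
    have h2 : 0 ≤ 12 * ((p : ℤ) - w) * max (dens X Z p) 0 := by
      apply mul_nonneg _ hm3
      linarith
    rcases hlong q (p - q) a hwq ha1 haq (by omega) (by omega) with hl | ⟨hl, hl2⟩
    · refine ⟨b, hflag, ?_⟩
      rw [hr'] at hl
      linarith
    · rw [hr'] at hl
      have hl2' : (N : ℤ) + q < 3 * ((p : ℤ) - q) := by
        have : (N : ℤ) + q < 3 * ((p - q : ℕ) : ℤ) := by exact_mod_cast hl2
        rw [hr'] at this; exact this
      rcases hb with hb | ⟨hb, hb2⟩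
      · refine ⟨Bud, Or.inr ⟨rfl, ?_⟩, ?_⟩
        · rw [hdp]
          have : (a : ℤ) ≤ q := by exact_mod_cast haq
          linarith
        · rw [hb] at hcl
          linarith
      · exfalso
        rw [← ha'] at hb2
        have h3 : (p : ℤ) ≤ N := by exact_mod_cast hpN
        have h4 : (1 : ℤ) ≤ a := by exact_mod_cast ha1
        have h5 : (6 : ℤ) ≤ N := by exact_mod_cast hN
        linarith

/-- The condition on the payments of the last gap. -/
def LastGap (N w : ℕ) (K : ℕ → ℤ) (Bud : ℤ) : Prop :=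
  ∀ p a : ℕ, w ≤ p → 1 ≤ a → a ≤ p → p + a + 1 ≤ N →
    (6 * ((N : ℤ) - p) * (a - 1) + 6 * (a - 1) ≤ 6 * a * (a + 1) + ∑ i ∈ Ico 1 (a + 1), K (p + i)) ∨
    (6 * ((N : ℤ) - p) * (a - 1) + 6 * (a - 1) ≤
        6 * a * (a + 1) + ∑ i ∈ Ico 1 (a + 1), K (p + i) + Bud ∧ 2 * p < N)

/-- The payment of an empty position. -/
def pay0 (M : ℕ) (X : Finset ℕ) (P0 : ℤ) (g : ℕ) : ℤ :=
  if g ∈ X then 0 else if M - g ∈ X then 0 else P0

theorem pay0_nonneg {M : ℕ} {X : Finset ℕ} {P0 : ℤ} (hP : 0 ≤ P0) (g : ℕ) :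
    0 ≤ pay0 M X P0 g := by
  unfold pay0
  split_ifs <;> linarith

/-- The cost of the last gap. -/
theorem last_cost (h : Nest M X Y Z) {p w N j : ℕ} (hw : w ≤ p) (hw1 : 1 ≤ w) (hp : p ∈ X)
    (hpN : p < N) (hj : p + j ≤ N) (hgap : ∀ x ∈ X, p < x → N + j ≤ x)
    (hjX : p + j < N → N + j ∈ X)
    (hgcd : ∀ d, (∀ x ∈ X, x ≤ w → d ∣ x) → d = 1) (ha : dens X Z p + 1 ≤ (N : ℤ) - p) :
    4 * ∑ s ∈ Ico p N, Tg X Y Z s - 2 * ∑ t ∈ Ico (2 * p) (2 * N), Cc X Y Z t ≤
      6 * (((N : ℤ) - p + j) * max (dens X Z p) (ind Z p) - ((N : ℤ) - p - j)) := by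
  have hTg : ∀ s ∈ Ico p N, Tg X Y Z s = Tg X Y Z p := by
    intro s hs
    rw [mem_Ico] at hs
    have hg : ∀ x ∈ X, p < x → s < x := fun x hx hx1 => by
      have := hgap x hx hx1; omega
    unfold Tg
    rw [ct_gap hs.1 hg, ct_gap hs.1 (fun x hx => hg x (h.YX hx)),
      ct_gap hs.1 (fun x hx => hg x (h.YX (h.ZY hx)))]
  rw [sum_congr rfl hTg, sum_const, Nat.card_Ico, nsmul_eq_mul]
  have hc : (((N - p : ℕ)) : ℤ) = (N : ℤ) - p := by push_cast [Nat.cast_sub hpN.le]; ring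
  rw [hc]
  rw [← sum_Ico_consecutive (fun t => Cc X Y Z t) (by omega : 2 * p ≤ p + N + j)
    (by omega : p + N + j ≤ 2 * N)]
  have hs1 := sum_ge_const (by omega : 2 * p ≤ p + N + j)
    (fun t ht => win1 h hw hw1 hp hgcd (mem_Ico.1 ht).1)
  have hs2 : (((2 * N : ℕ) : ℤ) - ((p + N + j : ℕ) : ℤ)) *
      (2 * ct Y p + ct Z p + 3 * (ct X p + ct Z p - 1)) ≤
      ∑ t ∈ Ico (p + N + j) (2 * N), Cc X Y Z t := by
    refine sum_ge_const (by omega) fun t ht => ?_
    rw [mem_Ico] at ht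
    have hjlt : p + j < N := by omega
    have := win2 h hw hw1 (by omega : p < N + j) (hjX hjlt) hgap hgcd
      (by omega : p + (N + j) ≤ t)
    have hmin : min (((N + j : ℕ)) : ℤ) (ct X p + ct Z p - 1) = ct X p + ct Z p - 1 := by
      refine min_eq_right ?_
      unfold dens at ha
      push_cast
      have : (0 : ℤ) ≤ j := Int.natCast_nonneg _
      linarith
    rw [hmin] at this
    exact this
  have e1 : ((p + N + j : ℕ) : ℤ) - ((2 * p : ℕ) : ℤ) = (N : ℤ) - p + j := by push_cast; ring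
  have e2 : ((2 * N : ℕ) : ℤ) - ((p + N + j : ℕ) : ℤ) = (N : ℤ) - p - j := by push_cast; ring
  rw [e1] at hs1
  rw [e2] at hs2
  have m1 : ct X p + ct Z p - 2 - min (p : ℤ) (ct X p + ct Z p - 2 - ind Z p) =
      max (dens X Z p) (ind Z p) := by
    unfold dens
    rw [← max_sub_sub_left]
    congr 1
    ring
  rw [← m1]
  unfold Tg
  set r : ℤ := (N : ℤ) - p
  set u1 := min (p : ℤ) (ct X p + ct Z p - 2 - ind Z p)
  nlinarith [hs1, hs2]

/-- The averaged Lev-Smeliansky inequality. -/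
theorem hi_final (h : Nest M X Y Z) {N w e : ℕ} (hM : M + e = 2 * N) (he : e ≤ 1)
    (hwX : w ∈ X) (hw1 : 1 ≤ w) (hwN : w < N) (hN : 6 ≤ N)
    (hgcd : ∀ d, (∀ x ∈ X, x ≤ w → d ∣ x) → d = 1) {K : ℕ → ℤ} {Bud P0 : ℤ}
    (hK : ∀ g, 0 ≤ K g) (hlong : LongGap N w K Bud) (hlast : LastGap N w K Bud)
    (hBud : 0 ≤ Bud) (hP0 : 6 * ((N : ℤ) - w) ≤ P0) (hden : dens X Z (N - 1) ≤ 0) :
    4 * ∑ s ∈ Ico w N, Tg X Y Z s ≤ 2 * ∑ t ∈ Ico (2 * w) (2 * N), Cc X Y Z t +
      ∑ g ∈ Ico w N, (pay X Z w K g + pay0 M X P0 g) + 12 * (1 - (1 - e) * ind X N) + Bud := by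
  -- the last element below `N`
  have hne : ((X.filter (fun x => w ≤ x ∧ x < N))).Nonempty :=
    ⟨w, mem_filter.2 ⟨hwX, le_refl _, hwN⟩⟩
  obtain ⟨p, hp, hpmax⟩ := exists_max_image _ (fun x => x) hne
  rw [mem_filter] at hp
  obtain ⟨hpX, hwp, hpN⟩ := hp
  have hgap0 : ∀ x ∈ X, p < x → N ≤ x := by
    intro x hx hqx
    by_contra hc
    have := hpmax x (mem_filter.2 ⟨hx, by omega, by omega⟩)
    omega
  -- the number of missing elements from `N` on
  obtain ⟨j, hj, hjX, hgap, hj0⟩ : ∃ j : ℕ, p + j ≤ N ∧ (p + j < N → N + j ∈ X) ∧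
      (∀ x ∈ X, p < x → N + j ≤ x) ∧ (N ∈ X → j = 0) := by
    by_cases hex : ∃ i, N + i ∈ X
    · classical
      set i := Nat.find hex
      have hi : N + i ∈ X := Nat.find_spec hex
      have hmin : ∀ k, k < i → N + k ∉ X := fun k hk => Nat.find_min hex hk
      refine ⟨min i (N - p), by omega, ?_, ?_, ?_⟩
      · intro hlt
        have : min i (N - p) = i := by omega
        rw [this]; exact hi
      · intro x hx hpx
        have h1 := hgap0 x hx hpx
        by_contra hc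
        refine hmin (x - N) (by omega) ?_
        rw [Nat.add_sub_cancel' h1]
        exact hx
      · intro hNX
        have : i = 0 := by
          by_contra hc
          exact hmin 0 (by omega) (by simpa using hNX)
        omega
    · push Not at hex
      refine ⟨N - p, by omega, fun hlt => absurd hlt (by omega), ?_, ?_⟩
      · intro x hx hpx
        have h1 := hgap0 x hx hpx
        exfalso
        refine hex (x - N) ?_
        rw [Nat.add_sub_cancel' h1]
        exact hx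
      · intro hNX
        exact absurd (by simpa using hNX) (hex 0)
  -- the density
  have hden' : dens X Z p + 1 ≤ (N : ℤ) - p := by
    have h1 := dens_gap h (by omega : p ≤ N - 1) (fun x hx hx1 => by
      have := hgap0 x hx hx1; omega)
    rw [h1] at hden
    have hcast : ((N - 1 : ℕ) : ℤ) = (N : ℤ) - 1 := by
      push_cast [Nat.cast_sub (by omega : 1 ≤ N)]; ring
    rw [hcast] at hden
    linarith
  have hcost := last_cost h hwp hw1 hpX hpN hj hgap hjX hgcd hden'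
  obtain ⟨b, hb, hcl⟩ := hi_claim h hwX hw1 hN hgcd hK hlong p hpX hwp hpN.le
  have hsT : ∑ s ∈ Ico w N, Tg X Y Z s = ∑ s ∈ Ico w p, Tg X Y Z s + ∑ s ∈ Ico p N, Tg X Y Z s :=
    (sum_Ico_consecutive _ hwp hpN.le).symm
  have hsC : ∑ t ∈ Ico (2 * w) (2 * N), Cc X Y Z t = ∑ t ∈ Ico (2 * w) (2 * p), Cc X Y Z t +
      ∑ t ∈ Ico (2 * p) (2 * N), Cc X Y Z t :=
    (sum_Ico_consecutive _ (by omega) (by omega)).symm
  have hsP : ∑ g ∈ Ico w N, pay X Z w K g = ∑ g ∈ Ico w p, pay X Z w K g +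
      ∑ g ∈ Ico p N, pay X Z w K g := (sum_Ico_consecutive _ hwp hpN.le).symm
  rw [sum_add_distrib, hsT, hsC, hsP]
  have hpNz : (p : ℤ) + 1 ≤ N := by exact_mod_cast hpN
  have hwpz : (w : ℤ) ≤ p := by exact_mod_cast hwp
  have hjz : (p : ℤ) + j ≤ N := by exact_mod_cast hj
  have hj0z : (0 : ℤ) ≤ j := Int.natCast_nonneg _
  have hP0n : 0 ≤ P0 := by linarith
  -- payments of empty positions
  have hp0 : P0 * ((j : ℤ) - 1) ≤ ∑ g ∈ Ico w N, pay0 M X P0 g ∧
      0 ≤ ∑ g ∈ Ico w N, pay0 M X P0 g := by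
    have hnn : 0 ≤ ∑ g ∈ Ico w N, pay0 M X P0 g := sum_nonneg fun g _ => pay0_nonneg hP0n g
    refine ⟨?_, hnn⟩
    rcases Nat.eq_zero_or_pos j with hj1 | hj1
    · rw [hj1]; push_cast; linarith
    have hsub : Ico (N + 1 - j) N ⊆ Ico w N := by
      intro x hx
      rw [mem_Ico] at hx ⊢
      omega
    have h1 := sum_le_sum_of_subset_of_nonneg (f := fun g => pay0 M X P0 g) hsub
      (fun g _ _ => pay0_nonneg hP0n g)
    have h2 : ∀ g ∈ Ico (N + 1 - j) N, pay0 M X P0 g = P0 := by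
      intro g hg
      rw [mem_Ico] at hg
      have hgX : g ∉ X := fun hx => by
        have := hgap0 g hx (by omega)
        omega
      have hMgX : M - g ∉ X := fun hx => by
        have := hgap (M - g) hx (by omega)
        omega
      unfold pay0
      rw [if_neg hgX, if_neg hMgX]
    rw [sum_congr rfl h2, sum_const, Nat.card_Ico, nsmul_eq_mul] at h1
    have h3 : (((N - (N + 1 - j) : ℕ)) : ℤ) = (j : ℤ) - 1 := by
      have : N - (N + 1 - j) = j - 1 := by omega
      rw [this]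
      push_cast [Nat.cast_sub hj1]; ring
    rw [h3] at h1
    linarith
  have hf0 := ind_nonneg X N
  have hf1 := ind_le_one X N
  have hez : (e : ℤ) ≤ 1 := by exact_mod_cast he
  have hez0 : (0 : ℤ) ≤ e := Int.natCast_nonneg _
  have hloss0 : 0 ≤ 12 * (1 - (1 - (e : ℤ)) * ind X N) := by nlinarith
  -- the loss covers one missing element
  have hloss : 1 ≤ j → 12 * (1 - (1 - (e : ℤ)) * ind X N) = 12 := by
    intro hj1
    have : ind X N = 0 := ind_of_not_mem fun hNX => by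
      have := hj0 hNX; omega
    rw [this]; ring
  have hz0 := ind_nonneg Z p
  have hz1 := ind_le_one Z p
  have hq1 := dens_le_self X Z p
  have hpay0 : 0 ≤ ∑ g ∈ Ico p N, pay X Z w K g :=
    sum_nonneg fun g hg => pay_nonneg hK (by rw [mem_Ico] at hg; omega)
  have hbB : b ≤ Bud := by
    rcases hb with hb | ⟨hb, _⟩
    · rw [hb]; exact hBud
    · rw [hb]
  by_cases ha : dens X Z p ≤ 0
  · -- no deficit
    have hm0 : max (dens X Z p) 0 = 0 := max_eq_right ha
    rw [hm0] at hcl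
    have hm1 : max (dens X Z p) (ind Z p) ≤ 1 := max_le (by linarith) hz1
    have h1 : ((N : ℤ) - p + j) * max (dens X Z p) (ind Z p) ≤ ((N : ℤ) - p + j) * 1 := by
      apply mul_le_mul_of_nonneg_left hm1
      linarith
    rcases Nat.eq_zero_or_pos j with hj1 | hj1
    · have hj1z : (j : ℤ) = 0 := by exact_mod_cast hj1
      rw [hj1z] at h1 hcost
      linarith [hp0.2]
    · have hl := hloss hj1
      have h2 : 12 * ((j : ℤ) - 1) ≤ ∑ g ∈ Ico w N, pay0 M X P0 g := by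
        rcases Nat.eq_or_lt_of_le hj1 with hj2 | hj2
        · have hj2' : (j : ℤ) = 1 := by
            have : j = 1 := by omega
            exact_mod_cast this
          rw [hj2']
          linarith [hp0.2]
        · have hj2' : (2 : ℤ) ≤ j := by exact_mod_cast hj2
          have h12 : 12 ≤ P0 := by linarith
          have h4 : 12 * ((j : ℤ) - 1) ≤ P0 * ((j : ℤ) - 1) := by
            apply mul_le_mul_of_nonneg_right h12
            linarith
          linarith [hp0.1]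
      linarith
  push Not at ha
  obtain ⟨a, ha'⟩ : ∃ a : ℕ, (a : ℤ) = dens X Z p := ⟨(dens X Z p).toNat, Int.toNat_of_nonneg ha.le⟩
  have ha1 : 1 ≤ a := by have : (0 : ℤ) < a := by rw [ha']; exact ha
                         exact_mod_cast this
  have ha1z : (1 : ℤ) ≤ a := by exact_mod_cast ha1
  have haq : a ≤ p := by have : (a : ℤ) ≤ p := by rw [ha']; exact hq1
                         exact_mod_cast this
  have hm0 : max (dens X Z p) 0 = a := by rw [← ha']; exact max_eq_left (by positivity)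
  have hm1 : max (dens X Z p) (ind Z p) = a := by
    rw [← ha']
    exact max_eq_left (by linarith)
  rw [hm0] at hcl
  rw [hm1] at hcost
  rw [← ha'] at hden'
  have haN : p + a + 1 ≤ N := by
    have : (p : ℤ) + a + 1 ≤ N := by linarith
    exact_mod_cast this
  have hpg := pay_gap h (n := a) (p' := N) hK hwp (by omega) hgap0 (by rw [← ha'])
  -- the cost of `j`
  have hjc : 6 * (j : ℤ) * (a + 1) ≤ 6 * (a - 1) + 12 * (1 - (1 - (e : ℤ)) * ind X N) +
      ∑ g ∈ Ico w N, pay0 M X P0 g := by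
    rcases Nat.eq_zero_or_pos j with hj1 | hj1
    · have hj1z : (j : ℤ) = 0 := by exact_mod_cast hj1
      rw [hj1z]
      linarith [hp0.2]
    · have hl := hloss hj1
      have hj1z : (1 : ℤ) ≤ j := by exact_mod_cast hj1
      have h12 : 6 * ((a : ℤ) + 1) ≤ P0 := by linarith
      have h4 : 6 * ((a : ℤ) + 1) * ((j : ℤ) - 1) ≤ P0 * ((j : ℤ) - 1) := by
        apply mul_le_mul_of_nonneg_right h12
        linarith
      linarith [hp0.1]
  rcases hlast p a hwp ha1 haq haN with hl | ⟨hl, hl2⟩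
  · linarith
  · rcases hb with hb | ⟨hb, hb2⟩
    · rw [hb] at hcl
      linarith
    · exfalso
      rw [← ha'] at hb2
      have hl2' : 2 * (p : ℤ) < N := by exact_mod_cast hl2
      have h5 : (6 : ℤ) ≤ N := by exact_mod_cast hN
      linarith

/-! ### Concrete payments -/

/-- The constant payments. -/
theorem long_b {N w : ℕ} (hwN : w ≤ N) : LongGap N w (fun _ => 6 * ((N : ℤ) - w)) 0 := by
  intro p r a hwp ha1 _ _ hpr
  left
  rw [sum_const, Nat.card_Ico, nsmul_eq_mul, Nat.add_sub_cancel]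
  have h1 : (r : ℤ) ≤ N - w := by
    have : (p : ℤ) + r ≤ N := by exact_mod_cast hpr
    have h2 : (w : ℤ) ≤ p := by exact_mod_cast hwp
    linarith
  have h2 : (1 : ℤ) ≤ a := by exact_mod_cast ha1
  have h3 : (0 : ℤ) ≤ r := Int.natCast_nonneg _
  nlinarith [mul_le_mul_of_nonneg_right h1 (by linarith : (0 : ℤ) ≤ (a : ℤ) - 1)]

theorem last_b {N w : ℕ} (hwN : w ≤ N) : LastGap N w (fun _ => 6 * ((N : ℤ) - w)) 0 := by
  intro p a hwp ha1 _ haN
  left
  rw [sum_const, Nat.card_Ico, nsmul_eq_mul, Nat.add_sub_cancel]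
  have h2 : (w : ℤ) ≤ p := by exact_mod_cast hwp
  have h1 : (N : ℤ) - p ≤ N - w := by linarith
  have h3 : (1 : ℤ) ≤ a := by exact_mod_cast ha1
  have h4 : (p : ℤ) + a + 1 ≤ N := by exact_mod_cast haN
  nlinarith [mul_le_mul_of_nonneg_right h1 (by linarith : (0 : ℤ) ≤ (a : ℤ) - 1)]

/-- The sum of the linear payments. -/
theorem sum_Ka (N p a : ℕ) :
    ∑ i ∈ Ico 1 (a + 1), (2 * (N : ℤ) + 2 * ((p + i : ℕ) : ℤ)) =
      2 * a * ((N : ℤ) + p) + a * (a + 1) := by
  induction a with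
  | zero => simp
  | succ n ih =>
    rw [sum_Ico_succ_top (show 1 ≤ n + 1 by omega), ih]
    push_cast
    ring

/-- The linear payments. -/
theorem long_a {N w : ℕ} {Bud : ℤ} (hBud : ∀ a : ℕ, 4 * (N : ℤ) * a - 6 * N - 14 * a ^ 2 ≤ Bud) :
    LongGap N w (fun g => 2 * (N : ℤ) + 2 * (g : ℤ)) Bud := by
  intro p r a hwp ha1 hap har hpr
  have hs := sum_Ka N p a
  have hpr' : (p : ℤ) + r ≤ N := by exact_mod_cast hpr
  have h3 : (1 : ℤ) ≤ a := by exact_mod_cast ha1
  have h4 : (a : ℤ) ≤ p := by exact_mod_cast hap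
  simp only [hs]
  by_cases hc : N + p < 3 * r
  · right
    refine ⟨?_, hc⟩
    have h5 := hBud a
    have h6 : (r : ℤ) * (a - 1) ≤ (N - p) * (a - 1) :=
      mul_le_mul_of_nonneg_right (by linarith) (by linarith)
    have h7 : (a : ℤ) * (8 * a - 6) ≤ p * (8 * a - 6) :=
      mul_le_mul_of_nonneg_right h4 (by linarith)
    nlinarith [h5, h6, h7]
  · left
    push Not at hc
    have hc' : 3 * (r : ℤ) ≤ N + p := by exact_mod_cast hc
    have h6 : 3 * (r : ℤ) * (a - 1) ≤ (N + p) * (a - 1) :=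
      mul_le_mul_of_nonneg_right hc' (by linarith)
    have hN0 : (0 : ℤ) ≤ N := Int.natCast_nonneg _
    nlinarith [h6]

theorem last_a {N w : ℕ} {Bud : ℤ} (hBud : ∀ a : ℕ, 4 * (N : ℤ) * a - 6 * N - 14 * a ^ 2 ≤ Bud) :
    LastGap N w (fun g => 2 * (N : ℤ) + 2 * (g : ℤ)) Bud := by
  intro p a hwp ha1 hap haN
  have hs := sum_Ka N p a
  have hN' : (p : ℤ) + a + 1 ≤ N := by exact_mod_cast haN
  have h3 : (1 : ℤ) ≤ a := by exact_mod_cast ha1
  have h4 : (a : ℤ) ≤ p := by exact_mod_cast hap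
  simp only [hs]
  by_cases hc : 2 * p < N
  · right
    refine ⟨?_, hc⟩
    have h5 := hBud a
    have h7 : (a : ℤ) * (8 * a - 6) ≤ p * (8 * a - 6) :=
      mul_le_mul_of_nonneg_right h4 (by linarith)
    have h8 : 0 ≤ ((a : ℤ) - 2) * (a - 3) := by
      rcases le_or_gt (a : ℤ) 2 with h9 | h9
      · exact mul_nonneg_of_nonpos_of_nonpos (by linarith) (by linarith)
      · exact mul_nonneg (by linarith) (by linarith)
    nlinarith [h5, h7, h8]
  · left
    push Not at hc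
    have hc' : (N : ℤ) ≤ 2 * p := by exact_mod_cast hc
    have h6 : 3 * ((N : ℤ) - p) * (a - 1) ≤ (N + p) * (a - 1) :=
      mul_le_mul_of_nonneg_right (by linarith) (by linarith)
    have hN0 : (0 : ℤ) ≤ N := Int.natCast_nonneg _
    nlinarith [h6]

end Pool.Agent.LibA338c1g
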