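import Pool.Agent.Lib_MP_a338c1_g.RegIII1
import Pool.Agent.Lib_MP_a338c1_g.Hi

/-!
# The regime (TD): the density at the end is positive
-/

open Finset
open scoped Pointwise

namespace Pool.Agent.LibA338c1g

open Pool.Agent.LibA338c1f (Nest T2 U2 Q1)

variable {M : ℕ} {X Y Z : Finset ℕ}

/-- The number of multiples of `d`. -/
theorem ct_mult {A : Finset ℕ} {d m : ℕ} (h : ∀ x ∈ A, x ≤ m → d ∣ x) (hd : 1 ≤ d) :
    ct A m ≤ (m / d : ℕ) + 1 := by
  unfold ct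
  have hsub : A.filter (fun r => r ≤ m) ⊆ (range (m / d + 1)).image (fun i => d * i) := by
    intro x hx
    obtain ⟨hx1, hx2⟩ := mem_filter.1 hx
    obtain ⟨k, rfl⟩ := h x hx1 hx2
    rw [mem_image]
    refine ⟨k, mem_range.2 ?_, rfl⟩
    have : k ≤ m / d := by
      rw [Nat.le_div_iff_mul_le (by omega)]
      rw [mul_comm]; exact hx2
    omega
  have h1 := (card_le_card hsub).trans card_image_le
  rw [card_range] at h1
  exact_mod_cast h1

/-- The gcd of the low part. -/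
theorem TD_gcd (h : Nest M X Y Z) {m : ℕ} (hd : 1 ≤ dens X Z m) :
    ∀ d, (∀ x ∈ X, x ≤ m → d ∣ x) → d = 1 := by
  intro d hdv
  by_contra hne
  have hZX : ∀ z ∈ Z, z ∈ X := fun z hz => h.YX (h.ZY hz)
  rcases Nat.eq_zero_or_pos d with h0 | h0
  · subst h0
    have h1 : ∀ A : Finset ℕ, (∀ x ∈ A, x ∈ X) → ct A m ≤ 1 := by
      intro A hA
      unfold ct
      have hsub : A.filter (fun r => r ≤ m) ⊆ {0} := by
        intro x hx
        obtain ⟨hx1, hx2⟩ := mem_filter.1 hx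
        rw [mem_singleton]
        exact Nat.eq_zero_of_zero_dvd (hdv x (hA x hx1) hx2)
      have := card_le_card hsub
      rw [card_singleton] at this
      exact_mod_cast this
    have h2 := h1 X fun x hx => hx
    have h3 := h1 Z hZX
    unfold dens at hd
    have : (0 : ℤ) ≤ m := Int.natCast_nonneg _
    linarith
  · have h2 := ct_mult (A := X) hdv h0
    have h3 := ct_mult (A := Z) (fun x hx => hdv x (hZX x hx)) h0
    have h4 : 2 * (m / d) ≤ m := by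
      calc 2 * (m / d) ≤ d * (m / d) := Nat.mul_le_mul_right _ (by omega)
        _ ≤ m := Nat.mul_div_le m d
    have h5 : 2 * ((m / d : ℕ) : ℤ) ≤ m := by exact_mod_cast h4
    unfold dens at hd
    linarith

/-- The top window. -/
theorem TD_top (h : Nest M X Y Z) {m : ℕ} (hm : 2 * m ≤ M) (hd : 1 ≤ dens X Z m) :
    ∃ p ∈ X, p ≤ m ∧ (∀ x ∈ X, x ≤ m → x ≤ p) ∧ (Z.card : ℤ) + p + ct Y m ≤ M + 1 := by
  have hg := TD_gcd h hd
  obtain ⟨h0X, h0Y, h0Z⟩ := nest_zero h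
  have hne : (X.filter (fun x => x ≤ m)).Nonempty := ⟨0, mem_filter.2 ⟨h0X, Nat.zero_le _⟩⟩
  obtain ⟨p, hp, hpmax⟩ := exists_max_image _ (fun x => x) hne
  rw [mem_filter] at hp
  obtain ⟨hpX, hpm⟩ := hp
  have hmax : ∀ x ∈ X, x ≤ m → x ≤ p := fun x hx hxm => hpmax x (mem_filter.2 ⟨hx, hxm⟩)
  refine ⟨p, hpX, hpm, hmax, ?_⟩
  have hp0 : 0 < p := by
    by_contra hc
    have hp0 : p = 0 := by omega
    have := hg 0 fun x hx hxm => by
      have := hmax x hx hxm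
      have : x = 0 := by omega
      rw [this]
    omega
  set A := X.filter (fun r => r ≤ m) with hA
  set B := Y.filter (fun r => r ≤ m) with hB
  have h1 := Pool.Agent.LibA338c1f.lev_smeliansky A B p hp0
    (mem_filter.2 ⟨hpX, hpm⟩) (fun a ha => hmax a (mem_filter.1 ha).1 (mem_filter.1 ha).2)
    (fun b hb => hmax b (h.YX (mem_filter.1 hb).1) (mem_filter.1 hb).2)
    (mem_filter.2 ⟨h0X, Nat.zero_le _⟩)
    (mem_filter.2 ⟨h0Y, Nat.zero_le _⟩)
    (fun d hd => hg d fun x hx hxw => hd x (mem_filter.2 ⟨hx, hxw⟩))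
  have hsub : A + B ⊆ (X + Y).filter (fun r => r ≤ M) := by
    intro x hx
    obtain ⟨a, ha, b, hb, hab⟩ := mem_add.1 hx
    have ha' := mem_filter.1 ha
    have hb' := mem_filter.1 hb
    rw [mem_filter]
    exact ⟨mem_add.2 ⟨a, ha'.1, b, hb'.1, hab⟩, by omega⟩
  have h2 := card_le_card hsub
  have h3 := pair_count (R := Z) (P := X) (Q := Y) (M := M)
    (fun r hr => h.le r (h.YX (h.ZY hr))) h.free M
  have h4 : thr Z (fun r => M - r) M = Z.card := by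
    unfold thr
    rw [filter_true_of_mem fun r _ => Nat.sub_le M r]
  rw [h4] at h3
  have hcX : ct X m = (A.card : ℤ) := rfl
  have hcY : ct Y m = (B.card : ℤ) := rfl
  have hcS : ct (X + Y) M = (((X + Y).filter (fun r => r ≤ M)).card : ℤ) := rfl
  have hZY := ct_subset h.ZY m
  unfold dens at hd
  rw [hcX] at hd
  rw [hcY] at hZY ⊢
  rw [hcS] at h3
  have h2' : ((A + B).card : ℤ) ≤ (((X + Y).filter (fun r => r ≤ M)).card : ℤ) := by
    exact_mod_cast h2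
  have hpz : (p : ℤ) ≤ m := by exact_mod_cast hpm
  rcases h1 with h1 | h1
  · have h1' : (p : ℤ) + B.card ≤ (A + B).card := by exact_mod_cast h1
    linarith
  · have h1' : (A.card : ℤ) + 2 * B.card ≤ (A + B).card + 2 + (if p ∈ B then 1 else 0) := by
      exact_mod_cast h1
    have h5 : (if p ∈ B then (1 : ℤ) else 0) ≤ 1 := by split_ifs <;> omega
    linarith

/-- The averaged superadditivity for `Y` and `Z`. -/
theorem TD_byz (h : Nest M X Y Z) (T : ℕ) :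
    ∑ r ∈ Y, ((T + 1 - r : ℕ) : ℤ) + ∑ r ∈ Z, ((T + 1 - r : ℕ) : ℤ) +
      ∑ r ∈ X, (if M - r ≤ T then ((T : ℤ) + 1) else 0) ≤ (T + 1) * (T + 2) := by
  obtain ⟨h0X, h0Y, h0Z⟩ := nest_zero h
  have h1 : ∀ s ∈ range (T + 1), ct Y s + ct Z (T + 1 - 1 - s) +
      ∑ r ∈ X, (if M - r ≤ T then (1 : ℤ) else 0) ≤ (T : ℤ) + 2 := by
    intro s hs
    have hs' := mem_range.1 hs
    have a1 := superadd h0Y h0Z (a := s) (b := T + 1 - 1 - s) (t := T) (by omega)
    have a2 := pair_count (R := X) (P := Y) (Q := Z) (fun r hr => h.le r hr)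
      (fun p hp q hq r hr => by
        have := h.free r hr p hp q hq; omega) T
    rw [thr_eq_sum] at a2
    linarith
  have h2 := sum_le_sum h1
  rw [sum_add_distrib, sum_add_distrib, sum_ct, sum_ct_refl, sum_const, sum_const, card_range,
    nsmul_eq_mul, nsmul_eq_mul, mul_sum] at h2
  have h3 : ∑ r ∈ X, ((T + 1 : ℕ) : ℤ) * (if M - r ≤ T then (1 : ℤ) else 0) =
      ∑ r ∈ X, (if M - r ≤ T then ((T : ℤ) + 1) else 0) := by
    refine sum_congr rfl fun r _ => ?_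
    split_ifs
    · push_cast; ring
    · ring
  rw [h3] at h2
  push_cast at h2
  linarith

/-- The ballot inequality. -/
theorem ballot (A : ℤ) (P : Finset ℕ) : ∀ m : ℤ,
    (∀ g ∈ P, 2 * ((P.filter (fun x => g ≤ x)).card : ℤ) + g ≤ m) →
    48 * ∑ g ∈ P, max (12 * (g : ℤ) - A) 0 ≤ (12 * m - A - 12) ^ 2 := by
  induction P using Finset.induction_on_max with
  | empty => intro m _; simp; positivity
  | insert a s hs ih =>
    intro m hP
    have ha : a ∉ s := fun ha => lt_irrefl _ (hs a ha)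
    rw [sum_insert ha]
    have h1 : 2 + (a : ℤ) ≤ m := by
      have := hP a (mem_insert_self _ _)
      have hc : 1 ≤ ((insert a s).filter (fun x => a ≤ x)).card :=
        card_pos.2 ⟨a, mem_filter.2 ⟨mem_insert_self _ _, le_refl _⟩⟩
      have hc' : (1 : ℤ) ≤ (((insert a s).filter (fun x => a ≤ x)).card : ℤ) := by
        exact_mod_cast hc
      linarith
    by_cases hA : 12 * (a : ℤ) - A ≤ 0
    · have h2 : ∑ g ∈ s, max (12 * (g : ℤ) - A) 0 = 0 := by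
        refine sum_eq_zero fun g hg => ?_
        have := hs g hg
        have h3 : (g : ℤ) < a := by exact_mod_cast this
        exact max_eq_right (by linarith)
      rw [h2, max_eq_right hA]
      have := sq_nonneg (12 * m - A - 12)
      linarith
    · push Not at hA
      have h2 := ih (m - 2) fun g hg => by
        have h3 := hP g (mem_insert_of_mem hg)
        have h4 : ((insert a s).filter (fun x => g ≤ x)).card =
            (s.filter (fun x => g ≤ x)).card + 1 := by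
          rw [filter_insert, if_pos (hs g hg).le,
            card_insert_of_notMem fun hc => ha (mem_filter.1 hc).1]
        rw [h4] at h3
        push_cast at h3
        linarith
      rw [max_eq_left hA.le]
      nlinarith

/-- The density drops at the positions `g` with `M - g ∈ Y`. -/
theorem TD_drop (h : Nest M X Y Z) {m : ℕ} (hmM : m < M) (hd : 1 ≤ dens X Z m) :
    ∀ k g, g + k = m → 1 ≤ g →
      dens X Z m ≤ dens X Z g + k -
        2 * (((Ico (g + 1) (m + 1)).filter (fun x => M - x ∈ Y)).card : ℤ) := by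
  intro k
  induction k with
  | zero =>
    intro g hg _
    have : g = m := by omega
    subst this
    simp
  | succ k ih =>
    intro g hg hg1
    have h1 := ih (g + 1) (by omega) (by omega)
    rw [dens_succ] at h1
    have h2 : (((Ico (g + 1) (m + 1)).filter (fun x => M - x ∈ Y)).card : ℤ) =
        (((Ico (g + 1 + 1) (m + 1)).filter (fun x => M - x ∈ Y)).card : ℤ) +
          ind Y (M - (g + 1)) := by
      rw [card_filter, card_filter, sum_eq_sum_Ico_succ_bot (by omega : g + 1 < m + 1)]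
      unfold ind
      push_cast
      ring
    rw [h2]
    have hst := states h (g := g + 1) (by omega)
    have n1 := ind_nonneg X (g + 1)
    have n2 := ind_le_one X (g + 1)
    have n3 := ind_nonneg Z (g + 1)
    have n4 := ind_le_one Z (g + 1)
    have n5 := ind_nonneg Y (M - (g + 1))
    have n6 := ind_le_one Y (M - (g + 1))
    push_cast
    omega

/-- The ballot condition. -/
theorem TD_ballot (h : Nest M X Y Z) {m : ℕ} (hmM : m < M) (hd : 1 ≤ dens X Z m) (A : ℤ) :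
    48 * ∑ g ∈ Ico 1 (m + 1), (if M - g ∈ Y then max (12 * (g : ℤ) - A) 0 else 0) ≤
      (12 * (m : ℤ) - A - 12) ^ 2 := by
  rw [← sum_filter]
  refine ballot A _ m fun g hg => ?_
  rw [mem_filter, mem_Ico] at hg
  obtain ⟨⟨hg1, hgm⟩, hgY⟩ := hg
  have hdg : dens X Z g ≤ -1 := by
    by_contra hc
    obtain ⟨x, hx, z, hz, hxz⟩ := pigeon (by omega : 0 ≤ dens X Z g)
    exact h.free x hx (M - g) hgY z hz (by omega)
  have h1 := TD_drop h hmM hd (m - g) g (by omega) hg1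
  have h2 : (((((Ico 1 (m + 1)).filter (fun x => M - x ∈ Y)).filter (fun x => g ≤ x)).card : ℕ) : ℤ)
      = (((Ico (g + 1) (m + 1)).filter (fun x => M - x ∈ Y)).card : ℤ) + 1 := by
    have : ((Ico 1 (m + 1)).filter (fun x => M - x ∈ Y)).filter (fun x => g ≤ x) =
        insert g ((Ico (g + 1) (m + 1)).filter (fun x => M - x ∈ Y)) := by
      ext x
      rw [mem_filter, mem_filter, mem_Ico, mem_insert, mem_filter, mem_Ico]
      constructor
      · rintro ⟨⟨⟨a1, a2⟩, a3⟩, a4⟩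
        rcases Nat.eq_or_lt_of_le a4 with a5 | a5
        · exact Or.inl a5.symm
        · exact Or.inr ⟨⟨a5, a2⟩, a3⟩
      · rintro (a1 | ⟨⟨a1, a2⟩, a3⟩)
        · subst a1
          exact ⟨⟨⟨hg1, hgm⟩, hgY⟩, le_refl _⟩
        · exact ⟨⟨⟨by omega, a2⟩, a3⟩, by omega⟩
    rw [this, card_insert_of_notMem]
    · push_cast; ring
    · intro hc
      rw [mem_filter, mem_Ico] at hc
      omega
  rw [h2]
  have h3 : ((m - g : ℕ) : ℤ) = m - g := by omega
  rw [h3] at h1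
  linarith

/-- The value of a position. -/
theorem TD_pos {N e g T : ℕ} (hM : M + e = 2 * N) (he : e ≤ 1) (hN : 15 ≤ N) (hg1 : 1 ≤ g)
    (hgN : g < N) (p : ℕ) (τ Lb A : ℤ)
    (hT : ((T : ℤ) + 1 = N ∧ τ = 9 * N - 4 * e ∧ Lb = -6 * N - 4 * e ∧ A = 9 * N - 8 * e) ∨
      (e = 0 ∧ (T : ℤ) = N ∧ τ = 9 * N - 3 ∧ Lb = -6 * N - 6 ∧ A = 9 * N - 3))
    (x y z x' y' z' : ℤ)
    (hst : (x = 1 ∧ y = 1 ∧ z = 1 ∧ x' = 0 ∧ y' = 0 ∧ z' = 0) ∨
      (x = 0 ∧ y = 0 ∧ z = 0 ∧ x' = 1 ∧ y' = 1 ∧ z' = 1) ∨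
      (x = 1 ∧ y = 1 ∧ z = 0 ∧ x' = 0 ∧ y' = 0 ∧ z' = 0) ∨
      (x = 0 ∧ y = 0 ∧ z = 0 ∧ x' = 1 ∧ y' = 1 ∧ z' = 0) ∨
      (x = 1 ∧ y = 0 ∧ z = 0 ∧ x' = 1 ∧ y' = 0 ∧ z' = 0) ∨
      (x = 1 ∧ y = 0 ∧ z = 0 ∧ x' = 0 ∧ y' = 0 ∧ z' = 0) ∨
      (x = 0 ∧ y = 0 ∧ z = 0 ∧ x' = 1 ∧ y' = 0 ∧ z' = 0) ∨
      (x = 0 ∧ y = 0 ∧ z = 0 ∧ x' = 0 ∧ y' = 0 ∧ z' = 0))
    (hp : p < g → x = 0 ∧ y' = 0) :
    4 * ((x + y + z) * ((M : ℤ) - g) + (x' + y' + z') * g) + (if p < g then τ else 0) ≤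
      (x * (if M - g ≤ T then 6 * ((T : ℤ) + 1) else 0) +
        y * (6 * ((T + 1 - g : ℕ) : ℤ) + (if g ≤ N - 1 then τ else 0)) +
        z * (6 * ((T + 1 - g : ℕ) : ℤ) + τ) +
        x' * (if M - (M - g) ≤ T then 6 * ((T : ℤ) + 1) else 0) +
        y' * (6 * ((T + 1 - (M - g) : ℕ) : ℤ) + (if M - g ≤ N - 1 then τ else 0)) +
        z' * (6 * ((T + 1 - (M - g) : ℕ) : ℤ) + τ)) +
      8 * N * (3 - (x + y + z + x' + y' + z')) + Lb + y' * max (12 * (g : ℤ) - A) 0 := by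
  have hMz : (M : ℤ) = 2 * N - e := by omega
  have b3 : (g : ℤ) + 1 ≤ N := by exact_mod_cast hgN
  have b4 : (1 : ℤ) ≤ g := by exact_mod_cast hg1
  have b6 : (15 : ℤ) ≤ N := by exact_mod_cast hN
  have be : (e : ℤ) ≤ 1 := by exact_mod_cast he
  have be0 : (0 : ℤ) ≤ e := Int.natCast_nonneg _
  have c1 : ¬ M - g ≤ T := by omega
  have c2 : M - (M - g) ≤ T := by omega
  have c3 : g ≤ N - 1 := by omega
  have c4 : ¬ M - g ≤ N - 1 := by omega
  have c5 : ((T + 1 - g : ℕ) : ℤ) = (T : ℤ) + 1 - g := by omega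
  have c6 : ((T + 1 - (M - g) : ℕ) : ℤ) = 0 := by omega
  have c7 : 12 * (g : ℤ) - A ≤ max (12 * (g : ℤ) - A) 0 := le_max_left _ _
  have c8 : 0 ≤ max (12 * (g : ℤ) - A) 0 := le_max_right _ _
  rw [if_neg c1, if_pos c2, if_pos c3, if_neg c4, c5, c6, hMz]
  generalize max (12 * (g : ℤ) - A) 0 = E at *
  by_cases hpg : p < g
  · obtain ⟨hx, hy⟩ := hp hpg
    rw [if_pos hpg]
    rcases hT with ⟨t1, t2, t3, t4⟩ | ⟨t0, t1, t2, t3, t4⟩
    · have t1' : (T : ℤ) = N - 1 := by linarith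
      rw [t1', t2, t3]
      rw [t4] at c7
      clear t1 t1' t2 t3 t4 c5 c6 c1 c2 c3 c4
      rcases hst with ⟨h1, h2, h3, h4, h5, h6⟩ | ⟨h1, h2, h3, h4, h5, h6⟩ |
        ⟨h1, h2, h3, h4, h5, h6⟩ | ⟨h1, h2, h3, h4, h5, h6⟩ | ⟨h1, h2, h3, h4, h5, h6⟩ |
        ⟨h1, h2, h3, h4, h5, h6⟩ | ⟨h1, h2, h3, h4, h5, h6⟩ | ⟨h1, h2, h3, h4, h5, h6⟩
      all_goals first | (exfalso; omega) | (rw [h1, h2, h3, h4, h5, h6]; linarith)
    · rw [t0] at be be0 hMz ⊢
      rw [t1, t2, t3]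
      rw [t4] at c7
      clear t1 t2 t3 t4 c5 c6 c1 c2 c3 c4
      rcases hst with ⟨h1, h2, h3, h4, h5, h6⟩ | ⟨h1, h2, h3, h4, h5, h6⟩ |
        ⟨h1, h2, h3, h4, h5, h6⟩ | ⟨h1, h2, h3, h4, h5, h6⟩ | ⟨h1, h2, h3, h4, h5, h6⟩ |
        ⟨h1, h2, h3, h4, h5, h6⟩ | ⟨h1, h2, h3, h4, h5, h6⟩ | ⟨h1, h2, h3, h4, h5, h6⟩
      all_goals first | (exfalso; omega) | (rw [h1, h2, h3, h4, h5, h6]; push_cast; linarith)
  · rw [if_neg hpg]
    clear hp hpg
    rcases hT with ⟨t1, t2, t3, t4⟩ | ⟨t0, t1, t2, t3, t4⟩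
    · have t1' : (T : ℤ) = N - 1 := by linarith
      rw [t1', t2, t3]
      rw [t4] at c7
      clear t1 t1' t2 t3 t4 c5 c6 c1 c2 c3 c4
      rcases hst with ⟨h1, h2, h3, h4, h5, h6⟩ | ⟨h1, h2, h3, h4, h5, h6⟩ |
        ⟨h1, h2, h3, h4, h5, h6⟩ | ⟨h1, h2, h3, h4, h5, h6⟩ | ⟨h1, h2, h3, h4, h5, h6⟩ |
        ⟨h1, h2, h3, h4, h5, h6⟩ | ⟨h1, h2, h3, h4, h5, h6⟩ | ⟨h1, h2, h3, h4, h5, h6⟩
      all_goals rw [h1, h2, h3, h4, h5, h6]; linarith
    · rw [t0] at be be0 hMz ⊢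
      rw [t1, t2, t3]
      rw [t4] at c7
      clear t1 t2 t3 t4 c5 c6 c1 c2 c3 c4
      rcases hst with ⟨h1, h2, h3, h4, h5, h6⟩ | ⟨h1, h2, h3, h4, h5, h6⟩ |
        ⟨h1, h2, h3, h4, h5, h6⟩ | ⟨h1, h2, h3, h4, h5, h6⟩ | ⟨h1, h2, h3, h4, h5, h6⟩ |
        ⟨h1, h2, h3, h4, h5, h6⟩ | ⟨h1, h2, h3, h4, h5, h6⟩ | ⟨h1, h2, h3, h4, h5, h6⟩
      all_goals rw [h1, h2, h3, h4, h5, h6]; push_cast; linarith

theorem sum_split1 {N : ℕ} (F G : ℕ → ℤ) :
    ∑ g ∈ Ico 1 N, (4 * F g + G g) = 4 * ∑ g ∈ Ico 1 N, F g + ∑ g ∈ Ico 1 N, G g := by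
  rw [sum_add_distrib, ← mul_sum]

theorem sum_split2 {N : ℕ} (hN : 1 ≤ N) (F G H : ℕ → ℤ) (c L : ℤ) :
    ∑ g ∈ Ico 1 N, (F g + c * G g + L + H g) = ∑ g ∈ Ico 1 N, F g + c * ∑ g ∈ Ico 1 N, G g +
      (N - 1) * L + ∑ g ∈ Ico 1 N, H g := by
  rw [sum_add_distrib, sum_add_distrib, sum_add_distrib, ← mul_sum, sum_const, Nat.card_Ico,
    nsmul_eq_mul]
  have : ((N - 1 : ℕ) : ℤ) = N - 1 := by omega
  rw [this]

/-- The first moment in the regime (TD). -/
theorem TD_mom (h : Nest M X Y Z) {N e T : ℕ} (hM : M + e = 2 * N) (he : e ≤ 1) (hN : 15 ≤ N)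
    (hd : 1 ≤ dens X Z (N - 1)) (τ Lb A : ℤ)
    (hT : ((T : ℤ) + 1 = N ∧ τ = 9 * N - 4 * e ∧ Lb = -6 * N - 4 * e ∧ A = 9 * N - 8 * e) ∨
      (e = 0 ∧ (T : ℤ) = N ∧ τ = 9 * N - 3 ∧ Lb = -6 * N - 6 ∧ A = 9 * N - 3)) :
    ∃ E : ℤ, 48 * E ≤ (12 * ((N : ℤ) - 1) - A - 12) ^ 2 ∧
      4 * Q1 M X Y Z ≤ 12 * M + 4 * ((1 - e) * (ind X N * (M - N))) + 6 * T * (T + 1) +
        τ * (M - N) - (1 - e) * (ind X N * (if M - N ≤ T then 6 * ((T : ℤ) + 1) else 0)) +
        (N - 1) * Lb + 8 * N * ∑ g ∈ Ico 1 N, dd M X Y Z g + E := by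
  have hN1 : 1 ≤ N := by omega
  have hQ := Q1_eq h hM he hN1
  obtain ⟨p, hpX, hpm, hmax, htop⟩ := TD_top h (m := N - 1) (by omega) hd
  have hbyz := TD_byz h T
  have hbal := TD_ballot h (m := N - 1) (by omega) hd A
  rw [Nat.sub_add_cancel hN1] at hbal
  have hNm : ((N - 1 : ℕ) : ℤ) = N - 1 := by omega
  rw [hNm] at hbal
  refine ⟨_, hbal, ?_⟩
  -- the density above `p`
  have hdens : ∀ g, p < g → g < N → 0 ≤ dens X Z g := by
    intro g hpg hgN
    have hgap : ∀ x ∈ X, g < x → N - 1 < x := fun x hx hgx => by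
      by_contra hc
      have := hmax x hx (by omega)
      omega
    have h1 : ct X (N - 1) = ct X g := ct_gap (by omega) hgap
    have h2 : ct Z (N - 1) = ct Z g := ct_gap (by omega) fun x hx => hgap x (h.YX (h.ZY hx))
    unfold dens at hd ⊢
    rw [h1, h2, hNm] at hd
    have : (g : ℤ) + 1 ≤ N := by exact_mod_cast hgN
    linarith
  -- coefficients
  have hcoef : ∑ r ∈ X, (if M - r ≤ T then 6 * ((T : ℤ) + 1) else 0) +
      ∑ r ∈ Y, (6 * ((T + 1 - r : ℕ) : ℤ) + (if r ≤ N - 1 then τ else 0)) +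
      ∑ r ∈ Z, (6 * ((T + 1 - r : ℕ) : ℤ) + τ) ≤
      6 * ((T + 1) * (T + 2)) + τ * (M + 1 - p) := by
    rw [sum_add_distrib, sum_add_distrib, ← mul_sum, ← mul_sum, sum_const, nsmul_eq_mul]
    have h1 : ∑ r ∈ X, (if M - r ≤ T then 6 * ((T : ℤ) + 1) else 0) =
        6 * ∑ r ∈ X, (if M - r ≤ T then ((T : ℤ) + 1) else 0) := by
      rw [mul_sum]
      refine sum_congr rfl fun r _ => ?_
      split_ifs <;> ring
    have h2 : ∑ r ∈ Y, (if r ≤ N - 1 then τ else 0) = τ * ct Y (N - 1) := by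
      rw [ct_eq_sum, mul_sum]
      refine sum_congr rfl fun r _ => ?_
      split_ifs <;> ring
    rw [h1, h2]
    have hτ : 0 ≤ τ := by
      have b6 : (15 : ℤ) ≤ N := by exact_mod_cast hN
      have be : (e : ℤ) ≤ 1 := by exact_mod_cast he
      rcases hT with ⟨t1, t2, t3, t4⟩ | ⟨t0, t1, t2, t3, t4⟩ <;> rw [t2] <;> linarith
    have h3 : τ * ((Z.card : ℤ) + p + ct Y (N - 1)) ≤ τ * (M + 1) :=
      mul_le_mul_of_nonneg_left htop hτ
    linarith
  rw [lagr h hM he hN1 (fun r => if M - r ≤ T then 6 * ((T : ℤ) + 1) else 0)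
    (fun r => 6 * ((T + 1 - r : ℕ) : ℤ) + (if r ≤ N - 1 then τ else 0))
    (fun r => 6 * ((T + 1 - r : ℕ) : ℤ) + τ)] at hcoef
  have hz0 : ((T + 1 - 0 : ℕ) : ℤ) = T + 1 := by omega
  have hM0 : ¬ M - 0 ≤ T := by omega
  rw [if_neg hM0, hz0, if_pos (Nat.zero_le _)] at hcoef
  have hpos : ∑ g ∈ Ico 1 N, (4 * ((ind X g + ind Y g + ind Z g) * ((M : ℤ) - g) +
        (ind X (M - g) + ind Y (M - g) + ind Z (M - g)) * g) + (if p < g then τ else 0)) ≤
      ∑ g ∈ Ico 1 N, ((ind X g * (if M - g ≤ T then 6 * ((T : ℤ) + 1) else 0) +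
        ind Y g * (6 * ((T + 1 - g : ℕ) : ℤ) + (if g ≤ N - 1 then τ else 0)) +
        ind Z g * (6 * ((T + 1 - g : ℕ) : ℤ) + τ) +
        ind X (M - g) * (if M - (M - g) ≤ T then 6 * ((T : ℤ) + 1) else 0) +
        ind Y (M - g) * (6 * ((T + 1 - (M - g) : ℕ) : ℤ) + (if M - g ≤ N - 1 then τ else 0)) +
        ind Z (M - g) * (6 * ((T + 1 - (M - g) : ℕ) : ℤ) + τ)) +
      8 * N * dd M X Y Z g + Lb +
      (if M - g ∈ Y then max (12 * (g : ℤ) - A) 0 else 0)) := by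
    refine sum_le_sum fun g hg => ?_
    rw [mem_Ico] at hg
    have hst := st8 h (g := g) (by omega)
    have h1 := TD_pos hM he hN hg.1 hg.2 p τ Lb A hT _ _ _ _ _ _ hst (fun hpg => by
      constructor
      · exact ind_of_not_mem fun hx => by
          have := hmax g hx (by omega)
          omega
      · refine ind_of_not_mem fun hy => ?_
        obtain ⟨x, hx, z, hz, hxz⟩ := pigeon (hdens g hpg hg.2)
        exact h.free x hx (M - g) hy z hz (by omega))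
    have h2 : ind Y (M - g) * max (12 * (g : ℤ) - A) 0 =
        (if M - g ∈ Y then max (12 * (g : ℤ) - A) 0 else 0) := by
      unfold ind
      split_ifs <;> ring
    rw [h2] at h1
    unfold dd
    linarith
  rw [sum_split1, sum_split2 hN1] at hpos
  have hτs : ∑ g ∈ Ico 1 N, (if p < g then τ else 0) = τ * ((N : ℤ) - 1 - p) := by
    rw [← sum_filter, sum_const, nsmul_eq_mul]
    have : (Ico 1 N).filter (fun g => p < g) = Ico (p + 1) N := by
      ext x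
      rw [mem_filter, mem_Ico, mem_Ico]
      omega
    rw [this, Nat.card_Ico]
    have : ((N - (p + 1) : ℕ) : ℤ) = (N : ℤ) - 1 - p := by omega
    rw [this]
    ring
  rw [hτs] at hpos
  rw [hQ]
  have hMNz : (M : ℤ) + e = 2 * N := by exact_mod_cast hM
  generalize ∑ g ∈ Ico 1 N, dd M X Y Z g = D at *
  generalize ∑ g ∈ Ico 1 N, (if M - g ∈ Y then max (12 * (g : ℤ) - A) 0 else 0) = E at *
  generalize ∑ g ∈ Ico 1 N, ((ind X g + ind Y g + ind Z g) * ((M : ℤ) - g) +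
        (ind X (M - g) + ind Y (M - g) + ind Z (M - g)) * g) = S at *
  generalize ∑ g ∈ Ico 1 N, (ind X g * (if M - g ≤ T then 6 * ((T : ℤ) + 1) else 0) +
        ind Y g * (6 * ((T + 1 - g : ℕ) : ℤ) + (if g ≤ N - 1 then τ else 0)) +
        ind Z g * (6 * ((T + 1 - g : ℕ) : ℤ) + τ) +
        ind X (M - g) * (if M - (M - g) ≤ T then 6 * ((T : ℤ) + 1) else 0) +
        ind Y (M - g) * (6 * ((T + 1 - (M - g) : ℕ) : ℤ) + (if M - g ≤ N - 1 then τ else 0)) +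
        ind Z (M - g) * (6 * ((T + 1 - (M - g) : ℕ) : ℤ) + τ)) = S2 at *
  generalize (1 - (e : ℤ)) * (ind X N * (if M - N ≤ T then 6 * ((T : ℤ) + 1) else 0)) = F at *
  generalize (1 - (e : ℤ)) * (ind X N * ((M : ℤ) - N)) = F2 at *
  linarith

/-- **Regime (TD).** -/
theorem T2_TD (h : Nest M X Y Z) {N e : ℕ} (hM : M + e = 2 * N) (he : e ≤ 1) (hN : 15 ≤ N)
    (hd : 1 ≤ dens X Z (N - 1)) : T2 M X Y Z := by
  have hN1 : 1 ≤ N := by omega
  have hU := U2_eq h hM he hN1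
  have b6 : (15 : ℤ) ≤ N := by exact_mod_cast hN
  unfold T2
  interval_cases e
  · -- `M` even
    have hMz : (M : ℤ) = 2 * N := by omega
    by_cases hf : N ∈ X
    · obtain ⟨E, hE, hQ⟩ := TD_mom h hM he hN hd (9 * N - 3) (-6 * N - 6) (9 * N - 3) (T := N)
        (Or.inr ⟨rfl, rfl, rfl, rfl, rfl⟩)
      rw [if_pos (by omega : M - N ≤ N)] at hQ
      rw [ind_of_mem hf] at hQ hU
      push_cast at hU hQ
      generalize ∑ g ∈ Ico 1 N, dd M X Y Z g = D at *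
      generalize U2 M X Y Z = U at *
      generalize Q1 M X Y Z = Q at *
      rw [hMz] at hQ ⊢
      have hU' : U = 2 * D + 1 := by linarith
      rw [hU']
      generalize (N : ℤ) = n at *
      nlinarith [sq_nonneg (32 * D - 13 * n + 62)]
    · obtain ⟨E, hE, hQ⟩ := TD_mom h hM he hN hd (9 * N - 4 * (0 : ℕ)) (-6 * N - 4 * (0 : ℕ))
        (9 * N - 8 * (0 : ℕ)) (T := N - 1) (Or.inl ⟨by omega, rfl, rfl, rfl⟩)
      have hNm : ((N - 1 : ℕ) : ℤ) = N - 1 := by omega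
      rw [ind_of_not_mem hf] at hQ hU
      rw [hNm] at hQ
      push_cast at hU hQ hE
      generalize ∑ g ∈ Ico 1 N, dd M X Y Z g = D at *
      generalize U2 M X Y Z = U at *
      generalize Q1 M X Y Z = Q at *
      rw [hMz] at hQ ⊢
      have hU' : U = 2 * D + 3 := by linarith
      rw [hU']
      generalize (N : ℤ) = n at *
      nlinarith [sq_nonneg (32 * D - 13 * n + 94)]
  · have hMz : (M : ℤ) = 2 * N - 1 := by omega
    obtain ⟨E, hE, hQ⟩ := TD_mom h hM he hN hd (9 * N - 4 * (1 : ℕ)) (-6 * N - 4 * (1 : ℕ))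
        (9 * N - 8 * (1 : ℕ)) (T := N - 1) (Or.inl ⟨by omega, rfl, rfl, rfl⟩)
    have hNm : ((N - 1 : ℕ) : ℤ) = N - 1 := by omega
    rw [hNm] at hQ
    push_cast at hU hQ hE
    generalize ∑ g ∈ Ico 1 N, dd M X Y Z g = D at *
    generalize U2 M X Y Z = U at *
    generalize Q1 M X Y Z = Q at *
    rw [hMz] at hQ ⊢
    have hU' : U = 2 * D := by linarith
    rw [hU']
    generalize (N : ℤ) = n at *
    nlinarith [sq_nonneg (32 * D - 13 * n + 39)]

end Pool.Agent.LibA338c1g
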