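import Pool.Agent.Lib_MP_a338c1_g.Far
import Pool.Agent.Lib_MP_a338c1_g.RegTD

/-!
# The far case
-/

namespace Pool.Agent.LibA338c1g

open Pool.Agent.LibA338c1f (Nest T2 FarStatement)

/-- The inequality `T2` for all nested triples of the far case. -/
theorem far : FarStatement :=
  far_of_TD fun _ _ _ _ h _ _ hM he hN _ hd => T2_TD h hM he hN hd

end Pool.Agent.LibA338c1g
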