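import Pool.Agent.Lib_MP_a338c1_g.States

/-!
# The generic far regime: sums and the inequality
-/

open Finset
open scoped Pointwise

namespace Pool.Agent.LibA338c1g

open Pool.Agent.LibA338c1f (Nest T2 U2 Q1)

/-- The potential. -/
def h8 (B x : ℤ) : ℤ := if B ≤ 2 * x then (2 * x - B) ^ 2 else 0

theorem h8_nonneg (B x : ℤ) : 0 ≤ h8 B x := by
  unfold h8
  split_ifs
  · positivity
  · exact le_refl _

theorem h8_le (B x : ℤ) : h8 B x ≤ (2 * x - B) ^ 2 := by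
  unfold h8
  split_ifs
  · exact le_refl _
  · positivity

theorem h8_step {B : ℤ} (hB : 0 ≤ B) (x : ℤ) : 8 * B * max x 0 ≤ h8 B (x + B) - h8 B x := by
  rcases le_or_gt x 0 with hx | hx
  · rw [max_eq_right hx]
    have h1 := h8_nonneg B (x + B)
    rcases lt_or_ge (2 * x) B with h2 | h2
    · have : h8 B x = 0 := by unfold h8; rw [if_neg (by linarith)]
      rw [this]; linarith
    · have hB0 : B = 0 := by linarith
      have hx0 : x = 0 := by linarith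
      subst hB0 hx0
      simp
  · rw [max_eq_left hx.le]
    have h1 : h8 B (x + B) = (2 * (x + B) - B) ^ 2 := by unfold h8; rw [if_pos (by linarith)]
    rw [h1]
    unfold h8
    split_ifs with h2
    · nlinarith
    · nlinarith [sq_nonneg (2 * x - B)]

/-- Sums of positive parts over multiples. -/
theorem sum_pp {c b d : ℕ} (hbd : b ≤ d) (hd : 1 ≤ d) (A : ℤ) {s n : ℕ} (hsn : s + 1 ≤ n) :
    8 * ((c : ℤ) * b) * ∑ g ∈ Ico (s + 1) n, (if d ∣ g then max (A - c * (g : ℤ)) 0 else 0) ≤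
      h8 ((c : ℤ) * b) (A - (c : ℤ) * b * ((s / d : ℕ) : ℤ)) -
        h8 ((c : ℤ) * b) (A - (c : ℤ) * b * (((n - 1) / d : ℕ) : ℤ)) := by
  have hB : (0 : ℤ) ≤ (c : ℤ) * b := by positivity
  induction n, hsn using Nat.le_induction with
  | base => simp
  | succ n hn ih =>
    rw [sum_Ico_succ_top hn, mul_add]
    rw [Nat.add_sub_cancel]
    by_cases hdn : d ∣ n
    · rw [if_pos hdn]
      obtain ⟨j, hj⟩ := hdn
      have hj1 : 1 ≤ j := by
        rcases Nat.eq_zero_or_pos j with h0 | h0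
        · rw [h0] at hj; omega
        · exact h0
      have e1 : n / d = j := by rw [hj]; exact Nat.mul_div_cancel_left j hd
      have e2 : (n - 1) / d = j - 1 := by
        obtain ⟨k, rfl⟩ : ∃ k, j = k + 1 := ⟨j - 1, by omega⟩
        rw [Nat.add_sub_cancel]
        have : n - 1 = d * k + (d - 1) := by
          rw [hj, Nat.mul_add]
          omega
        rw [this, Nat.mul_add_div hd, Nat.div_eq_of_lt (by omega : d - 1 < d), add_zero]
      rw [e1]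
      rw [e2] at ih
      have hst := h8_step hB (A - (c : ℤ) * b * (j : ℤ))
      have e3 : A - (c : ℤ) * b * (j : ℤ) + (c : ℤ) * b = A - (c : ℤ) * b * ((j - 1 : ℕ) : ℤ) := by
        push_cast [Nat.cast_sub hj1]
        ring
      rw [e3] at hst
      have hmax : max (A - (c : ℤ) * (n : ℤ)) 0 ≤ max (A - (c : ℤ) * b * (j : ℤ)) 0 := by
        refine max_le_max ?_ (le_refl _)
        have h1 : (b : ℤ) * j ≤ d * j := by
          have : b * j ≤ d * j := Nat.mul_le_mul_right _ hbd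
          exact_mod_cast this
        have h2 : (n : ℤ) = d * j := by rw [hj]; push_cast; ring
        rw [h2]
        have h3 : (c : ℤ) * (b * j) ≤ c * (d * j) :=
          mul_le_mul_of_nonneg_left h1 (Int.natCast_nonneg _)
        linarith
      have hm := mul_le_mul_of_nonneg_left hmax (by linarith : 0 ≤ 8 * ((c : ℤ) * b))
      linarith
    · rw [if_neg hdn, mul_zero, add_zero]
      have e1 : n / d = (n - 1) / d := by
        have h1 : n = (n - 1) + 1 := by omega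
        conv_lhs => rw [h1]
        rw [Nat.succ_div, if_neg (by rw [← h1]; exact hdn), add_zero]
      rw [e1]
      exact ih

/-- The extra cost of low positions. -/
def Eg (d w g : ℕ) : ℤ :=
  (if d ∣ g then max (4 * (w : ℤ) - 6 - (4 : ℕ) * (g : ℤ)) 0 else 0) +
    (if d ∣ g then max (4 * (w : ℤ) + 2 - (8 : ℕ) * (g : ℤ)) 0 else 0)

theorem Eg_nonneg (d w g : ℕ) : 0 ≤ Eg d w g := by
  unfold Eg
  split_ifs
  · have h1 := le_max_right (4 * (w : ℤ) - 6 - (4 : ℕ) * (g : ℤ)) 0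
    have h2 := le_max_right (4 * (w : ℤ) + 2 - (8 : ℕ) * (g : ℤ)) 0
    linarith
  · simp

theorem Eg_ge {d w g : ℕ} (h : d ∣ g) : 4 * (w : ℤ) - 6 - 4 * g ≤ Eg d w g ∧
    8 * (w : ℤ) - 4 - 12 * g ≤ Eg d w g := by
  unfold Eg
  rw [if_pos h, if_pos h]
  have h1 := le_max_right (4 * (w : ℤ) - 6 - (4 : ℕ) * (g : ℤ)) 0
  have h2 := le_max_right (4 * (w : ℤ) + 2 - (8 : ℕ) * (g : ℤ)) 0
  have h3 := le_max_left (4 * (w : ℤ) - 6 - (4 : ℕ) * (g : ℤ)) 0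
  have h4 := le_max_left (4 * (w : ℤ) + 2 - (8 : ℕ) * (g : ℤ)) 0
  push_cast at *
  constructor <;> linarith

/-- The total extra cost. -/
theorem Eg_sum {d b w : ℕ} (hbd : b ≤ d) (hd : 1 ≤ d) (hw : 1 ≤ w) :
    ∃ E1 E2 : ℤ, ∑ g ∈ Ico 1 w, Eg d w g = E1 + E2 ∧
      32 * b * E1 ≤ (8 * (w : ℤ) - 12 - 4 * b) ^ 2 ∧
      64 * b * E2 ≤ (8 * (w : ℤ) + 4 - 8 * b) ^ 2 := by
  refine ⟨∑ g ∈ Ico (0 + 1) w, (if d ∣ g then max (4 * (w : ℤ) - 6 - (4 : ℕ) * (g : ℤ)) 0 else 0),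
    ∑ g ∈ Ico (0 + 1) w, (if d ∣ g then max (4 * (w : ℤ) + 2 - (8 : ℕ) * (g : ℤ)) 0 else 0), ?_, ?_, ?_⟩
  · rw [← sum_add_distrib]
    rfl
  · have h1 := sum_pp (c := 4) hbd hd (4 * (w : ℤ) - 6) (s := 0) (n := w) (by omega)
    have h2 := h8_nonneg (((4 : ℕ) : ℤ) * b) (4 * (w : ℤ) - 6 - ((4 : ℕ) : ℤ) * b * (((w - 1) / d : ℕ) : ℤ))
    have h3 := h8_le (((4 : ℕ) : ℤ) * b) (4 * (w : ℤ) - 6 - ((4 : ℕ) : ℤ) * b * ((0 / d : ℕ) : ℤ))
    have h4 : (2 * (4 * (w : ℤ) - 6 - ((4 : ℕ) : ℤ) * b * ((0 / d : ℕ) : ℤ)) - ((4 : ℕ) : ℤ) * b) ^ 2 =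
        (8 * (w : ℤ) - 12 - 4 * b) ^ 2 := by
      rw [Nat.zero_div]; push_cast; ring
    rw [h4] at h3
    have h5 : 32 * (b : ℤ) * ∑ g ∈ Ico (0 + 1) w,
        (if d ∣ g then max (4 * (w : ℤ) - 6 - (4 : ℕ) * (g : ℤ)) 0 else 0) =
        8 * (((4 : ℕ) : ℤ) * b) * ∑ g ∈ Ico (0 + 1) w,
        (if d ∣ g then max (4 * (w : ℤ) - 6 - (4 : ℕ) * (g : ℤ)) 0 else 0) := by
      push_cast; ring
    rw [h5]
    linarith
  · have h1 := sum_pp (c := 8) hbd hd (4 * (w : ℤ) + 2) (s := 0) (n := w) (by omega)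
    have h2 := h8_nonneg (((8 : ℕ) : ℤ) * b) (4 * (w : ℤ) + 2 - ((8 : ℕ) : ℤ) * b * (((w - 1) / d : ℕ) : ℤ))
    have h3 := h8_le (((8 : ℕ) : ℤ) * b) (4 * (w : ℤ) + 2 - ((8 : ℕ) : ℤ) * b * ((0 / d : ℕ) : ℤ))
    have h4 : (2 * (4 * (w : ℤ) + 2 - ((8 : ℕ) : ℤ) * b * ((0 / d : ℕ) : ℤ)) - ((8 : ℕ) : ℤ) * b) ^ 2 =
        (8 * (w : ℤ) + 4 - 8 * b) ^ 2 := by
      rw [Nat.zero_div]; push_cast; ring
    rw [h4] at h3
    have h5 : 64 * (b : ℤ) * ∑ g ∈ Ico (0 + 1) w,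
        (if d ∣ g then max (4 * (w : ℤ) + 2 - (8 : ℕ) * (g : ℤ)) 0 else 0) =
        8 * (((8 : ℕ) : ℤ) * b) * ∑ g ∈ Ico (0 + 1) w,
        (if d ∣ g then max (4 * (w : ℤ) + 2 - (8 : ℕ) * (g : ℤ)) 0 else 0) := by
      push_cast; ring
    rw [h5]
    linarith

/-- The total of the upper positive parts. -/
theorem U_sum (A : ℤ) {w N : ℕ} (hw : 1 ≤ w) (hwN : w ≤ N) :
    48 * ∑ g ∈ Ico w N, max (A - 6 * (g : ℤ)) 0 ≤ (2 * A - 12 * w + 6) ^ 2 := by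
  have h1 := sum_pp (c := 6) (b := 1) (le_refl 1) (le_refl 1) A (s := w - 1) (n := N) (by omega)
  simp only [one_dvd, if_true, Nat.div_one] at h1
  have hw' : w - 1 + 1 = w := by omega
  rw [hw'] at h1
  have h2 := h8_nonneg (((6 : ℕ) : ℤ) * ((1 : ℕ) : ℤ)) (A - ((6 : ℕ) : ℤ) * ((1 : ℕ) : ℤ) * (((N - 1) : ℕ) : ℤ))
  have h3 := h8_le (((6 : ℕ) : ℤ) * ((1 : ℕ) : ℤ)) (A - ((6 : ℕ) : ℤ) * ((1 : ℕ) : ℤ) * (((w - 1) : ℕ) : ℤ))
  have h4 : (2 * (A - ((6 : ℕ) : ℤ) * ((1 : ℕ) : ℤ) * (((w - 1) : ℕ) : ℤ)) -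
      ((6 : ℕ) : ℤ) * ((1 : ℕ) : ℤ)) ^ 2 = (2 * A - 12 * w + 6) ^ 2 := by
    push_cast [Nat.cast_sub hw]
    ring
  rw [h4] at h3
  have h5 : 48 * ∑ g ∈ Ico w N, max (A - 6 * (g : ℤ)) 0 = 8 * (((6 : ℕ) : ℤ) * ((1 : ℕ) : ℤ)) *
      ∑ g ∈ Ico w N, max (A - ((6 : ℕ) : ℤ) * (g : ℤ)) 0 := by
    push_cast; ring
  rw [h5]
  linarith

/-! ### The bound of the objective -/

variable {M : ℕ} {X Y Z : Finset ℕ}

/-- The sum of linear terms. -/
theorem sum_lin (a b : ℤ) {m n : ℕ} (hmn : m ≤ n) :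
    2 * ∑ g ∈ Ico m n, (a * (g : ℤ) + b) = a * ((n : ℤ) * (n - 1) - m * (m - 1)) +
      2 * b * (n - m) := by
  induction n, hmn using Nat.le_induction with
  | base => simp
  | succ n hn ih =>
    rw [sum_Ico_succ_top hn, mul_add, ih]
    push_cast
    ring

/-- The bound of the objective from bounds of the positions. -/
theorem objective (h : Nest M X Y Z) {N e w d : ℕ} (hM : M + e = 2 * N) (he : e ≤ 1)
    (hw : w ∈ X) (hw0 : 1 ≤ w) (hwN : w < N)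
    (hd : ∀ x ∈ X, x < w → d ∣ x) (hdw : ¬ d ∣ w)
    (hF : 6 * (e : ℤ) * (N + 1) ≤ 6 * e * (ct X (N - 1) + ct Y (N - 1) + ct Z (N - 1)))
    {P0 Bud μ U : ℤ} {K Uf : ℕ → ℤ}
    (hR : 4 * ∑ s ∈ Ico w N, Tg X Y Z s ≤ 2 * ∑ t ∈ Ico (2 * w) (2 * N), Cc X Y Z t +
      ∑ g ∈ Ico w N, (pay X Z w K g + pay0 M X P0 g) + 12 * (1 - (1 - e) * ind X N) + Bud)
    (hK : ∀ g, w ≤ g → 0 ≤ 12 * ((g : ℤ) - w) + K g)
    (hlo : ∀ g, 1 ≤ g → g < w → d ∣ g →
      (kX M N w e g ≤ 16 * (g : ℤ) + 2 * w - 12 * N + U + Eg d w g + 2 * μ ∧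
      kX M N w e g + kX M N w e (M - g) ≤ 16 * (g : ℤ) + 2 * w - 12 * N + U + Eg d w g + μ ∧
      kX M N w e g + kY M N w e g ≤ 16 * (g : ℤ) + 2 * w - 12 * N + U + Eg d w g + μ ∧
      kX M N w e g + kY M N w e g + kZ M N w e g ≤
        16 * (g : ℤ) + 2 * w - 12 * N + U + Eg d w g))
    (hlo0 : ∀ g, 1 ≤ g → g < w →
      (0 ≤ 16 * (g : ℤ) + 2 * w - 12 * N + U + 3 * μ ∧
      kX M N w e (M - g) ≤ 16 * (g : ℤ) + 2 * w - 12 * N + U + 2 * μ ∧
      kX M N w e (M - g) + kY M N w e (M - g) ≤ 16 * (g : ℤ) + 2 * w - 12 * N + U + μ ∧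
      kX M N w e (M - g) + kY M N w e (M - g) + kZ M N w e (M - g) ≤
        16 * (g : ℤ) + 2 * w - 12 * N + U))
    (hhi : ∀ g, w ≤ g → g < N →
      (kX M N w e g ≤ 18 * (g : ℤ) - 12 * N + Uf g + 2 * μ ∧
        kX M N w e g + kX M N w e (M - g) ≤ 18 * (g : ℤ) - 12 * N + Uf g + μ ∧
        kX M N w e g + kY M N w e g ≤ 18 * (g : ℤ) - 12 * N + Uf g + μ ∧
        kX M N w e g + kY M N w e g + kZ M N w e g ≤ 18 * (g : ℤ) - 12 * N + Uf g) ∧
      0 + (12 * ((g : ℤ) - w) + K g) + P0 ≤ 18 * (g : ℤ) - 12 * N + Uf g + 3 * μ ∧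
      kX M N w e (M - g) + (12 * ((g : ℤ) - w) + K g) ≤ 18 * (g : ℤ) - 12 * N + Uf g + 2 * μ ∧
      kX M N w e (M - g) + kY M N w e (M - g) ≤ 18 * (g : ℤ) - 12 * N + Uf g + μ ∧
      kX M N w e (M - g) + kY M N w e (M - g) + kZ M N w e (M - g) ≤
        18 * (g : ℤ) - 12 * N + Uf g) :
    4 * Q1 M X Y Z ≤ 9 * (N : ℤ) ^ 2 + 21 * N - 6 * w - 6 * e * (N + 1) +
      (1 - e) * (ind X N * (4 * N)) + 12 * (1 - (1 - e) * ind X N) + Bud + (w - 1) * U +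
      ∑ g ∈ Ico w N, Uf g + ∑ g ∈ Ico 1 w, Eg d w g + μ * ∑ g ∈ Ico 1 N, dd M X Y Z g := by
  have hmas := master h (by omega : 1 ≤ N) hw hw0 hwN.le hd hdw hF (e := e)
    (R := ∑ g ∈ Ico w N, (pay X Z w K g + pay0 M X P0 g) + 12 * (1 - (1 - e) * ind X N) + Bud)
    (by linarith)
  have hlag := lagr h hM he (by omega : 1 ≤ N) (kX M N w e) (kY M N w e) (kZ M N w e)
  obtain ⟨hv0, hvN⟩ := val_end hM he hwN hw0
  set V : ℕ → ℤ := fun g => ind X g * kX M N w e g + ind Y g * kY M N w e g +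
    ind Z g * kZ M N w e g + ind X (M - g) * kX M N w e (M - g) +
    ind Y (M - g) * kY M N w e (M - g) + ind Z (M - g) * kZ M N w e (M - g) with hV
  have hs1 : ∑ g ∈ Ico 1 w, V g ≤ ∑ g ∈ Ico 1 w, (16 * (g : ℤ) + (2 * w - 12 * N + U) +
      Eg d w g + μ * dd M X Y Z g) := by
    refine sum_le_sum fun g hg => ?_
    rw [mem_Ico] at hg
    have hE0 := Eg_nonneg d w g
    have := pos_lo h (by omega : g < M) (cX := kX M N w e g) (cY := kY M N w e g)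
      (cZ := kZ M N w e g) (cX' := kX M N w e (M - g)) (cY' := kY M N w e (M - g))
      (cZ' := kZ M N w e (M - g)) (B := 16 * (g : ℤ) + 2 * w - 12 * N + U)
      (E := Eg d w g) (μ := μ) hE0 (fun hgX => hlo g hg.1 hg.2 (hd g hgX hg.2))
      (hlo0 g hg.1 hg.2)
    simp only [hV]
    linarith
  have hs2 : ∑ g ∈ Ico w N, (V g + (pay X Z w K g + pay0 M X P0 g)) ≤
      ∑ g ∈ Ico w N, (18 * (g : ℤ) + (-12 * N) + Uf g + μ * dd M X Y Z g) := by
    refine sum_le_sum fun g hg => ?_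
    rw [mem_Ico] at hg
    have := pos_hi h (by omega : g < M) (w := w) (cX := kX M N w e g) (cY := kY M N w e g)
      (cZ := kZ M N w e g) (cX' := kX M N w e (M - g)) (cY' := kY M N w e (M - g))
      (cZ' := kZ M N w e (M - g)) (B := 18 * (g : ℤ) - 12 * N + Uf g)
      (μ := μ) (P0 := P0) (K := K) (hK g hg.1) (hhi g hg.1 hg.2)
    simp only [hV]
    linarith
  have e1 : ∑ g ∈ Ico 1 w, (16 * (g : ℤ) + (2 * w - 12 * N + U) +
      Eg d w g + μ * dd M X Y Z g) = ∑ g ∈ Ico 1 w, (16 * (g : ℤ) + (2 * w - 12 * N + U)) +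
      ∑ g ∈ Ico 1 w, Eg d w g + μ * ∑ g ∈ Ico 1 w, dd M X Y Z g := by
    rw [sum_add_distrib, sum_add_distrib, mul_sum]
  have e2 : ∑ g ∈ Ico w N, (18 * (g : ℤ) + (-12 * N) + Uf g + μ * dd M X Y Z g) =
      ∑ g ∈ Ico w N, (18 * (g : ℤ) + (-12 * N)) + ∑ g ∈ Ico w N, Uf g +
      μ * ∑ g ∈ Ico w N, dd M X Y Z g := by
    rw [sum_add_distrib, sum_add_distrib, mul_sum]
  have e3 : ∑ g ∈ Ico w N, (V g + (pay X Z w K g + pay0 M X P0 g)) =
      ∑ g ∈ Ico w N, V g + ∑ g ∈ Ico w N, (pay X Z w K g + pay0 M X P0 g) := sum_add_distrib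
  rw [e1] at hs1
  rw [e2, e3] at hs2
  have hl1 := sum_lin 16 (2 * w - 12 * N + U) hw0
  have hl2 := sum_lin 18 (-12 * (N : ℤ)) hwN.le
  have hsV : ∑ g ∈ Ico 1 N, V g = ∑ g ∈ Ico 1 w, V g + ∑ g ∈ Ico w N, V g :=
    (sum_Ico_consecutive _ hw0 hwN.le).symm
  have hsD : ∑ g ∈ Ico 1 N, dd M X Y Z g = ∑ g ∈ Ico 1 w, dd M X Y Z g +
      ∑ g ∈ Ico w N, dd M X Y Z g := (sum_Ico_consecutive _ hw0 hwN.le).symm
  have hlag' : ∑ r ∈ X, kX M N w e r + ∑ r ∈ Y, kY M N w e r + ∑ r ∈ Z, kZ M N w e r =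
      -12 * (N : ℤ) + 10 * w + (1 - (e : ℤ)) * (ind X N * kX M N w e N) +
      (∑ g ∈ Ico 1 w, V g + ∑ g ∈ Ico w N, V g) := by
    rw [hlag, hv0, ← hsV]
  rw [hlag'] at hmas
  rw [hsD]
  have hN4 : (1 - (e : ℤ)) * (ind X N * kX M N w e N) = (1 - e) * (ind X N * (4 * N)) := by
    rcases Nat.eq_zero_or_pos e with h0 | h0
    · rw [hvN h0]
    · have : e = 1 := by omega
      rw [this]; push_cast; ring
  rw [hN4] at hmas
  push_cast at hl1
  nlinarith [hmas, hs1, hs2, hl1, hl2]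

/-! ### Polynomial inequalities -/

theorem core_c {D c F0 : ℤ} (hD : 0 ≤ D) (a : ℤ)
    (ha : 0 < a) (h1 : c ≤ 0 → 0 < F0) (h2 : 0 < c → a * c ^ 2 < 512 * F0) :
    0 < F0 - a * (D * c) + a * 128 * D ^ 2 := by
  rcases le_or_gt c 0 with h | h
  · have := h1 h
    have h3 : 0 ≤ a * (D * (-c)) := mul_nonneg ha.le (mul_nonneg hD (by linarith))
    have h4 : 0 ≤ a * 128 * D ^ 2 := by positivity
    linarith
  · have := h2 h
    have h3 : 0 ≤ a * (256 * D - c) ^ 2 := by positivity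
    nlinarith

theorem core_b2 {N w D : ℤ} (hN : 15 ≤ N) (h1 : N ≤ 5 * w) (h2 : 5 * w ≤ 4 * N) (hw : w % 2 = 1)
    (hD : 0 ≤ D) :
    0 < (232 * N ^ 2 - 2472 * N - 2025 + 2700 * w - 324 * w ^ 2) -
      8 * (D * (104 * N - 312 - 135 * w)) + 8 * 128 * D ^ 2 := by
  refine core_c hD 8 (by norm_num) (fun hc => ?_) (fun hc => ?_)
  · rcases lt_or_ge N 18 with h | h
    · have h3 : 3 ≤ w := by omega
      have h4 : w ≤ 13 := by omega
      interval_cases N <;> interval_cases w <;> omega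
    · nlinarith [mul_nonneg (by linarith : 0 ≤ 5 * w - N) (by linarith : 0 ≤ 4 * N - 5 * w),
        mul_nonneg (by linarith : 0 ≤ 4 * N - 5 * w) (by linarith : 0 ≤ N - 18),
        mul_nonneg (by linarith : 0 ≤ N - 18) (by linarith : 0 ≤ N - 18)]
  · nlinarith [mul_nonneg (by linarith : 0 ≤ 5 * w - N) (by linarith : 0 ≤ 104 * N - 312 - 135 * w),
      mul_nonneg (by linarith : 0 ≤ 5 * w - N) (by linarith : 0 ≤ N - 15),
      mul_nonneg (by linarith : 0 ≤ 104 * N - 312 - 135 * w) (by linarith : 0 ≤ N - 15),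
      mul_nonneg (by linarith : 0 ≤ N - 15) (by linarith : 0 ≤ N - 15)]

theorem core_b3 {N w D : ℤ} (hN : 15 ≤ N) (h1 : N ≤ 5 * w) (h2 : 5 * w ≤ 4 * N)
    (hD : 0 ≤ D) :
    0 < (116 * N ^ 2 - 1236 * N - 1089 + 1260 * w - 108 * w ^ 2) -
      4 * (D * (104 * N - 312 - 135 * w)) + 4 * 128 * D ^ 2 := by
  refine core_c hD 4 (by norm_num) (fun hc => ?_) (fun hc => ?_)
  · nlinarith [mul_nonneg (by linarith : 0 ≤ 5 * w - N) (by linarith : 0 ≤ 4 * N - 5 * w),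
        mul_nonneg (by linarith : 0 ≤ 4 * N - 5 * w) (by linarith : 0 ≤ N - 15),
        mul_nonneg (by linarith : 0 ≤ N - 15) (by linarith : 0 ≤ N - 15)]
  · nlinarith [mul_nonneg (by linarith : 0 ≤ 5 * w - N) (by linarith : 0 ≤ 104 * N - 312 - 135 * w),
      mul_nonneg (by linarith : 0 ≤ 5 * w - N) (by linarith : 0 ≤ N - 15),
      mul_nonneg (by linarith : 0 ≤ 104 * N - 312 - 135 * w) (by linarith : 0 ≤ N - 15),
      mul_nonneg (by linarith : 0 ≤ N - 15) (by linarith : 0 ≤ N - 15)]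

theorem core_b4 {N w : ℤ} (hN : 15 ≤ N) (h1 : 4 * N ≤ 5 * w) (h2 : w + 1 ≤ N) :
    0 < 116 * N ^ 2 - 1236 * N - 1089 + 1260 * w - 108 * w ^ 2 := by
  nlinarith [mul_nonneg (by linarith : 0 ≤ 5 * w - 4 * N) (by linarith : 0 ≤ N - 1 - w),
        mul_nonneg (by linarith : 0 ≤ N - 1 - w) (by linarith : 0 ≤ N - 15),
        mul_nonneg (by linarith : 0 ≤ N - 15) (by linarith : 0 ≤ N - 15)]

/-- The polynomial inequality of regime (I-a). -/
theorem core_a {N w D G S Ub Bud : ℤ} (hN : 15 ≤ N) (hw1 : 1 ≤ w)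
    (hD : 0 ≤ D) (hU : 48 * Ub ≤ (2 * N + 10 - 12 * w) ^ 2)
    (hS : 16 * S ≤ 24 * w ^ 2 - 104 * w + 118 ∨ 12 * S ≤ 12 * w ^ 2 - 68 * w + 97)
    (hB : Bud = 0 ∨ 7 * Bud ≤ 2 * N ^ 2 - 42 * N)
    (hG : G = 9 * N ^ 2 + 15 * N + 6 - 6 * w + (w - 1) * (N - 5 * w) + Ub + S + Bud + 7 * N * D) :
    27 * G < 272 * N ^ 2 + 96 * N + 108 + 112 * N * D + 312 * D + 128 * D ^ 2 := by
  have hww : 0 ≤ (w - 1) * (w - 1) := mul_self_nonneg _
  have hN2 : 0 ≤ (N - 15) * (N - 15) := mul_self_nonneg _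
  have hDD : 0 ≤ (256 * D - (77 * N - 312)) ^ 2 := sq_nonneg _
  have hDN : 0 ≤ D * (N - 15) := mul_nonneg hD (by linarith)
  rcases hS with hS | hS <;> rcases hB with hB | hB <;> subst hG <;> nlinarith

/-! ### The regime -/

/-- The final step. -/
theorem finish (h : Nest M X Y Z) {N e : ℕ} (hM : M + e = 2 * N) (he : e ≤ 1) (hN : 15 ≤ N)
    {w R D : ℤ} (hDd : D = ∑ g ∈ Ico 1 N, dd M X Y Z g) (hD : 0 ≤ D)
    (hobj : 4 * Q1 M X Y Z ≤ 9 * (N : ℤ) ^ 2 + 21 * N - 6 * w - 6 * e * (N + 1) +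
      (1 - e) * (ind X N * (4 * N)) + 12 * (1 - (1 - e) * ind X N) + R)
    (hfin : 27 * (9 * (N : ℤ) ^ 2 + 15 * N + 6 - 6 * w + (R - 2 * (1 - e) * N)) < 272 * (N : ℤ) ^ 2 + 96 * N + 108 +
      112 * N * D + 312 * D + 128 * D ^ 2) : T2 M X Y Z := by
  have hU := U2_eq h hM he (by omega)
  rw [← hDd] at hU
  have hN' : (15 : ℤ) ≤ N := by exact_mod_cast hN
  unfold T2
  have hMz : (M : ℤ) + e = 2 * N := by exact_mod_cast hM
  have he' : e = 0 ∨ e = 1 := by omega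
  rcases he' with rfl | rfl
  · have hMz' : (M : ℤ) = 2 * N := by push_cast at hMz; linarith
    have hf : ind X N = 0 ∨ ind X N = 1 := by unfold ind; split_ifs <;> simp
    rcases hf with hf | hf
    · rw [hf] at hU hobj
      push_cast at hU hobj hfin
      have hU' : U2 M X Y Z = 2 * D + 3 := by linarith
      rw [hU', hMz']
      nlinarith
    · rw [hf] at hU hobj
      push_cast at hU hobj hfin
      have hU' : U2 M X Y Z = 2 * D + 1 := by linarith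
      rw [hU', hMz']
      nlinarith
  · have hMz' : (M : ℤ) = 2 * N - 1 := by push_cast at hMz; linarith
    push_cast at hU hobj hfin
    have hU' : U2 M X Y Z = 2 * D := by linarith
    rw [hU', hMz']
    nlinarith

/-- The generic far regime. -/
theorem regI (h : Nest M X Y Z) {N e w d : ℕ} (hM : M + e = 2 * N) (he : e ≤ 1) (hN : 15 ≤ N)
    (hw : w ∈ X) (hw1 : 1 ≤ w) (hwN : w < N)
    (hgcd : ∀ d', (∀ x ∈ X, x ≤ w → d' ∣ x) → d' = 1)
    (hd : ∀ x ∈ X, x < w → d ∣ x) (hdw : ¬ d ∣ w) (hd2 : 2 ≤ d) (hcase : 3 ≤ d ∨ 5 * w ≤ 4 * N)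
    (hden : dens X Z (N - 1) ≤ 0)
    (hF : e = 1 → (N : ℤ) + 1 ≤ ct X (N - 1) + ct Y (N - 1) + ct Z (N - 1)) : T2 M X Y Z := by
  have hF' : 6 * (e : ℤ) * (N + 1) ≤ 6 * e * (ct X (N - 1) + ct Y (N - 1) + ct Z (N - 1)) := by
    have he' : e = 0 ∨ e = 1 := by omega
    rcases he' with rfl | rfl
    · simp
    · have := hF rfl
      push_cast
      linarith
  have hN' : (15 : ℤ) ≤ N := by exact_mod_cast hN
  have hw1' : (1 : ℤ) ≤ w := by exact_mod_cast hw1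
  have hwN' : (w : ℤ) + 1 ≤ N := by exact_mod_cast hwN
  set D := ∑ g ∈ Ico 1 N, dd M X Y Z g with hDd
  have hD : 0 ≤ D := sum_nonneg fun g hg => by
    rw [mem_Ico] at hg
    exact dd_nonneg h (by omega)
  -- the extra cost
  have hES : ∃ S : ℤ, ∑ g ∈ Ico 1 w, Eg d w g = S ∧
      ((3 ≤ d ∧ 12 * S ≤ 12 * (w : ℤ) ^ 2 - 68 * w + 97) ∨
      (d = 2 ∧ 16 * S ≤ 24 * (w : ℤ) ^ 2 - 104 * w + 118)) := by
    refine ⟨_, rfl, ?_⟩
    rcases Nat.lt_or_ge d 3 with h3 | h3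
    · right
      refine ⟨by omega, ?_⟩
      obtain ⟨E1, E2, hs, h1, h2⟩ := Eg_sum (b := 2) hd2 (by omega : 1 ≤ d) hw1
      rw [hs]
      push_cast at h1 h2
      nlinarith
    · left
      refine ⟨h3, ?_⟩
      obtain ⟨E1, E2, hs, h1, h2⟩ := Eg_sum (b := 3) h3 (by omega : 1 ≤ d) hw1
      rw [hs]
      push_cast at h1 h2
      nlinarith
  obtain ⟨S, hS, hS2⟩ := hES
  rcases Nat.lt_or_ge (5 * w) N with h5 | h5
  · -- regime (I-a)
    have h5' : 5 * (w : ℤ) + 1 ≤ N := by exact_mod_cast h5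
    set Bud : ℤ := max 0 ((2 * (N : ℤ) ^ 2) / 7 - 6 * N) with hBud
    have hBud0 : 0 ≤ Bud := le_max_left _ _
    have hBudA : ∀ a : ℕ, 4 * (N : ℤ) * a - 6 * N - 14 * a ^ 2 ≤ Bud := by
      intro a
      refine le_trans ?_ (le_max_right _ _)
      have h1 : 4 * (N : ℤ) * a - 14 * a ^ 2 ≤ (2 * (N : ℤ) ^ 2) / 7 := by
        rw [Int.le_ediv_iff_mul_le (by norm_num)]
        nlinarith [sq_nonneg (7 * (a : ℤ) - N)]
      linarith
    have hR := hi_final h hM he hw hw1 hwN (by omega) hgcd (K := fun g => 2 * (N : ℤ) + 2 * (g : ℤ))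
      (P0 := 6 * (N : ℤ)) (fun g => by positivity) (long_a hBudA) (last_a hBudA) hBud0
      (by linarith) hden
    have hobj := objective h hM he hw hw1 hwN hd hdw hF' (K := fun g => 2 * (N : ℤ) + 2 * (g : ℤ))
      (P0 := 6 * (N : ℤ)) (Bud := Bud) (μ := 7 * (N : ℤ)) (U := (N : ℤ) - 5 * w)
      (Uf := fun g => max ((N : ℤ) + 2 * e - 6 * (g : ℤ)) 0) hR
      (fun g hg => by
        have : (w : ℤ) ≤ g := by exact_mod_cast hg
        have h0 : (0 : ℤ) ≤ g := Int.natCast_nonneg _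
        linarith)
      (fun g hg1 hg2 hdg => (st_lo_a hM he hwN hg1 hg2 h5 rfl (Eg_nonneg d w g)
        (Eg_ge hdg).1 (Eg_ge hdg).2 rfl).1)
      (fun g hg1 hg2 => (st_lo_a (E := max 0 (max (4 * (w : ℤ) - 6 - 4 * g) (8 * (w : ℤ) - 4 - 12 * g)))
        hM he hwN hg1 hg2 h5 rfl (le_max_left _ _)
        (le_trans (le_max_left _ _) (le_max_right _ _))
        (le_trans (le_max_right _ _) (le_max_right _ _)) rfl).2)
      (fun g hg1 hg2 => st_hi_a hM he hwN (by omega) hg1 hg2 hw1 h5 rfl (le_max_right _ _)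
        (le_max_left _ _) rfl)
    rw [hS, ← hDd] at hobj
    have hUs := U_sum ((N : ℤ) + 2 * e) hw1 hwN.le
    set Ub := ∑ g ∈ Ico w N, max ((N : ℤ) + 2 * e - 6 * (g : ℤ)) 0 with hUb
    have he2 : (e : ℤ) ≤ 1 := by exact_mod_cast he
    have he0 : (0 : ℤ) ≤ e := Int.natCast_nonneg _
    have hUs' : 48 * (Ub - 2 * (1 - e) * N) ≤ (2 * (N : ℤ) + 10 - 12 * w) ^ 2 := by
      have he' : e = 0 ∨ e = 1 := by omega
      rcases he' with h0 | h0
      · have h0' : (e : ℤ) = 0 := by rw [h0]; rfl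
        rw [h0'] at hUs ⊢
        nlinarith
      · have h0' : (e : ℤ) = 1 := by rw [h0]; rfl
        rw [h0'] at hUs ⊢
        nlinarith
    refine finish h hM he hN (w := w) (R := (w - 1) * ((N : ℤ) - 5 * w) + Ub + S + Bud + 7 * N * D)
      hDd hD (by linarith) ?_
    refine core_a (Ub := Ub - 2 * (1 - e) * N) (S := S) (Bud := Bud) (w := w) hN' hw1' hD hUs' ?_ ?_
      (by ring)
    · rcases hS2 with ⟨_, hS2⟩ | ⟨_, hS2⟩
      · exact Or.inr hS2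
      · exact Or.inl hS2
    · rcases max_choice (0 : ℤ) ((2 * (N : ℤ) ^ 2) / 7 - 6 * N) with hm | hm
      · left; exact hm
      · right
        rw [hBud, hm]
        have := Int.mul_ediv_self_le (x := 2 * (N : ℤ) ^ 2) (k := 7) (by norm_num)
        linarith
  · -- regime (I-b)
    have h5' : (N : ℤ) ≤ 5 * w := by exact_mod_cast h5
    have hR := hi_final h hM he hw hw1 hwN (by omega) hgcd (K := fun _ => 6 * ((N : ℤ) - w))
      (P0 := 6 * ((N : ℤ) - w)) (fun g => by linarith) (long_b hwN.le) (last_b hwN.le)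
      (le_refl 0) (le_refl _) hden
    set μ : ℤ := max (8 * (N : ℤ) - 5 * w) (4 * N) with hμ
    have hμ1 : 8 * (N : ℤ) - 5 * w ≤ μ := le_max_left _ _
    have hμ2 : 4 * (N : ℤ) ≤ μ := le_max_right _ _
    have hobj := objective h hM he hw hw1 hwN hd hdw hF' (K := fun _ => 6 * ((N : ℤ) - w))
      (P0 := 6 * ((N : ℤ) - w)) (Bud := 0) (μ := μ) (U := 0)
      (Uf := fun _ => 0) hR
      (fun g hg => by
        have : (w : ℤ) ≤ g := by exact_mod_cast hg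
        linarith)
      (fun g hg1 hg2 hdg => st_lo_b hM he hwN hg1 hg2 hN h5 hμ1 hμ2 (Eg_nonneg d w g)
        (Eg_ge hdg).1 (Eg_ge hdg).2 (by ring))
      (fun g hg1 hg2 => st_lo_b0 hM he hwN hg1 hg2 hμ1 hμ2 (by ring))
      (fun g hg1 hg2 => st_hi_b hM he hwN (by omega) hg1 hg2 hw1 hN h5 hμ1 hμ2 (by ring))
    rw [hS, ← hDd, sum_const_zero] at hobj
    refine finish h hM he hN (w := w) (R := S + μ * D) hDd hD (by linarith) ?_
    have hNe : 0 ≤ (1 - (e : ℤ)) * N := by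
      have he2 : (e : ℤ) ≤ 1 := by exact_mod_cast he
      exact mul_nonneg (by linarith) (by linarith)
    rcases hS2 with ⟨_, hS2⟩ | ⟨hd2', hS2⟩
    · rcases le_or_gt (5 * (w : ℤ)) (4 * N) with h6 | h6
      · have hm : μ = 8 * (N : ℤ) - 5 * w := max_eq_left (by linarith)
        have := core_b3 hN' h5' h6 hD
        rw [hm]
        nlinarith
      · have hm : μ = 4 * (N : ℤ) := max_eq_right (by linarith)
        have := core_b4 hN' h6.le hwN'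
        rw [hm]
        have h7 : 0 ≤ D * N := mul_nonneg hD (by linarith)
        nlinarith
    · have h6 : 5 * (w : ℤ) ≤ 4 * N := by
        rcases hcase with hc | hc
        · omega
        · exact_mod_cast hc
      have hm : μ = 8 * (N : ℤ) - 5 * w := max_eq_left (by linarith)
      have hodd : (w : ℤ) % 2 = 1 := by
        rw [hd2'] at hdw
        omega
      have := core_b2 hN' h5' h6 hodd hD
      rw [hm]
      nlinarith

end Pool.Agent.LibA338c1g
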