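import Pool.Agent.Lib_MP_a338c1_g.Hi

/-!
# The generic far regime: coefficient functions
-/

open Finset
open scoped Pointwise

namespace Pool.Agent.LibA338c1g

open Pool.Agent.LibA338c1f (Nest T2 U2 Q1)

/-- The coefficients of `X`. -/
def kX (M N w e r : ℕ) : ℤ :=
  4 * ((M : ℤ) - r) - 4 * ((w - (M - r) : ℕ) : ℤ) -
    (if r < w then 6 * ((2 * w - max w (2 * r - 1) : ℕ) : ℤ) else 0) -
    12 * ((N - max w r : ℕ) : ℤ) + (if r < N then 6 * (e : ℤ) else 0)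

/-- The coefficients of `Y`. -/
def kY (M N w e r : ℕ) : ℤ :=
  4 * ((M : ℤ) - r) - 4 * ((w - (2 * r - 1) : ℕ) : ℤ) -
    (if r < w then 3 * ((2 * w - max w (2 * r) : ℕ) : ℤ) else 0) -
    3 * ((w - r : ℕ) : ℤ) - 8 * ((N - max w r : ℕ) : ℤ) -
    3 * ((2 * w - max w (M - r) : ℕ) : ℤ) - 2 * ((2 * N - max (2 * w) (M - r) : ℕ) : ℤ) +
    (if r < N then 6 * (e : ℤ) else 0)

/-- The coefficients of `Z`. -/
def kZ (M N w e r : ℕ) : ℤ :=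
  4 * ((M : ℤ) - r) - 4 * ((w - 2 * r : ℕ) : ℤ) -
    (if r < w then 3 * ((2 * w - max w (2 * r) : ℕ) : ℤ) else 0) -
    3 * ((w - r : ℕ) : ℤ) - 16 * ((N - max w r : ℕ) : ℤ) -
    3 * ((2 * w - max w (M - r) : ℕ) : ℤ) - 4 * ((2 * N - max (2 * w) (M - r) : ℕ) : ℤ) +
    (if r < N then 6 * (e : ℤ) else 0)

theorem sum_tt {a b : ℕ} (h : a ≤ b) :
    2 * ∑ t ∈ Ico a b, ((t : ℤ) + 1) = (b : ℤ) * (b + 1) - a * (a + 1) := by
  induction b, h using Nat.le_induction with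
  | base => simp
  | succ n hn ih =>
    rw [sum_Ico_succ_top hn, mul_add, ih]
    push_cast
    ring

theorem sum_tt1 {a b : ℕ} (h : a ≤ b) :
    2 * ∑ t ∈ Ico a b, ((t : ℤ) + 1 + 1) = (b : ℤ) * (b + 1) - a * (a + 1) + 2 * (b - a) := by
  induction b, h using Nat.le_induction with
  | base => simp
  | succ n hn ih =>
    rw [sum_Ico_succ_top hn, mul_add, ih]
    push_cast
    ring

variable {M : ℕ} {X Y Z : Finset ℕ}

theorem free' (h : Nest M X Y Z) :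
    (∀ p ∈ Y, ∀ q ∈ Z, ∀ r ∈ X, p + q + r ≠ M) ∧ (∀ p ∈ X, ∀ q ∈ Y, ∀ r ∈ Z, p + q + r ≠ M) ∧
      (∀ p ∈ X, ∀ q ∈ Z, ∀ r ∈ Y, p + q + r ≠ M) := by
  refine ⟨fun p hp q hq r hr => ?_, fun p hp q hq r hr => ?_, fun p hp q hq r hr => ?_⟩
  · have := h.free r hr p hp q hq; omega
  · have := h.free p hp q hq r hr; omega
  · have := h.free p hp r hr q hq; omega

/-- The low windows. -/
theorem lo_sum (h : Nest M X Y Z) (w : ℕ) :
    2 * (∑ r ∈ Y, ((w - (2 * r - 1) : ℕ) : ℤ) + ∑ r ∈ Z, ((w - 2 * r : ℕ) : ℤ) +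
      ∑ r ∈ X, ((w - (M - r) : ℕ) : ℤ)) ≤ (w : ℤ) * (w + 3) := by
  obtain ⟨h0X, h0Y, h0Z⟩ := nest_zero h
  have hY := sum_thr Y (fun r => 2 * r - 1) 0 w
  have hZ := sum_thr Z (fun r => 2 * r) 0 w
  have hX := sum_thr X (fun r => M - r) 0 w
  simp only [Nat.zero_max] at hX hY hZ
  rw [← hY, ← hZ, ← hX, ← sum_add_distrib, ← sum_add_distrib]
  have h1 : ∑ t ∈ Ico 0 w, (thr Y (fun r => 2 * r - 1) t + thr Z (fun r => 2 * r) t +
      thr X (fun r => M - r) t) ≤ ∑ t ∈ Ico 0 w, (((t : ℤ) + 1) + 1) := by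
    refine sum_le_sum fun t _ => ?_
    have e1 := superadd h0Y h0Z (by omega : (t + 1) / 2 + t / 2 ≤ t)
    have e2 := pair_count h.le (free' h).1 t
    rw [ct_half', ct_half] at e1
    linarith
  have h2 := sum_tt1 (Nat.zero_le w)
  push_cast at h2
  linarith

/-- The middle windows. -/
theorem mid_sum (h : Nest M X Y Z) {Q R : Finset ℕ} (h0Q : 0 ∈ Q) (hQX : Q ⊆ X)
    (hR : ∀ r ∈ R, r ≤ M) (hfree : ∀ p ∈ X, ∀ q ∈ Q, ∀ r ∈ R, p + q + r ≠ M)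
    {w d : ℕ} (hw : w ∈ X) (hw0 : 0 < w)
    (hd : ∀ x ∈ X, x < w → d ∣ x) (hdw : ¬ d ∣ w) :
    2 * (∑ r ∈ X, (if r < w then ((2 * w - max w (2 * r - 1) : ℕ) : ℤ) else 0) +
      ∑ r ∈ Q, (if r < w then ((2 * w - max w (2 * r) : ℕ) : ℤ) else 0) +
      ∑ r ∈ Q, ((w - r : ℕ) : ℤ) + ∑ r ∈ R, ((2 * w - max w (M - r) : ℕ) : ℤ)) ≤
      3 * (w : ℤ) * (w + 1) := by
  have e1 := sum_thr (lowp X w) (fun r => 2 * r - 1) w (2 * w)
  have e2 := sum_thr (lowp Q w) (fun r => 2 * r) w (2 * w)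
  have e3 := sum_thr Q (fun r => r + w) w (2 * w)
  have e4 := sum_thr R (fun r => M - r) w (2 * w)
  rw [lowp, sum_filter] at e1 e2
  have e3' : ∑ r ∈ Q, ((2 * w - max w (r + w) : ℕ) : ℤ) = ∑ r ∈ Q, ((w - r : ℕ) : ℤ) := by
    refine sum_congr rfl fun r _ => ?_
    congr 1
    omega
  rw [e3'] at e3
  rw [← e1, ← e2, ← e3, ← e4, ← sum_add_distrib, ← sum_add_distrib, ← sum_add_distrib]
  have h1 : ∑ t ∈ Ico w (2 * w), (thr (X.filter fun r => r < w) (fun r => 2 * r - 1) t +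
      thr (Q.filter fun r => r < w) (fun r => 2 * r) t + thr Q (fun r => r + w) t +
      thr R (fun r => M - r) t) ≤ ∑ t ∈ Ico w (2 * w), (((t : ℤ) + 1) + 1) := by
    refine sum_le_sum fun t ht => ?_
    rw [mem_Ico] at ht
    have e1 := mid h0Q hQX hw hw0 hd hdw (by omega : (t + 1) / 2 + t / 2 ≤ t) ht.1 ht.2
    have e2 := pair_count hR hfree t
    rw [ct_half', ct_half, ct_sub Q ht.1, lowp, lowp] at e1
    linarith
  have h2 := sum_tt1 (by omega : w ≤ 2 * w)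
  push_cast at h2
  linarith

/-- The high windows. -/
theorem hi_sum (h : Nest M X Y Z) {w N : ℕ} (hwN : w ≤ N) :
    ∑ t ∈ Ico (2 * w) (2 * N), Cc X Y Z t + 2 * ∑ r ∈ Z, ((2 * N - max (2 * w) (M - r) : ℕ) : ℤ) +
      ∑ r ∈ Y, ((2 * N - max (2 * w) (M - r) : ℕ) : ℤ) ≤
      3 * (N : ℤ) * (2 * N + 1) - 3 * w * (2 * w + 1) := by
  have eZ := sum_thr Z (fun r => M - r) (2 * w) (2 * N)
  have eY := sum_thr Y (fun r => M - r) (2 * w) (2 * N)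
  rw [← eZ, ← eY, mul_sum, ← sum_add_distrib, ← sum_add_distrib]
  have h1 : ∑ t ∈ Ico (2 * w) (2 * N), (Cc X Y Z t + 2 * thr Z (fun r => M - r) t +
      thr Y (fun r => M - r) t) ≤ ∑ t ∈ Ico (2 * w) (2 * N), 3 * ((t : ℤ) + 1) := by
    refine sum_le_sum fun t _ => ?_
    have hYM : ∀ r ∈ Y, r ≤ M := fun r hr => h.le r (h.YX hr)
    have e1 := pair_count (fun r hr => hYM r (h.ZY hr)) (free' h).2.1 t
    have e2 := pair_count hYM (free' h).2.2 t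
    unfold Cc
    linarith
  rw [← mul_sum] at h1
  have h2 := sum_tt (by omega : 2 * w ≤ 2 * N)
  push_cast at h2
  linarith

/-- The sums of the targets. -/
theorem tg_sum (X Y Z : Finset ℕ) {w N : ℕ} (hwN : w ≤ N) :
    ∑ s ∈ Ico w N, Tg X Y Z s = 3 * ∑ r ∈ X, ((N - max w r : ℕ) : ℤ) +
      2 * ∑ r ∈ Y, ((N - max w r : ℕ) : ℤ) + 4 * ∑ r ∈ Z, ((N - max w r : ℕ) : ℤ) -
      6 * ((N : ℤ) - w) := by
  have eX := sum_thr X (fun r => r) w N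
  have eY := sum_thr Y (fun r => r) w N
  have eZ := sum_thr Z (fun r => r) w N
  unfold Tg
  rw [sum_sub_distrib, sum_add_distrib, sum_add_distrib, ← mul_sum, ← mul_sum, ← mul_sum,
    sum_const, Nat.card_Ico, nsmul_eq_mul]
  simp only [ct_eq_thr]
  rw [eX, eY, eZ]
  push_cast [Nat.cast_sub hwN]
  ring

/-- The counts below `N`. -/
theorem ct_sum (A : Finset ℕ) {N : ℕ} (hN : 1 ≤ N) (e : ℤ) :
    ∑ r ∈ A, (if r < N then 6 * e else 0) = 6 * e * ct A (N - 1) := by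
  rw [← sum_filter, sum_const, nsmul_eq_mul]
  unfold ct
  rw [filter_congr (fun x _ => (by omega : x < N ↔ x ≤ N - 1))]
  ring

/-- The master inequality. -/
theorem master (h : Nest M X Y Z) {N e w d : ℕ} (hN : 1 ≤ N)
    (hw : w ∈ X) (hw0 : 0 < w) (hwN : w ≤ N)
    (hd : ∀ x ∈ X, x < w → d ∣ x) (hdw : ¬ d ∣ w)
    (hF : 6 * (e : ℤ) * (N + 1) ≤ 6 * e * (ct X (N - 1) + ct Y (N - 1) + ct Z (N - 1))) {R : ℤ}
    (hR : 4 * ∑ s ∈ Ico w N, Tg X Y Z s ≤ 2 * ∑ t ∈ Ico (2 * w) (2 * N), Cc X Y Z t + R) :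
    4 * Q1 M X Y Z ≤ (12 * (N : ℤ) ^ 2 + 30 * N - w ^ 2 - 15 * w - 6 * e * (N + 1)) + R +
      (∑ r ∈ X, kX M N w e r + ∑ r ∈ Y, kY M N w e r + ∑ r ∈ Z, kZ M N w e r) := by
  have hYM : ∀ r ∈ Y, r ≤ M := fun r hr => h.le r (h.YX hr)
  have hZM : ∀ r ∈ Z, r ≤ M := fun r hr => hYM r (h.ZY hr)
  obtain ⟨h0X, h0Y, h0Z⟩ := nest_zero h
  have h1 := lo_sum h w
  have h2 := mid_sum h h0Y h.YX hZM (free' h).2.1 hw hw0 hd hdw
  have h3 := mid_sum h h0Z (h.ZY.trans h.YX) hYM (free' h).2.2 hw hw0 hd hdw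
  have h4 := hi_sum h hwN
  have h5 := tg_sum X Y Z hwN
  have h6 : ∑ r ∈ X, kX M N w e r = 4 * ∑ r ∈ X, ((M : ℤ) - r) -
      4 * ∑ r ∈ X, ((w - (M - r) : ℕ) : ℤ) -
      6 * ∑ r ∈ X, (if r < w then ((2 * w - max w (2 * r - 1) : ℕ) : ℤ) else 0) -
      12 * ∑ r ∈ X, ((N - max w r : ℕ) : ℤ) + 6 * e * ct X (N - 1) := by
    rw [← ct_sum X hN, mul_sum, mul_sum, mul_sum, mul_sum, ← sum_sub_distrib, ← sum_sub_distrib,
      ← sum_sub_distrib, ← sum_add_distrib]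
    refine sum_congr rfl fun r _ => ?_
    unfold kX
    by_cases hr : r < w
    · rw [if_pos hr, if_pos hr]
    · rw [if_neg hr, if_neg hr]; ring
  have h7 : ∑ r ∈ Y, kY M N w e r = 4 * ∑ r ∈ Y, ((M : ℤ) - r) -
      4 * ∑ r ∈ Y, ((w - (2 * r - 1) : ℕ) : ℤ) -
      3 * ∑ r ∈ Y, (if r < w then ((2 * w - max w (2 * r) : ℕ) : ℤ) else 0) -
      3 * ∑ r ∈ Y, ((w - r : ℕ) : ℤ) - 8 * ∑ r ∈ Y, ((N - max w r : ℕ) : ℤ) -
      3 * ∑ r ∈ Y, ((2 * w - max w (M - r) : ℕ) : ℤ) -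
      2 * ∑ r ∈ Y, ((2 * N - max (2 * w) (M - r) : ℕ) : ℤ) + 6 * e * ct Y (N - 1) := by
    rw [← ct_sum Y hN, mul_sum, mul_sum, mul_sum, mul_sum, mul_sum, mul_sum, mul_sum,
      ← sum_sub_distrib, ← sum_sub_distrib, ← sum_sub_distrib, ← sum_sub_distrib,
      ← sum_sub_distrib, ← sum_sub_distrib, ← sum_add_distrib]
    refine sum_congr rfl fun r _ => ?_
    unfold kY
    by_cases hr : r < w
    · rw [if_pos hr, if_pos hr]
    · rw [if_neg hr, if_neg hr]; ring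
  have h8 : ∑ r ∈ Z, kZ M N w e r = 4 * ∑ r ∈ Z, ((M : ℤ) - r) -
      4 * ∑ r ∈ Z, ((w - 2 * r : ℕ) : ℤ) -
      3 * ∑ r ∈ Z, (if r < w then ((2 * w - max w (2 * r) : ℕ) : ℤ) else 0) -
      3 * ∑ r ∈ Z, ((w - r : ℕ) : ℤ) - 16 * ∑ r ∈ Z, ((N - max w r : ℕ) : ℤ) -
      3 * ∑ r ∈ Z, ((2 * w - max w (M - r) : ℕ) : ℤ) -
      4 * ∑ r ∈ Z, ((2 * N - max (2 * w) (M - r) : ℕ) : ℤ) + 6 * e * ct Z (N - 1) := by
    rw [← ct_sum Z hN, mul_sum, mul_sum, mul_sum, mul_sum, mul_sum, mul_sum, mul_sum,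
      ← sum_sub_distrib, ← sum_sub_distrib, ← sum_sub_distrib, ← sum_sub_distrib,
      ← sum_sub_distrib, ← sum_sub_distrib, ← sum_add_distrib]
    refine sum_congr rfl fun r _ => ?_
    unfold kZ
    by_cases hr : r < w
    · rw [if_pos hr, if_pos hr]
    · rw [if_neg hr, if_neg hr]; ring
  rw [h6, h7, h8]
  unfold Q1
  rw [h5] at hR
  nlinarith [h1, h2, h3, h4, hR, hF]

end Pool.Agent.LibA338c1g
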