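import Pool.Agent.Lib_MP_a338c1_g.RegEV

/-!
# The regimes (III): `M` odd, even start, the first odd element `w` of `X` is large
-/

open Finset
open scoped Pointwise

namespace Pool.Agent.LibA338c1g

open Pool.Agent.LibA338c1f (Nest T2 U2 Q1)

variable {M : ℕ} {X Y Z : Finset ℕ}

/-! ### Parity sums -/

theorem sum_even_lin (c : ℤ) (l : ℕ) :
    (∑ g ∈ Ico 1 (2 * l + 1), (if g % 2 = 0 then c + 2 * (g : ℤ) else 0) =
      l * c + 2 * l * (l + 1)) ∧
    (∑ g ∈ Ico 1 (2 * l + 2), (if g % 2 = 0 then c + 2 * (g : ℤ) else 0) =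
      l * c + 2 * l * (l + 1)) := by
  induction l with
  | zero => simp
  | succ n ih =>
    obtain ⟨i1, i2⟩ := ih
    have a1 : ∑ g ∈ Ico 1 (2 * (n + 1) + 1), (if g % 2 = 0 then c + 2 * (g : ℤ) else 0) =
        ((n + 1 : ℕ) : ℤ) * c + 2 * ((n + 1 : ℕ) : ℤ) * (((n + 1 : ℕ) : ℤ) + 1) := by
      rw [show 2 * (n + 1) + 1 = (2 * n + 2) + 1 by ring, sum_Ico_succ_top (by omega), i2,
        if_pos (by omega)]
      push_cast
      ring
    refine ⟨a1, ?_⟩
    rw [show 2 * (n + 1) + 2 = (2 * (n + 1) + 1) + 1 by ring, sum_Ico_succ_top (by omega), a1,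
      if_neg (by omega)]
    ring

theorem sum_even_sub (A : ℤ) (n : ℕ) (hn : 1 ≤ n) :
    8 * ∑ g ∈ Ico 1 n, (if g % 2 = 0 then A - 2 * (g : ℤ) else 0) ≤ (A - 2) ^ 2 := by
  have key : ∀ l : ℕ, ∀ n, (n = 2 * l + 1 ∨ n = 2 * l + 2) →
      ∑ g ∈ Ico 1 n, (if g % 2 = 0 then A - 2 * (g : ℤ) else 0) = l * A - 2 * l * (l + 1) := by
    intro l n hn
    have h1 := sum_even_lin (-A) l
    have h2 : ∑ g ∈ Ico 1 n, (if g % 2 = 0 then A - 2 * (g : ℤ) else 0) =
        - ∑ g ∈ Ico 1 n, (if g % 2 = 0 then -A + 2 * (g : ℤ) else 0) := by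
      rw [← sum_neg_distrib]
      refine sum_congr rfl fun g _ => ?_
      split_ifs <;> ring
    rw [h2]
    rcases hn with rfl | rfl
    · rw [h1.1]; ring
    · rw [h1.2]; ring
  have hl : n = 2 * ((n - 1) / 2) + 1 ∨ n = 2 * ((n - 1) / 2) + 2 := by omega
  rw [key _ n hl]
  generalize (((n - 1) / 2 : ℕ) : ℤ) = l
  nlinarith [sq_nonneg (4 * l - (A - 2))]

theorem sum_even_trunc (A n : ℕ) :
    8 * ∑ g ∈ Ico 1 n, (if g % 2 = 0 then ((A - 2 * g : ℕ) : ℤ) else 0) ≤ ((A : ℤ) - 2) ^ 2 := by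
  set n' := min n ((A + 1) / 2) with hn'
  have h1 : ∑ g ∈ Ico 1 n, (if g % 2 = 0 then ((A - 2 * g : ℕ) : ℤ) else 0) =
      ∑ g ∈ Ico 1 n', (if g % 2 = 0 then (A : ℤ) - 2 * g else 0) := by
    have h2 : ∑ g ∈ Ico 1 n', (if g % 2 = 0 then (A : ℤ) - 2 * g else 0) =
        ∑ g ∈ Ico 1 n', (if g % 2 = 0 then ((A - 2 * g : ℕ) : ℤ) else 0) := by
      refine sum_congr rfl fun g hg => ?_
      rw [mem_Ico] at hg
      have : ((A - 2 * g : ℕ) : ℤ) = A - 2 * g := by omega
      rw [this]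
    rw [h2]
    symm
    refine sum_subset (fun g hg => ?_) (fun g hg hg' => ?_)
    · rw [mem_Ico] at hg ⊢; omega
    · rw [mem_Ico] at hg hg'
      have : A - 2 * g = 0 := by omega
      rw [this]
      simp
  rw [h1]
  rcases Nat.eq_zero_or_pos n' with h0 | h0
  · rw [h0]
    simp
    positivity
  · exact sum_even_sub A n' h0

theorem sum_odd_lin (c : ℤ) (w l : ℕ) (hw : w % 2 = 1) :
    (∑ g ∈ Ico w (w + 2 * l), (if g % 2 = 1 then c - 12 * (g : ℤ) else 0) =
      l * c - 12 * (l * w + l * (l - 1))) ∧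
    (∑ g ∈ Ico w (w + 2 * l + 1), (if g % 2 = 1 then c - 12 * (g : ℤ) else 0) =
      (l + 1) * c - 12 * ((l + 1) * w + (l + 1) * l)) := by
  induction l with
  | zero =>
    constructor
    · simp
    · rw [sum_Ico_succ_top (by omega)]
      simp [hw]
  | succ n ih =>
    obtain ⟨i1, i2⟩ := ih
    have a1 : ∑ g ∈ Ico w (w + 2 * (n + 1)), (if g % 2 = 1 then c - 12 * (g : ℤ) else 0) =
        ((n + 1 : ℕ) : ℤ) * c - 12 * (((n + 1 : ℕ) : ℤ) * w +
          ((n + 1 : ℕ) : ℤ) * (((n + 1 : ℕ) : ℤ) - 1)) := by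
      rw [show w + 2 * (n + 1) = (w + 2 * n + 1) + 1 by ring, sum_Ico_succ_top (by omega), i2,
        if_neg (by omega)]
      push_cast
      ring
    refine ⟨a1, ?_⟩
    rw [sum_Ico_succ_top (by omega), a1, if_pos (by omega)]
    push_cast
    ring

/-- The number of even numbers in an interval of odd length. -/
theorem card_even (L k : ℕ) :
    (L % 2 = 0 → ((Ico L (L + 2 * k + 1)).filter (fun r => r % 2 = 0)).card = k + 1) ∧
    (L % 2 = 1 → ((Ico L (L + 2 * k + 1)).filter (fun r => r % 2 = 0)).card = k) := by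
  have key : ∀ k, (((Ico L (L + 2 * k + 1)).filter (fun r => r % 2 = 0)).card : ℤ) =
      if L % 2 = 0 then (k : ℤ) + 1 else k := by
    intro k
    rw [card_filter]
    push_cast
    induction k with
    | zero =>
      rw [sum_Ico_succ_top (by omega)]
      simp
    | succ n ih =>
      rw [show L + 2 * (n + 1) + 1 = (L + 2 * n + 1) + 1 + 1 by ring,
        sum_Ico_succ_top (by omega), sum_Ico_succ_top (by omega), ih]
      rcases Nat.mod_two_eq_zero_or_one L with hL | hL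
      · rw [if_pos hL, if_neg (by omega : ¬ (L + 2 * n + 1) % 2 = 0),
          if_pos (by omega : (L + 2 * n + 1 + 1) % 2 = 0), if_pos hL]
        push_cast; ring
      · rw [if_neg (by omega : ¬ L % 2 = 0), if_pos (by omega : (L + 2 * n + 1) % 2 = 0),
          if_neg (by omega : ¬ (L + 2 * n + 1 + 1) % 2 = 0), if_neg (by omega : ¬ L % 2 = 0)]
        push_cast; ring
  constructor
  · intro hL
    have := key k
    rw [if_pos hL] at this
    exact_mod_cast this
  · intro hL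
    have := key k
    rw [if_neg (by omega)] at this
    exact_mod_cast this

/-! ### The even parts -/

/-- The even part. -/
def evp (A : Finset ℕ) : Finset ℕ := A.filter (fun r => r % 2 = 0)

/-- The odd part. -/
def odp (A : Finset ℕ) : Finset ℕ := A.filter (fun r => r % 2 = 1)

/-- Even sums of the even parts, and the odd elements of the first set. -/
theorem super_even {P Q : Finset ℕ} (hP : 0 ∈ P) (hQ : 0 ∈ Q) {a b t : ℕ} (hab : a + b ≤ t) :
    ct (evp P) a + ct (evp Q) b - 1 + ct (odp P) t ≤ ct (P + Q) t := by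
  have h0P : 0 ∈ evp P := mem_filter.2 ⟨hP, rfl⟩
  have h0Q : 0 ∈ evp Q := mem_filter.2 ⟨hQ, rfl⟩
  have h1 := superadd h0P h0Q hab
  have h2 : ct (evp P + evp Q) t + ct (odp P) t ≤ ct (P + Q) t := by
    unfold ct
    have hdis : Disjoint ((evp P + evp Q).filter (fun r => r ≤ t))
        ((odp P).filter (fun r => r ≤ t)) := by
      rw [disjoint_left]
      intro x hx hx2
      rw [mem_filter] at hx hx2
      obtain ⟨p, hp, q, hq, hpq⟩ := mem_add.1 hx.1
      have hp' := (mem_filter.1 hp).2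
      have hq' := (mem_filter.1 hq).2
      have hx' := (mem_filter.1 hx2.1).2
      omega
    have hsub : (evp P + evp Q).filter (fun r => r ≤ t) ∪ (odp P).filter (fun r => r ≤ t) ⊆
        (P + Q).filter (fun r => r ≤ t) := by
      intro x hx
      rw [mem_union] at hx
      rw [mem_filter]
      rcases hx with hx | hx
      · rw [mem_filter] at hx
        obtain ⟨p, hp, q, hq, hpq⟩ := mem_add.1 hx.1
        exact ⟨mem_add.2 ⟨p, (mem_filter.1 hp).1, q, (mem_filter.1 hq).1, hpq⟩, hx.2⟩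
      · rw [mem_filter] at hx
        exact ⟨mem_add.2 ⟨x, (mem_filter.1 hx.1).1, 0, hQ, by omega⟩, hx.2⟩
    have := card_le_card hsub
    rw [card_union_of_disjoint hdis] at this
    exact_mod_cast this
  linarith

/-- A sum over the even part. -/
theorem sum_evp (A : Finset ℕ) (F : ℕ → ℤ) :
    ∑ r ∈ evp A, F r = ∑ r ∈ A, (if r % 2 = 0 then F r else 0) := by
  unfold evp
  rw [sum_filter]

theorem sum_odp (A : Finset ℕ) (F : ℕ → ℤ) :
    ∑ r ∈ odp A, F r = ∑ r ∈ A, (if r % 2 = 1 then F r else 0) := by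
  unfold odp
  rw [sum_filter]

/-- The averaged inequality for even parts, with the odd elements of `P` if `b` is one. -/
theorem avg_even {N : ℕ} (hM : M + 1 = 2 * N) {P Q R : Finset ℕ}
    (hP : 0 ∈ P) (hQ : 0 ∈ Q) (hR : ∀ r ∈ R, r < M)
    (hfree : ∀ p ∈ P, ∀ q ∈ Q, ∀ r ∈ R, p + q + r ≠ M) :
    ∑ r ∈ P, (if r % 2 = 0 then ((N - r : ℕ) : ℤ) else 0) +
      ∑ r ∈ P, (if r % 2 = 1 ∧ r < N then (N : ℤ) else 0) +
      ∑ r ∈ Q, (if r % 2 = 0 then ((N - r : ℕ) : ℤ) else 0) +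
      ∑ r ∈ R, (if N ≤ r then (N : ℤ) else 0) ≤ N * (N + 1) := by
  have h1 : ∀ s ∈ range N, ct (evp P) s + ct (evp Q) (N - 1 - s) + ct (odp P) (N - 1) +
      ∑ r ∈ R, (if N ≤ r then (1 : ℤ) else 0) ≤ (N : ℤ) + 1 := by
    intro s hs
    have hs' := mem_range.1 hs
    have a1 := super_even hP hQ (a := s) (b := N - 1 - s) (t := N - 1) (by omega)
    have a2 := pair_count (fun r hr => (hR r hr).le) hfree (N - 1)
    rw [thr_eq_sum] at a2
    have a3 : ∑ r ∈ R, (if M - r ≤ N - 1 then (1 : ℤ) else 0) =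
        ∑ r ∈ R, (if N ≤ r then (1 : ℤ) else 0) := by
      refine sum_congr rfl fun r hr => ?_
      have := hR r hr
      have e1 : (M - r ≤ N - 1) ↔ N ≤ r := by omega
      simp only [e1]
    rw [a3] at a2
    have a4 : ((N - 1 : ℕ) : ℤ) = N - 1 := by omega
    rw [a4] at a2
    linarith
  have h2 := sum_le_sum h1
  rw [sum_add_distrib, sum_add_distrib, sum_add_distrib, sum_ct, sum_ct_refl, sum_const, sum_const,
    sum_const, card_range, nsmul_eq_mul, nsmul_eq_mul, nsmul_eq_mul, mul_sum, ct_eq_sum,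
    sum_evp, sum_evp, sum_odp, mul_sum] at h2
  have h3 : ∑ r ∈ R, (N : ℤ) * (if N ≤ r then (1 : ℤ) else 0) =
      ∑ r ∈ R, (if N ≤ r then (N : ℤ) else 0) := by
    refine sum_congr rfl fun r _ => ?_
    split_ifs <;> ring
  have h4 : ∑ r ∈ P, (N : ℤ) * (if r % 2 = 1 then (if r ≤ N - 1 then (1 : ℤ) else 0) else 0) =
      ∑ r ∈ P, (if r % 2 = 1 ∧ r < N then (N : ℤ) else 0) := by
    refine sum_congr rfl fun r _ => ?_
    by_cases hr : r % 2 = 1
    · by_cases hr2 : r < N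
      · rw [if_pos hr, if_pos (by omega), if_pos ⟨hr, hr2⟩]; ring
      · rw [if_pos hr, if_neg (by omega), if_neg (by omega)]; ring
    · rw [if_neg hr, if_neg (by omega)]; ring
  rw [h3, h4] at h2
  linarith

/-- The pair constraint of the element `w`. -/
theorem pair_w (h : Nest M X Y Z) {N w : ℕ} (hM : M + 1 = 2 * N) (hw : w ∈ X) (hwN : w < N)
    (hwodd : w % 2 = 1) :
    ∑ r ∈ Y, (if r % 2 = 0 ∧ N - w ≤ r ∧ r < N then (1 : ℤ) else 0) +
      ∑ r ∈ Z, (if r % 2 = 0 ∧ N - w ≤ r ∧ r < N then (1 : ℤ) else 0) ≤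
      (((Ico (N - w) N).filter (fun r => r % 2 = 0)).card : ℤ) := by
  have e : ∀ A : Finset ℕ, ∑ r ∈ A, (if r % 2 = 0 ∧ N - w ≤ r ∧ r < N then (1 : ℤ) else 0) =
      ((A.filter (fun r => r % 2 = 0 ∧ N - w ≤ r ∧ r < N)).card : ℤ) := by
    intro A
    rw [card_filter]
    push_cast
    rfl
  rw [e Y, e Z]
  set S1 := Y.filter (fun r => r % 2 = 0 ∧ N - w ≤ r ∧ r < N) with hS1
  set S2 := (Z.filter (fun r => r % 2 = 0 ∧ N - w ≤ r ∧ r < N)).image (fun r => M - w - r) with hS2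
  have hc : S2.card = (Z.filter (fun r => r % 2 = 0 ∧ N - w ≤ r ∧ r < N)).card := by
    refine card_image_of_injOn ?_
    intro x hx y hy hxy
    rw [mem_coe, mem_filter] at hx hy
    simp only at hxy
    omega
  have hdis : Disjoint S1 S2 := by
    rw [disjoint_left]
    intro x hx hx2
    rw [mem_filter] at hx
    rw [mem_image] at hx2
    obtain ⟨r, hr, hrx⟩ := hx2
    rw [mem_filter] at hr
    exact h.free w hw x hx.1 r hr.1 (by omega)
  have hsub : S1 ∪ S2 ⊆ (Ico (N - w) N).filter (fun r => r % 2 = 0) := by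
    intro x hx
    rw [mem_filter, mem_Ico]
    rcases mem_union.1 hx with hx | hx
    · rw [mem_filter] at hx
      exact ⟨hx.2.2, hx.2.1⟩
    · rw [mem_image] at hx
      obtain ⟨r, hr, hrx⟩ := hx
      rw [mem_filter] at hr
      omega
  have := card_le_card hsub
  rw [card_union_of_disjoint hdis, hc] at this
  exact_mod_cast this

end Pool.Agent.LibA338c1g
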