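import Pool.Agent.Lib_MP_a338c1_g.RegIII1

/-!
# The regime (III2): `N ≤ 10 (N - w)` and `5 (N - w) < N`
-/

open Finset
open scoped Pointwise

namespace Pool.Agent.LibA338c1g

open Pool.Agent.LibA338c1f (Nest T2 U2 Q1)

variable {M : ℕ} {X Y Z : Finset ℕ}

/-! ### Sums of positive parts -/

theorem sum_even_gen (A c : ℤ) (l n : ℕ) (hn : n = 2 * l + 1 ∨ n = 2 * l + 2) :
    ∑ g ∈ Ico 1 n, (if g % 2 = 0 then A - c * (g : ℤ) else 0) = l * A - c * l * (l + 1) := by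
  have key : ∀ l : ℕ, (∑ g ∈ Ico 1 (2 * l + 1), (if g % 2 = 0 then A - c * (g : ℤ) else 0) =
      l * A - c * l * (l + 1)) ∧
      (∑ g ∈ Ico 1 (2 * l + 2), (if g % 2 = 0 then A - c * (g : ℤ) else 0) =
      l * A - c * l * (l + 1)) := by
    intro l
    induction l with
    | zero => simp
    | succ n ih =>
      obtain ⟨i1, i2⟩ := ih
      have a1 : ∑ g ∈ Ico 1 (2 * (n + 1) + 1), (if g % 2 = 0 then A - c * (g : ℤ) else 0) =
          ((n + 1 : ℕ) : ℤ) * A - c * ((n + 1 : ℕ) : ℤ) * (((n + 1 : ℕ) : ℤ) + 1) := by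
        rw [show 2 * (n + 1) + 1 = (2 * n + 2) + 1 by ring, sum_Ico_succ_top (by omega), i2,
          if_pos (by omega)]
        push_cast
        ring
      refine ⟨a1, ?_⟩
      rw [show 2 * (n + 1) + 2 = (2 * (n + 1) + 1) + 1 by ring, sum_Ico_succ_top (by omega), a1,
        if_neg (by omega)]
      ring
  rcases hn with rfl | rfl
  · exact (key l).1
  · exact (key l).2

theorem sum_even_trunc_gen (A c n : ℕ) (hc : 1 ≤ c) :
    4 * (c : ℤ) * ∑ g ∈ Ico 1 n, (if g % 2 = 0 then ((A - c * g : ℕ) : ℤ) else 0) ≤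
      ((A : ℤ) - c) ^ 2 := by
  set n' := min n (A / c + 1) with hn'
  have hdiv : ∀ g, g < A / c + 1 → c * g ≤ A := by
    intro g hg
    calc c * g ≤ c * (A / c) := Nat.mul_le_mul_left c (by omega)
      _ ≤ A := Nat.mul_div_le A c
  have hdiv' : ∀ g, A / c + 1 ≤ g → A ≤ c * g := by
    intro g hg
    have h1 : A < c * (A / c + 1) := Nat.lt_mul_div_succ A hc
    have h2 : c * (A / c + 1) ≤ c * g := Nat.mul_le_mul_left c hg
    omega
  have h1 : ∑ g ∈ Ico 1 n, (if g % 2 = 0 then ((A - c * g : ℕ) : ℤ) else 0) =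
      ∑ g ∈ Ico 1 n', (if g % 2 = 0 then (A : ℤ) - c * g else 0) := by
    have h2 : ∑ g ∈ Ico 1 n', (if g % 2 = 0 then (A : ℤ) - c * g else 0) =
        ∑ g ∈ Ico 1 n', (if g % 2 = 0 then ((A - c * g : ℕ) : ℤ) else 0) := by
      refine sum_congr rfl fun g hg => ?_
      rw [mem_Ico] at hg
      have h3 := hdiv g (by omega)
      rw [Nat.cast_sub h3]
      push_cast
      rfl
    rw [h2]
    symm
    refine sum_subset (fun g hg => ?_) (fun g hg hg' => ?_)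
    · rw [mem_Ico] at hg ⊢; omega
    · rw [mem_Ico] at hg hg'
      have h3 := hdiv' g (by omega)
      have : A - c * g = 0 := by omega
      rw [this]
      simp
  rw [h1]
  rcases Nat.eq_zero_or_pos n' with h0 | h0
  · rw [h0]
    simp
    positivity
  · have hl : n' = 2 * ((n' - 1) / 2) + 1 ∨ n' = 2 * ((n' - 1) / 2) + 2 := by omega
    rw [sum_even_gen (A : ℤ) c _ n' hl]
    generalize (((n' - 1) / 2 : ℕ) : ℤ) = l
    nlinarith [sq_nonneg (2 * (c : ℤ) * l - ((A : ℤ) - c))]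

/-- The positive parts from the even number `g0` on. -/
theorem sum_from (A g0 N : ℕ) (hg0 : g0 % 2 = 0) (hg1 : 1 ≤ g0) :
    48 * ∑ g ∈ Ico 1 N, (if g % 2 = 0 ∧ g0 ≤ g then ((A - 12 * g : ℕ) : ℤ) else 0) ≤
      ((A : ℤ) - 12 * g0 + 12) ^ 2 ∧
    (A ≤ 12 * g0 →
      ∑ g ∈ Ico 1 N, (if g % 2 = 0 ∧ g0 ≤ g then ((A - 12 * g : ℕ) : ℤ) else 0) = 0) := by
  have hz : A ≤ 12 * g0 →
      ∑ g ∈ Ico 1 N, (if g % 2 = 0 ∧ g0 ≤ g then ((A - 12 * g : ℕ) : ℤ) else 0) = 0 := by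
    intro h
    refine sum_eq_zero fun g _ => ?_
    split_ifs with hg
    · have : A - 12 * g = 0 := by omega
      rw [this]; rfl
    · rfl
  refine ⟨?_, hz⟩
  rcases Nat.lt_or_ge (12 * g0) A with hA | hA
  · have h1 : ∑ g ∈ Ico 1 N, (if g % 2 = 0 ∧ g0 ≤ g then ((A - 12 * g : ℕ) : ℤ) else 0) =
        ∑ g ∈ Ico g0 N, (if g % 2 = 0 then ((A - 12 * g : ℕ) : ℤ) else 0) := by
      rw [← sum_filter, ← sum_filter]
      refine sum_congr ?_ fun _ _ => rfl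
      ext g
      rw [mem_filter, mem_filter, mem_Ico, mem_Ico]
      omega
    rw [h1]
    rcases Nat.lt_or_ge g0 N with hN | hN
    · rw [sum_Ico_eq_sum_range, range_eq_Ico, sum_eq_sum_Ico_succ_bot (by omega)]
      have h2 : ∑ k ∈ Ico (0 + 1) (N - g0), (if (g0 + k) % 2 = 0 then
          ((A - 12 * (g0 + k) : ℕ) : ℤ) else 0) =
          ∑ k ∈ Ico 1 (N - g0), (if k % 2 = 0 then (((A - 12 * g0) - 12 * k : ℕ) : ℤ) else 0) := by
        refine sum_congr rfl fun k _ => ?_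
        have e1 : (g0 + k) % 2 = 0 ↔ k % 2 = 0 := by omega
        have e2 : A - 12 * (g0 + k) = A - 12 * g0 - 12 * k := by omega
        simp only [e1, e2]
      rw [h2]
      have h3 := sum_even_trunc_gen (A - 12 * g0) 12 (N - g0) (by norm_num)
      have h4 : ((A - 12 * g0 : ℕ) : ℤ) = A - 12 * g0 := by omega
      rw [if_pos (by omega : (g0 + 0) % 2 = 0), show g0 + 0 = g0 by ring, h4]
      rw [h4] at h3
      push_cast at h3
      nlinarith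
    · rw [Ico_eq_empty (by omega), sum_empty]
      positivity
  · rw [hz hA]
    positivity

/-- Odd positions from `w` on, general linear function. -/
theorem sum_odd_gen (α β : ℤ) (w l : ℕ) (hw : w % 2 = 1) :
    (∑ g ∈ Ico w (w + 2 * l), (if g % 2 = 1 then α - β * (g : ℤ) else 0) =
      l * α - β * (l * w + l * (l - 1))) ∧
    (∑ g ∈ Ico w (w + 2 * l + 1), (if g % 2 = 1 then α - β * (g : ℤ) else 0) =
      (l + 1) * α - β * ((l + 1) * w + (l + 1) * l)) := by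
  induction l with
  | zero =>
    constructor
    · simp
    · rw [sum_Ico_succ_top (by omega)]
      simp [hw]
  | succ n ih =>
    obtain ⟨i1, i2⟩ := ih
    have a1 : ∑ g ∈ Ico w (w + 2 * (n + 1)), (if g % 2 = 1 then α - β * (g : ℤ) else 0) =
        ((n + 1 : ℕ) : ℤ) * α - β * (((n + 1 : ℕ) : ℤ) * w +
          ((n + 1 : ℕ) : ℤ) * (((n + 1 : ℕ) : ℤ) - 1)) := by
      rw [show w + 2 * (n + 1) = (w + 2 * n + 1) + 1 by ring, sum_Ico_succ_top (by omega), i2,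
        if_neg (by omega)]
      push_cast
      ring
    refine ⟨a1, ?_⟩
    rw [sum_Ico_succ_top (by omega), a1, if_pos (by omega)]
    push_cast
    ring

theorem E3_gen {N w : ℕ} (hwN : w < N) (hwodd : w % 2 = 1) (α β : ℤ) :
    ∑ g ∈ Ico 1 N, (if g % 2 = 1 ∧ w ≤ g then α - β * (g : ℤ) else 0) =
      if (N - w) % 2 = 0 then ((N - w) / 2 : ℕ) * α - β * (((N - w) / 2 : ℕ) * w +
        ((N - w) / 2 : ℕ) * (((N - w) / 2 : ℕ) - 1)) else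
      (((N - w) / 2 : ℕ) + 1) * α - β * ((((N - w) / 2 : ℕ) + 1) * w +
        (((N - w) / 2 : ℕ) + 1) * ((N - w) / 2 : ℕ)) := by
  have h1 : ∑ g ∈ Ico 1 N, (if g % 2 = 1 ∧ w ≤ g then α - β * (g : ℤ) else 0) =
      ∑ g ∈ Ico w N, (if g % 2 = 1 then α - β * (g : ℤ) else 0) := by
    rw [← sum_filter, ← sum_filter]
    refine sum_congr ?_ fun _ _ => rfl
    ext g
    rw [mem_filter, mem_filter, mem_Ico, mem_Ico]
    omega
  rw [h1]
  have hs := sum_odd_gen α β w ((N - w) / 2) hwodd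
  rcases Nat.mod_two_eq_zero_or_one (N - w) with hL | hL
  · rw [if_pos hL]
    have e : w + 2 * ((N - w) / 2) = N := by omega
    rw [e] at hs
    exact hs.1
  · rw [if_neg (by omega)]
    have e : w + 2 * ((N - w) / 2) + 1 = N := by omega
    rw [e] at hs
    exact hs.2

/-! ### The windows -/

theorem sum_lowp (A : Finset ℕ) (w : ℕ) (F : ℕ → ℤ) :
    ∑ r ∈ lowp A w, F r = ∑ r ∈ A, (if r < w then F r else 0) := by
  unfold lowp
  rw [sum_filter]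

theorem sum_t2 (a n : ℕ) : 2 * ∑ t ∈ Ico a (a + n), ((t : ℤ) + 2) = 2 * n * a + n * (n - 1) + 4 * n := by
  induction n with
  | zero => simp
  | succ n ih =>
    rw [show a + (n + 1) = a + n + 1 by ring, sum_Ico_succ_top (by omega), mul_add, ih]
    push_cast
    ring

/-- The low windows. -/
theorem lo_win (h : Nest M X Y Z) (w : ℕ) :
    2 * (∑ r ∈ Y, ((w - (2 * r - 1) : ℕ) : ℤ) + ∑ r ∈ Z, ((w - 2 * r : ℕ) : ℤ) +
      ∑ r ∈ X, ((w - (M - r) : ℕ) : ℤ)) ≤ w * (w - 1) + 4 * w := by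
  obtain ⟨h0X, h0Y, h0Z⟩ := nest_zero h
  have hXlt := nest_lt h
  have h1 : ∀ t ∈ Ico 0 (0 + w), thr Y (fun r => 2 * r - 1) t + thr Z (fun r => 2 * r) t +
      thr X (fun r => M - r) t ≤ (t : ℤ) + 2 := by
    intro t _
    have a1 := superadd h0Y h0Z (a := (t + 1) / 2) (b := t / 2) (t := t) (by omega)
    have a2 := pair_count (fun r hr => (hXlt r hr).le) (fun p hp q hq r hr => by
      have := h.free r hr p hp q hq; omega) t (P := Y) (Q := Z) (R := X) (M := M)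
    rw [ct_half', ct_half] at a1
    linarith
  have h2 := sum_le_sum h1
  rw [sum_add_distrib, sum_add_distrib, sum_thr, sum_thr, sum_thr] at h2
  have h3 := sum_t2 0 w
  simp only [Nat.zero_max, zero_add] at h2 h3
  push_cast at h3
  linarith

/-- The middle windows. -/
theorem mid_win {w : ℕ} {Q R : Finset ℕ} (h0 : 0 ∈ Q) (hQX : Q ⊆ X) (hR : ∀ r ∈ R, r < M)
    (hw : w ∈ X) (hw0 : 0 < w) (hwodd : w % 2 = 1) (hev : ∀ x ∈ X, x < w → x % 2 = 0)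
    (hfree : ∀ p ∈ X, ∀ q ∈ Q, ∀ r ∈ R, p + q + r ≠ M) :
    2 * (∑ r ∈ X, (if r < w then ((2 * w - max w (2 * r - 1) : ℕ) : ℤ) else 0) +
      ∑ r ∈ Q, (if r < w then ((2 * w - max w (2 * r) : ℕ) : ℤ) else 0) +
      ∑ r ∈ Q, ((2 * w - max w (r + w) : ℕ) : ℤ) +
      ∑ r ∈ R, ((2 * w - max w (M - r) : ℕ) : ℤ)) ≤ 2 * w * w + w * (w - 1) + 4 * w := by
  have h1 : ∀ t ∈ Ico w (w + w), thr (lowp X w) (fun r => 2 * r - 1) t +
      thr (lowp Q w) (fun r => 2 * r) t + thr Q (fun r => r + w) t +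
      thr R (fun r => M - r) t ≤ (t : ℤ) + 2 := by
    intro t ht
    rw [mem_Ico] at ht
    have a1 := mid h0 hQX hw hw0 (d := 2) (fun x hx hxw => by have := hev x hx hxw; omega)
      (by omega) (a := (t + 1) / 2) (b := t / 2) (t := t) (by omega) ht.1 (by omega)
    have a2 := pair_count (fun r hr => (hR r hr).le) hfree t
    rw [ct_half', ct_half, ct_sub _ ht.1] at a1
    linarith
  have h2 := sum_le_sum h1
  rw [sum_add_distrib, sum_add_distrib, sum_add_distrib, sum_thr, sum_thr, sum_thr, sum_thr,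
    sum_lowp, sum_lowp] at h2
  have h3 := sum_t2 w w
  rw [show w + w = 2 * w by ring] at h2 h3
  linarith

/-- Coefficients of `X`. -/
def cX2 (M w r : ℕ) : ℤ :=
  8 * ((w - (M - r) : ℕ) : ℤ) + (if r < w then 8 * ((2 * w - max w (2 * r - 1) : ℕ) : ℤ) else 0)

/-- The common coefficients of `Y` and `Z`. -/
def cQ2 (M N w r : ℕ) : ℤ :=
  (if r < w then 4 * ((2 * w - max w (2 * r) : ℕ) : ℤ) else 0) +
    4 * ((2 * w - max w (r + w) : ℕ) : ℤ) + 4 * ((2 * w - max w (M - r) : ℕ) : ℤ) +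
    (20 * ((N - w : ℕ) : ℤ) - 14) * (if r % 2 = 0 ∧ N - w ≤ r ∧ r < N then (1 : ℤ) else 0)

/-- The combined inequality. -/
theorem III2_main (h : Nest M X Y Z) {N w : ℕ} (hM : M + 1 = 2 * N) (hw : w ∈ X) (hwN : w < N)
    (hwodd : w % 2 = 1) (hev : ∀ x ∈ X, x < w → x % 2 = 0) :
    ∑ r ∈ X, cX2 M w r + ∑ r ∈ Y, (8 * ((w - (2 * r - 1) : ℕ) : ℤ) + cQ2 M N w r) +
      ∑ r ∈ Z, (8 * ((w - 2 * r : ℕ) : ℤ) + cQ2 M N w r) ≤
      16 * w * w + 24 * w + (20 * ((N - w : ℕ) : ℤ) - 14) *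
        (((Ico (N - w) N).filter (fun r => r % 2 = 0)).card : ℤ) := by
  obtain ⟨h0X, h0Y, h0Z⟩ := nest_zero h
  have hXlt := nest_lt h
  have hYlt : ∀ r ∈ Y, r < M := fun r hr => hXlt r (h.YX hr)
  have hZlt : ∀ r ∈ Z, r < M := fun r hr => hYlt r (h.ZY hr)
  have s1 := lo_win h w
  have s2 := mid_win h0Y h.YX hZlt hw (by omega) hwodd hev
    (fun p hp q hq r hr => h.free p hp q hq r hr)
  have s3 := mid_win h0Z (h.ZY.trans h.YX) hYlt hw (by omega) hwodd hev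
    (fun p hp q hq r hr => by have := h.free p hp r hr q hq; omega)
  have s4 := pair_w h hM hw hwN hwodd
  have hL : (1 : ℤ) ≤ ((N - w : ℕ) : ℤ) := by omega
  have s5 := mul_le_mul_of_nonneg_left s4 (show (0 : ℤ) ≤ 20 * ((N - w : ℕ) : ℤ) - 14 by linarith)
  have c1 : ∑ r ∈ X, cX2 M w r = 8 * ∑ r ∈ X, ((w - (M - r) : ℕ) : ℤ) +
      8 * ∑ r ∈ X, (if r < w then ((2 * w - max w (2 * r - 1) : ℕ) : ℤ) else 0) := by
    unfold cX2
    rw [mul_sum, mul_sum, ← sum_add_distrib]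
    refine sum_congr rfl fun r _ => ?_
    split_ifs <;> ring
  have c2 : ∀ A : Finset ℕ, ∑ r ∈ A, cQ2 M N w r =
      4 * ∑ r ∈ A, (if r < w then ((2 * w - max w (2 * r) : ℕ) : ℤ) else 0) +
      4 * ∑ r ∈ A, ((2 * w - max w (r + w) : ℕ) : ℤ) +
      4 * ∑ r ∈ A, ((2 * w - max w (M - r) : ℕ) : ℤ) +
      (20 * ((N - w : ℕ) : ℤ) - 14) *
        ∑ r ∈ A, (if r % 2 = 0 ∧ N - w ≤ r ∧ r < N then (1 : ℤ) else 0) := by
    intro A
    unfold cQ2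
    rw [sum_add_distrib, sum_add_distrib, sum_add_distrib, mul_sum, mul_sum, mul_sum, mul_sum]
    congr 3
    refine sum_congr rfl fun r _ => ?_
    split_ifs <;> ring
  rw [sum_add_distrib, sum_add_distrib, c1, c2, c2, ← mul_sum, ← mul_sum]
  linarith

/-- The comparison at one position. -/
theorem III2_pos {N w g g0 A1 A2 A3 : ℕ} (hM : M + 1 = 2 * N) (hN : 15 ≤ N)
    (hwN : w < N) (hwodd : w % 2 = 1) (hL1 : N ≤ 10 * (N - w)) (hL2 : 5 * (N - w) < N)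
    (hg1 : 1 ≤ g) (hgN : g < N) (hA1 : 6 * N + 16 ≤ A1 + 32 * (N - w)) (hA2 : 3 * N ≤ A2 + 4)
    (hA3 : 3 * N ≤ A3 + 8 * (N - w))
    (hg0 : ((N - w) % 2 = 0 ∧ g0 = N - w) ∨ ((N - w) % 2 = 1 ∧ g0 = N - w + 1))
    (x y z x' y' z' : ℤ)
    (hst : (x = 1 ∧ y = 1 ∧ z = 1 ∧ x' = 0 ∧ y' = 0 ∧ z' = 0) ∨
      (x = 0 ∧ y = 0 ∧ z = 0 ∧ x' = 1 ∧ y' = 1 ∧ z' = 1) ∨
      (x = 1 ∧ y = 1 ∧ z = 0 ∧ x' = 0 ∧ y' = 0 ∧ z' = 0) ∨
      (x = 0 ∧ y = 0 ∧ z = 0 ∧ x' = 1 ∧ y' = 1 ∧ z' = 0) ∨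
      (x = 1 ∧ y = 0 ∧ z = 0 ∧ x' = 1 ∧ y' = 0 ∧ z' = 0) ∨
      (x = 1 ∧ y = 0 ∧ z = 0 ∧ x' = 0 ∧ y' = 0 ∧ z' = 0) ∨
      (x = 0 ∧ y = 0 ∧ z = 0 ∧ x' = 1 ∧ y' = 0 ∧ z' = 0) ∨
      (x = 0 ∧ y = 0 ∧ z = 0 ∧ x' = 0 ∧ y' = 0 ∧ z' = 0))
    (hX : g % 2 = 1 → g < w → x = 0) :
    4 * ((x + y + z) * ((M : ℤ) - g) + (x' + y' + z') * g) ≤
      (x * cX2 M w g + y * (8 * ((w - (2 * g - 1) : ℕ) : ℤ) + cQ2 M N w g) +
        z * (8 * ((w - 2 * g : ℕ) : ℤ) + cQ2 M N w g) +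
        x' * cX2 M w (M - g) +
        y' * (8 * ((w - (2 * (M - g) - 1) : ℕ) : ℤ) + cQ2 M N w (M - g)) +
        z' * (8 * ((w - 2 * (M - g) : ℕ) : ℤ) + cQ2 M N w (M - g))) +
      5 * N * (3 - (x + y + z + x' + y' + z')) + (20 * (g : ℤ) - 16 * w) +
      4 * (if g % 2 = 0 ∧ g < N - w then (6 * ((N - w : ℕ) : ℤ) - 5) + 2 * (g : ℤ) else 0) +
      (if g % 2 = 0 then ((A1 - 32 * g : ℕ) : ℤ) else 0) +
      (if g % 2 = 0 ∧ g0 ≤ g then ((A2 - 12 * g : ℕ) : ℤ) else 0) +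
      (if g % 2 = 0 ∧ g0 ≤ g then ((A3 - 12 * g : ℕ) : ℤ) else 0) +
      (if g % 2 = 1 ∧ w ≤ g then (40 * (N : ℤ) - 20) - 40 * (g : ℤ) else 0) := by
  have hMz : (M : ℤ) = 2 * N - 1 := by omega
  have q2 : (if (M - g) % 2 = 0 ∧ N - w ≤ M - g ∧ M - g < N then (1 : ℤ) else 0) = 0 :=
    if_neg (by omega)
  have hLz : ((N - w : ℕ) : ℤ) = N - w := by omega
  have b1 : (5 : ℤ) * (N - w) + 1 ≤ N := by omega
  have b2 : (N : ℤ) ≤ 10 * (N - w) := by omega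
  have b3 : (g : ℤ) + 1 ≤ N := by exact_mod_cast hgN
  have b4 : (1 : ℤ) ≤ g := by exact_mod_cast hg1
  have b5 : (w : ℤ) + 1 ≤ N := by exact_mod_cast hwN
  have b6 : (15 : ℤ) ≤ N := by exact_mod_cast hN
  have e1 : (A1 : ℤ) - 32 * g ≤ ((A1 - 32 * g : ℕ) : ℤ) := by omega
  have e1' : (0 : ℤ) ≤ ((A1 - 32 * g : ℕ) : ℤ) := Int.natCast_nonneg _
  have e2 : (A2 : ℤ) - 12 * g ≤ ((A2 - 12 * g : ℕ) : ℤ) := by omega
  have e2' : (0 : ℤ) ≤ ((A2 - 12 * g : ℕ) : ℤ) := Int.natCast_nonneg _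
  have e3 : (A3 : ℤ) - 12 * g ≤ ((A3 - 12 * g : ℕ) : ℤ) := by omega
  have e3' : (0 : ℤ) ≤ ((A3 - 12 * g : ℕ) : ℤ) := Int.natCast_nonneg _
  have hA1z : (6 : ℤ) * N + 16 ≤ A1 + 32 * (N - w) := by omega
  have hA2z : (3 : ℤ) * N ≤ A2 + 4 := by omega
  have hA3z : (3 : ℤ) * N ≤ A3 + 8 * (N - w) := by omega
  have t1 : ((w - (M - g) : ℕ) : ℤ) = 0 := by omega
  have t7 : (2 : ℤ) * w - (2 * N - 1 - g) ≤ ((2 * w - max w (M - g) : ℕ) : ℤ) := by omega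
  have t7' : (0 : ℤ) ≤ ((2 * w - max w (M - g) : ℕ) : ℤ) := Int.natCast_nonneg _
  have h1 : M - (M - g) = g := by omega
  have h2 : ((w - (2 * (M - g) - 1) : ℕ) : ℤ) = 0 := by omega
  have h3 : ((2 * w - max w (M - g + w) : ℕ) : ℤ) = 0 := by omega
  have h4 : ((w - 2 * (M - g) : ℕ) : ℤ) = 0 := by omega
  unfold cX2 cQ2
  rw [q2, if_neg (by omega : ¬ M - g < w), if_neg (by omega : ¬ M - g < w), h1, h2, h3, h4, t1,
    hLz, hMz]
  generalize ((A1 - 32 * g : ℕ) : ℤ) = E1 at *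
  generalize ((A2 - 12 * g : ℕ) : ℤ) = E2 at *
  generalize ((A3 - 12 * g : ℕ) : ℤ) = E3 at *
  generalize ((2 * w - max w (M - g) : ℕ) : ℤ) = T7 at *
  rcases Nat.mod_two_eq_zero_or_one g with hp | hp
  · rw [if_pos hp, if_neg (by omega : ¬ (g % 2 = 1 ∧ w ≤ g))]
    by_cases hgL : g < N - w
    · have b7 : (g : ℤ) + 1 ≤ N - w := by omega
      have t2 : ((2 * w - max w (2 * g - 1) : ℕ) : ℤ) = w := by omega
      have t3 : ((w - (2 * g - 1) : ℕ) : ℤ) = w - 2 * g + 1 := by omega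
      have t4 : ((w - 2 * g : ℕ) : ℤ) = w - 2 * g := by omega
      have t5 : ((2 * w - max w (2 * g) : ℕ) : ℤ) = w := by omega
      have t6 : ((2 * w - max w (g + w) : ℕ) : ℤ) = w - g := by omega
      have h5 : ((w - g : ℕ) : ℤ) = w - g := by omega
      have h6 : ((2 * w - max w g : ℕ) : ℤ) = w := by omega
      rw [if_neg (by omega : ¬ (g % 2 = 0 ∧ N - w ≤ g ∧ g < N)), if_pos (⟨hp, hgL⟩ : g % 2 = 0 ∧ g < N - w),
        if_neg (by omega : ¬ (g % 2 = 0 ∧ g0 ≤ g)), if_neg (by omega : ¬ (g % 2 = 0 ∧ g0 ≤ g)),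
        if_pos (by omega : g < w), if_pos (by omega : g < w), t2, t3, t4, t5, t6, h5, h6]
      clear hX t2 t3 t4 t5 t6 h5 h6 t1 h1 h2 h3 h4 q2
      rcases hst with ⟨a1, a2, a3, a4, a5, a6⟩ | ⟨a1, a2, a3, a4, a5, a6⟩ |
          ⟨a1, a2, a3, a4, a5, a6⟩ | ⟨a1, a2, a3, a4, a5, a6⟩ | ⟨a1, a2, a3, a4, a5, a6⟩ |
          ⟨a1, a2, a3, a4, a5, a6⟩ | ⟨a1, a2, a3, a4, a5, a6⟩ | ⟨a1, a2, a3, a4, a5, a6⟩ <;>
          rw [a1, a2, a3, a4, a5, a6] <;> linarith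
    · have b7 : (N : ℤ) - w ≤ g := by omega
      rw [if_pos (by omega : (g % 2 = 0 ∧ N - w ≤ g ∧ g < N)),
          if_neg (by omega : ¬ (g % 2 = 0 ∧ g < N - w)),
          if_pos (by omega : (g % 2 = 0 ∧ g0 ≤ g)), if_pos (by omega : (g % 2 = 0 ∧ g0 ≤ g))]
      by_cases hgw : g < w
      · have b8 : (g : ℤ) + 1 ≤ w := by omega
        have t6 : ((2 * w - max w (g + w) : ℕ) : ℤ) = w - g := by omega
        have h5 : ((w - g : ℕ) : ℤ) = w - g := by omega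
        have h6 : ((2 * w - max w g : ℕ) : ℤ) = w := by omega
        rw [if_pos hgw, if_pos hgw, t6, h5, h6]
        by_cases h2g : 2 * g ≤ w
        · have b9 : (2 : ℤ) * g + 1 ≤ w := by omega
          have t2 : ((2 * w - max w (2 * g - 1) : ℕ) : ℤ) = w := by omega
          have t3 : ((w - (2 * g - 1) : ℕ) : ℤ) = w - 2 * g + 1 := by omega
          have t4 : ((w - 2 * g : ℕ) : ℤ) = w - 2 * g := by omega
          have t5 : ((2 * w - max w (2 * g) : ℕ) : ℤ) = w := by omega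
          rw [t2, t3, t4, t5]
          clear hX t2 t3 t4 t5 t6 h5 h6 t1 h1 h2 h3 h4 q2
          rcases hst with ⟨a1, a2, a3, a4, a5, a6⟩ | ⟨a1, a2, a3, a4, a5, a6⟩ |
            ⟨a1, a2, a3, a4, a5, a6⟩ | ⟨a1, a2, a3, a4, a5, a6⟩ | ⟨a1, a2, a3, a4, a5, a6⟩ |
            ⟨a1, a2, a3, a4, a5, a6⟩ | ⟨a1, a2, a3, a4, a5, a6⟩ | ⟨a1, a2, a3, a4, a5, a6⟩ <;>
            rw [a1, a2, a3, a4, a5, a6] <;> linarith
        · have b9 : (w : ℤ) + 1 ≤ 2 * g := by omega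
          have t2 : ((2 * w - max w (2 * g - 1) : ℕ) : ℤ) = 2 * w - 2 * g + 1 := by omega
          have t3 : ((w - (2 * g - 1) : ℕ) : ℤ) = 0 := by omega
          have t4 : ((w - 2 * g : ℕ) : ℤ) = 0 := by omega
          have t5 : ((2 * w - max w (2 * g) : ℕ) : ℤ) = 2 * w - 2 * g := by omega
          rw [t2, t3, t4, t5]
          clear hX t2 t3 t4 t5 t6 h5 h6 t1 h1 h2 h3 h4 q2
          rcases hst with ⟨a1, a2, a3, a4, a5, a6⟩ | ⟨a1, a2, a3, a4, a5, a6⟩ |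
            ⟨a1, a2, a3, a4, a5, a6⟩ | ⟨a1, a2, a3, a4, a5, a6⟩ | ⟨a1, a2, a3, a4, a5, a6⟩ |
            ⟨a1, a2, a3, a4, a5, a6⟩ | ⟨a1, a2, a3, a4, a5, a6⟩ | ⟨a1, a2, a3, a4, a5, a6⟩ <;>
            rw [a1, a2, a3, a4, a5, a6] <;> linarith
      · have b8 : (w : ℤ) + 1 ≤ g := by omega
        have t3 : ((w - (2 * g - 1) : ℕ) : ℤ) = 0 := by omega
        have t4 : ((w - 2 * g : ℕ) : ℤ) = 0 := by omega
        have t6 : ((2 * w - max w (g + w) : ℕ) : ℤ) = 0 := by omega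
        have h5 : ((w - g : ℕ) : ℤ) = 0 := by omega
        have h6 : ((2 * w - max w g : ℕ) : ℤ) = 2 * w - g := by omega
        rw [if_neg hgw, if_neg hgw, t3, t4, t6, h5, h6]
        clear hX t3 t4 t6 h5 h6 t1 h1 h2 h3 h4 q2
        rcases hst with ⟨a1, a2, a3, a4, a5, a6⟩ | ⟨a1, a2, a3, a4, a5, a6⟩ |
          ⟨a1, a2, a3, a4, a5, a6⟩ | ⟨a1, a2, a3, a4, a5, a6⟩ | ⟨a1, a2, a3, a4, a5, a6⟩ |
          ⟨a1, a2, a3, a4, a5, a6⟩ | ⟨a1, a2, a3, a4, a5, a6⟩ | ⟨a1, a2, a3, a4, a5, a6⟩ <;>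
          rw [a1, a2, a3, a4, a5, a6] <;> linarith
  · rw [if_neg (by omega : ¬ g % 2 = 0),
      if_neg (by omega : ¬ (g % 2 = 0 ∧ N - w ≤ g ∧ g < N)),
      if_neg (by omega : ¬ (g % 2 = 0 ∧ g < N - w)),
      if_neg (by omega : ¬ (g % 2 = 0 ∧ g0 ≤ g)), if_neg (by omega : ¬ (g % 2 = 0 ∧ g0 ≤ g))]
    by_cases hwg : w ≤ g
    · have b8 : (w : ℤ) ≤ g := by omega
      have t3 : ((w - (2 * g - 1) : ℕ) : ℤ) = 0 := by omega
      have t4 : ((w - 2 * g : ℕ) : ℤ) = 0 := by omega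
      have t6 : ((2 * w - max w (g + w) : ℕ) : ℤ) = 0 := by omega
      have h5 : ((w - g : ℕ) : ℤ) = 0 := by omega
      have h6 : ((2 * w - max w g : ℕ) : ℤ) = 2 * w - g := by omega
      rw [if_pos (⟨hp, hwg⟩ : g % 2 = 1 ∧ w ≤ g), if_neg (by omega : ¬ g < w), if_neg (by omega : ¬ g < w), t3, t4, t6,
        h5, h6]
      clear hX t3 t4 t6 h5 h6 t1 h1 h2 h3 h4 q2
      rcases hst with ⟨a1, a2, a3, a4, a5, a6⟩ | ⟨a1, a2, a3, a4, a5, a6⟩ |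
          ⟨a1, a2, a3, a4, a5, a6⟩ | ⟨a1, a2, a3, a4, a5, a6⟩ | ⟨a1, a2, a3, a4, a5, a6⟩ |
          ⟨a1, a2, a3, a4, a5, a6⟩ | ⟨a1, a2, a3, a4, a5, a6⟩ | ⟨a1, a2, a3, a4, a5, a6⟩ <;>
          rw [a1, a2, a3, a4, a5, a6] <;> linarith
    · have b8 : (g : ℤ) + 1 ≤ w := by omega
      have h5 : ((w - g : ℕ) : ℤ) = w - g := by omega
      have h6 : ((2 * w - max w g : ℕ) : ℤ) = w := by omega
      have hx := hX hp (by omega)
      rw [if_neg (by omega : ¬ (g % 2 = 1 ∧ w ≤ g)), h5, h6]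
      clear hX h5 h6 t1 h1 h2 h3 h4 q2
      rcases hst with ⟨a1, a2, a3, a4, a5, a6⟩ | ⟨a1, a2, a3, a4, a5, a6⟩ |
          ⟨a1, a2, a3, a4, a5, a6⟩ | ⟨a1, a2, a3, a4, a5, a6⟩ | ⟨a1, a2, a3, a4, a5, a6⟩ |
          ⟨a1, a2, a3, a4, a5, a6⟩ | ⟨a1, a2, a3, a4, a5, a6⟩ | ⟨a1, a2, a3, a4, a5, a6⟩ <;>
          rw [a1, a2, a3, a4, a5, a6] <;> first | (exfalso; linarith) | linarith

end Pool.Agent.LibA338c1g
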