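import Pool.Agent.Lib_MP_a338c1_g.RegI

/-!
# The generic far regime: values of the coefficients and states
-/

open Finset
open scoped Pointwise

namespace Pool.Agent.LibA338c1g

open Pool.Agent.LibA338c1f (Nest T2 U2 Q1)

/-- The values below `w`. -/
theorem val_lo {M N w e g : ℕ} (hM : M + e = 2 * N) (he : e ≤ 1) (hw : w < N) (g1 : 1 ≤ g)
    (hgw : g < w) :
    kX M N w e g = 4 * ((M : ℤ) - g) - 6 * ((2 * w - max w (2 * g - 1) : ℕ) : ℤ) -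
      12 * ((N : ℤ) - w) + 6 * e ∧
    kY M N w e g = 4 * ((M : ℤ) - g) - 4 * ((w - (2 * g - 1) : ℕ) : ℤ) -
      3 * ((2 * w - max w (2 * g) : ℕ) : ℤ) - 3 * ((w : ℤ) - g) - 8 * ((N : ℤ) - w) -
      3 * ((2 * w - (M - g) : ℕ) : ℤ) - 2 * ((2 * N - max (2 * w) (M - g) : ℕ) : ℤ) + 6 * e ∧
    kZ M N w e g = 4 * ((M : ℤ) - g) - 4 * ((w - 2 * g : ℕ) : ℤ) -
      3 * ((2 * w - max w (2 * g) : ℕ) : ℤ) - 3 * ((w : ℤ) - g) - 16 * ((N : ℤ) - w) -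
      3 * ((2 * w - (M - g) : ℕ) : ℤ) - 4 * ((2 * N - max (2 * w) (M - g) : ℕ) : ℤ) + 6 * e ∧
    kX M N w e (M - g) = 4 * g - 4 * ((w : ℤ) - g) ∧
    kY M N w e (M - g) = 4 * g - 3 * (w : ℤ) - 4 * ((N : ℤ) - w) ∧
    kZ M N w e (M - g) = 4 * g - 3 * (w : ℤ) - 8 * ((N : ℤ) - w) := by
  have h1 : ¬ M - g < w := by omega
  have h2 : ¬ M - g < N := by omega
  have h3 : g < N := by omega
  refine ⟨?_, ?_, ?_, ?_, ?_, ?_⟩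
  · unfold kX; rw [if_pos hgw, if_pos h3]; omega
  · unfold kY; rw [if_pos hgw, if_pos h3]; omega
  · unfold kZ; rw [if_pos hgw, if_pos h3]; omega
  · unfold kX; rw [if_neg h1, if_neg h2]; omega
  · unfold kY; rw [if_neg h1, if_neg h2]; omega
  · unfold kZ; rw [if_neg h1, if_neg h2]; omega

/-- The values from `w` on. -/
theorem val_hi {M N w e g : ℕ} (hM : M + e = 2 * N) (he : e ≤ 1) (hw : w < N) (g1 : 1 ≤ g)
    (hgw : w ≤ g) (hgN : g < N) (hw1 : 1 ≤ w) :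
    kX M N w e g = 4 * ((M : ℤ) - g) - 12 * ((N : ℤ) - g) + 6 * e ∧
    kY M N w e g = 4 * ((M : ℤ) - g) - 4 * ((w - (2 * g - 1) : ℕ) : ℤ) - 8 * ((N : ℤ) - g) -
      3 * ((2 * w - (M - g) : ℕ) : ℤ) - 2 * ((2 * N - max (2 * w) (M - g) : ℕ) : ℤ) + 6 * e ∧
    kZ M N w e g = 4 * ((M : ℤ) - g) - 16 * ((N : ℤ) - g) -
      3 * ((2 * w - (M - g) : ℕ) : ℤ) - 4 * ((2 * N - max (2 * w) (M - g) : ℕ) : ℤ) + 6 * e ∧
    kX M N w e (M - g) = 4 * g ∧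
    kY M N w e (M - g) = 4 * g - 3 * ((2 * w - g : ℕ) : ℤ) -
      2 * ((2 * N - max (2 * w) g : ℕ) : ℤ) ∧
    kZ M N w e (M - g) = 4 * g - 3 * ((2 * w - g : ℕ) : ℤ) -
      4 * ((2 * N - max (2 * w) g : ℕ) : ℤ) := by
  have h1 : ¬ M - g < w := by omega
  have h2 : ¬ M - g < N := by omega
  have h4 : ¬ g < w := by omega
  refine ⟨?_, ?_, ?_, ?_, ?_, ?_⟩
  · unfold kX; rw [if_neg h4, if_pos hgN]; omega
  · unfold kY; rw [if_neg h4, if_pos hgN]; omega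
  · unfold kZ; rw [if_neg h4, if_pos hgN]; omega
  · unfold kX; rw [if_neg h1, if_neg h2]; omega
  · unfold kY; rw [if_neg h1, if_neg h2]; omega
  · unfold kZ; rw [if_neg h1, if_neg h2]; omega

/-- The values at the ends. -/
theorem val_end {M N w e : ℕ} (hM : M + e = 2 * N) (he : e ≤ 1) (hw : w < N) (hw1 : 1 ≤ w) :
    kX M N w e 0 + kY M N w e 0 + kZ M N w e 0 = -12 * (N : ℤ) + 10 * w ∧
    (e = 0 → kX M N w e N = 4 * (N : ℤ)) := by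
  constructor
  · unfold kX kY kZ
    rw [if_pos (by omega : 0 < w), if_pos (by omega : 0 < w),
      if_pos (by omega : 0 < N)]
    omega
  · intro h0
    subst h0
    unfold kX
    rw [if_neg (by omega : ¬ N < w), if_neg (by omega : ¬ N < N)]
    omega


/-- The values below `w`, by cases. -/
theorem val_lo' {M N w e g : ℕ} (hM : M + e = 2 * N) (he : e ≤ 1) (hw : w < N) (g1 : 1 ≤ g)
    (hgw : g < w) : ∃ x y z u v : ℤ,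
    kX M N w e g = 4 * ((M : ℤ) - g) - x - 12 * ((N : ℤ) - w) + 6 * e ∧
    kY M N w e g = 4 * ((M : ℤ) - g) - y - 3 * ((w : ℤ) - g) - 8 * ((N : ℤ) - w) -
      3 * u - 2 * v + 6 * e ∧
    kZ M N w e g = 4 * ((M : ℤ) - g) - z - 3 * ((w : ℤ) - g) - 16 * ((N : ℤ) - w) -
      3 * u - 4 * v + 6 * e ∧
    ((2 * (g : ℤ) ≤ w ∧ x = 6 * w ∧ y = 7 * w - 8 * g + 4 ∧ z = 7 * w - 8 * g) ∨
      ((w : ℤ) + 1 ≤ 2 * g ∧ x = 12 * w - 12 * g + 6 ∧ y = 6 * w - 6 * g ∧ z = 6 * w - 6 * g)) ∧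
    ((2 * (w : ℤ) ≤ M - g ∧ u = 0 ∧ v = g + e) ∨
      ((M : ℤ) - g + 1 ≤ 2 * w ∧ u = 2 * w - M + g ∧ v = 2 * N - 2 * w)) := by
  obtain ⟨h1, h2, h3, h4, h5, h6⟩ := val_lo hM he hw g1 hgw
  refine ⟨6 * ((2 * w - max w (2 * g - 1) : ℕ) : ℤ), 4 * ((w - (2 * g - 1) : ℕ) : ℤ) +
      3 * ((2 * w - max w (2 * g) : ℕ) : ℤ), 4 * ((w - 2 * g : ℕ) : ℤ) +
      3 * ((2 * w - max w (2 * g) : ℕ) : ℤ), ((2 * w - (M - g) : ℕ) : ℤ),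
      ((2 * N - max (2 * w) (M - g) : ℕ) : ℤ), ?_, ?_, ?_, ?_, ?_⟩
  · rw [h1]
  · rw [h2]; ring
  · rw [h3]; ring
  · clear h1 h2 h3 h4 h5 h6
    rcases Nat.lt_or_ge w (2 * g) with hc | hc
    · right
      refine ⟨by omega, by omega, by omega, by omega⟩
    · left
      refine ⟨by omega, by omega, by omega, by omega⟩
  · clear h1 h2 h3 h4 h5 h6
    rcases Nat.lt_or_ge (M - g) (2 * w) with hc | hc
    · right
      refine ⟨by omega, by omega, by omega⟩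
    · left
      refine ⟨by omega, by omega, by omega⟩

/-- The states below `w`: regime (I-b). -/
theorem st_lo_b {M N w e g : ℕ} (hM : M + e = 2 * N) (he : e ≤ 1) (hw : w < N) (g1 : 1 ≤ g)
    (hgw : g < w) (hN : 15 ≤ N) (hw5 : N ≤ 5 * w) {μ E B : ℤ} (hμ1 : 8 * (N : ℤ) - 5 * w ≤ μ)
    (hμ2 : 4 * (N : ℤ) ≤ μ) (hE0 : 0 ≤ E) (hE1 : 4 * (w : ℤ) - 6 - 4 * g ≤ E)
    (hE2 : 8 * (w : ℤ) - 4 - 12 * g ≤ E)
    (hB : B = 16 * (g : ℤ) + 2 * w - 12 * N) :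
    kX M N w e g ≤ B + E + 2 * μ ∧ kX M N w e g + kX M N w e (M - g) ≤ B + E + μ ∧
      kX M N w e g + kY M N w e g ≤ B + E + μ ∧
      kX M N w e g + kY M N w e g + kZ M N w e g ≤ B + E := by
  obtain ⟨_, _, _, h4, h5, h6⟩ := val_lo hM he hw g1 hgw
  obtain ⟨x, y, z, u, v, hx, hy, hz, hc1, hc2⟩ := val_lo' hM he hw g1 hgw
  rw [hx, hy, hz, h4]
  clear hx hy hz h4 h5 h6
  have k1 : (M : ℤ) + e = 2 * N := by exact_mod_cast hM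
  have k2 : (e : ℤ) ≤ 1 := by exact_mod_cast he
  have k3 : (w : ℤ) + 1 ≤ N := by exact_mod_cast hw
  have k4 : (1 : ℤ) ≤ g := by exact_mod_cast g1
  have k5 : (g : ℤ) + 1 ≤ w := by exact_mod_cast hgw
  have k6 : (15 : ℤ) ≤ N := by exact_mod_cast hN
  have k7 : (N : ℤ) ≤ 5 * w := by exact_mod_cast hw5
  have k8 : (0 : ℤ) ≤ e := Int.natCast_nonneg _
  clear hM he hw g1 hgw hN hw5
  rcases hc1 with ⟨hc, hx, hy, hz⟩ | ⟨hc, hx, hy, hz⟩ <;>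
  rcases hc2 with ⟨hc', hu, hv⟩ | ⟨hc', hu, hv⟩ <;> subst hx hy hz hu hv hB <;>
  refine ⟨?_, ?_, ?_, ?_⟩ <;> linarith

theorem st_lo_b0 {M N w e g : ℕ} (hM : M + e = 2 * N) (he : e ≤ 1) (hw : w < N) (g1 : 1 ≤ g)
    (hgw : g < w) {μ B : ℤ} (hμ1 : 8 * (N : ℤ) - 5 * w ≤ μ)
    (hμ2 : 4 * (N : ℤ) ≤ μ)
    (hB : B = 16 * (g : ℤ) + 2 * w - 12 * N) :
    0 ≤ B + 3 * μ ∧ kX M N w e (M - g) ≤ B + 2 * μ ∧
      kX M N w e (M - g) + kY M N w e (M - g) ≤ B + μ ∧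
      kX M N w e (M - g) + kY M N w e (M - g) + kZ M N w e (M - g) ≤ B := by
  obtain ⟨h1, h2, h3, h4, h5, h6⟩ := val_lo hM he hw g1 hgw
  rw [h4, h5, h6]
  refine ⟨?_, ?_, ?_, ?_⟩ <;> omega

/-- The values from `w` on, by cases. -/
theorem val_hi' {M N w e g : ℕ} (hM : M + e = 2 * N) (he : e ≤ 1) (hw : w < N) (g1 : 1 ≤ g)
    (hgw : w ≤ g) (hgN : g < N) (hw1 : 1 ≤ w) : ∃ u v u' v' : ℤ,
    kX M N w e g = 8 * (g : ℤ) - 4 * N + 2 * e ∧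
    kY M N w e g = 4 * (g : ℤ) + 2 * e - 3 * u - 2 * v ∧
    kZ M N w e g = 12 * (g : ℤ) - 8 * N + 2 * e - 3 * u - 4 * v ∧
    kX M N w e (M - g) = 4 * g ∧
    kY M N w e (M - g) = 4 * g - 3 * u' - 2 * v' ∧
    kZ M N w e (M - g) = 4 * g - 3 * u' - 4 * v' ∧
    ((2 * (w : ℤ) ≤ M - g ∧ u = 0 ∧ v = g + e) ∨
      ((M : ℤ) - g + 1 ≤ 2 * w ∧ u = 2 * w - M + g ∧ v = 2 * N - 2 * w)) ∧
    ((2 * (w : ℤ) ≤ g ∧ u' = 0 ∧ v' = 2 * N - g) ∨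
      ((g : ℤ) + 1 ≤ 2 * w ∧ u' = 2 * w - g ∧ v' = 2 * N - 2 * w)) := by
  obtain ⟨h1, h2, h3, h4, h5, h6⟩ := val_hi hM he hw g1 hgw hgN hw1
  have k1 : (M : ℤ) + e = 2 * N := by exact_mod_cast hM
  have hz : ((w - (2 * g - 1) : ℕ) : ℤ) = 0 := by
    have : w - (2 * g - 1) = 0 := by omega
    rw [this]; rfl
  refine ⟨((2 * w - (M - g) : ℕ) : ℤ), ((2 * N - max (2 * w) (M - g) : ℕ) : ℤ),
    ((2 * w - g : ℕ) : ℤ), ((2 * N - max (2 * w) g : ℕ) : ℤ), ?_, ?_, ?_, ?_, ?_, ?_, ?_, ?_⟩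
  · rw [h1]; linarith
  · rw [h2, hz]; linarith
  · rw [h3]; linarith
  · rw [h4]
  · rw [h5]
  · rw [h6]
  · clear h1 h2 h3 h4 h5 h6 hz
    rcases Nat.lt_or_ge (M - g) (2 * w) with hc | hc
    · right
      refine ⟨by omega, by omega, by omega⟩
    · left
      refine ⟨by omega, by omega, by omega⟩
  · clear h1 h2 h3 h4 h5 h6 hz
    rcases Nat.lt_or_ge g (2 * w) with hc | hc
    · right
      refine ⟨by omega, by omega, by omega⟩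
    · left
      refine ⟨by omega, by omega, by omega⟩

/-- The states from `w` on: regime (I-b). -/
theorem st_hi_b {M N w e g : ℕ} (hM : M + e = 2 * N) (he : e ≤ 1) (hw : w < N) (g1 : 1 ≤ g)
    (hgw : w ≤ g) (hgN : g < N) (hw1 : 1 ≤ w) (hN : 15 ≤ N) (hw5 : N ≤ 5 * w) {μ B : ℤ}
    (hμ1 : 8 * (N : ℤ) - 5 * w ≤ μ) (hμ2 : 4 * (N : ℤ) ≤ μ)
    (hB : B = 18 * (g : ℤ) - 12 * N) :
    (kX M N w e g ≤ B + 2 * μ ∧ kX M N w e g + kX M N w e (M - g) ≤ B + μ ∧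
      kX M N w e g + kY M N w e g ≤ B + μ ∧
      kX M N w e g + kY M N w e g + kZ M N w e g ≤ B) ∧
    0 + (12 * ((g : ℤ) - w) + 6 * ((N : ℤ) - w)) + 6 * ((N : ℤ) - w) ≤ B + 3 * μ ∧
    kX M N w e (M - g) + (12 * ((g : ℤ) - w) + 6 * ((N : ℤ) - w)) ≤ B + 2 * μ ∧
    kX M N w e (M - g) + kY M N w e (M - g) ≤ B + μ ∧
    kX M N w e (M - g) + kY M N w e (M - g) + kZ M N w e (M - g) ≤ B := by
  obtain ⟨u, v, u', v', hx, hy, hz, hx', hy', hz', hc1, hc2⟩ := val_hi' hM he hw g1 hgw hgN hw1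
  rw [hx, hy, hz, hx', hy', hz']
  clear hx hy hz hx' hy' hz'
  have k1 : (M : ℤ) + e = 2 * N := by exact_mod_cast hM
  have k2 : (e : ℤ) ≤ 1 := by exact_mod_cast he
  have k3 : (w : ℤ) + 1 ≤ N := by exact_mod_cast hw
  have k4 : (1 : ℤ) ≤ g := by exact_mod_cast g1
  have k5 : (w : ℤ) ≤ g := by exact_mod_cast hgw
  have k6 : (15 : ℤ) ≤ N := by exact_mod_cast hN
  have k7 : (N : ℤ) ≤ 5 * w := by exact_mod_cast hw5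
  have k8 : (0 : ℤ) ≤ e := Int.natCast_nonneg _
  have k9 : (g : ℤ) + 1 ≤ N := by exact_mod_cast hgN
  clear hM he hw g1 hgw hN hw5
  rcases hc1 with ⟨hc, hu, hv⟩ | ⟨hc, hu, hv⟩ <;>
  rcases hc2 with ⟨hc', hu', hv'⟩ | ⟨hc', hu', hv'⟩ <;> subst hu hv hu' hv' hB <;>
  refine ⟨⟨?_, ?_, ?_, ?_⟩, ?_, ?_, ?_, ?_⟩ <;> linarith

/-- The states below `w`: regime (I-a). -/
theorem st_lo_a {M N w e g : ℕ} (hM : M + e = 2 * N) (he : e ≤ 1) (hw : w < N) (g1 : 1 ≤ g)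
    (hgw : g < w) (hw5 : 5 * w < N) {μ E B : ℤ} (hμ : μ = 7 * N)
    (hE0 : 0 ≤ E) (hE1 : 4 * (w : ℤ) - 6 - 4 * g ≤ E)
    (hE2 : 8 * (w : ℤ) - 4 - 12 * g ≤ E)
    (hB : B = 16 * (g : ℤ) + 2 * w - 12 * N + (N - 5 * w)) :
    (kX M N w e g ≤ B + E + 2 * μ ∧ kX M N w e g + kX M N w e (M - g) ≤ B + E + μ ∧
      kX M N w e g + kY M N w e g ≤ B + E + μ ∧
      kX M N w e g + kY M N w e g + kZ M N w e g ≤ B + E) ∧
    0 ≤ B + 3 * μ ∧ kX M N w e (M - g) ≤ B + 2 * μ ∧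
      kX M N w e (M - g) + kY M N w e (M - g) ≤ B + μ ∧
      kX M N w e (M - g) + kY M N w e (M - g) + kZ M N w e (M - g) ≤ B := by
  obtain ⟨_, _, _, h4, h5, h6⟩ := val_lo hM he hw g1 hgw
  obtain ⟨x, y, z, u, v, hx, hy, hz, hc1, hc2⟩ := val_lo' hM he hw g1 hgw
  rw [hx, hy, hz, h4, h5, h6]
  clear hx hy hz h4 h5 h6
  have k1 : (M : ℤ) + e = 2 * N := by exact_mod_cast hM
  have k2 : (e : ℤ) ≤ 1 := by exact_mod_cast he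
  have k3 : (w : ℤ) + 1 ≤ N := by exact_mod_cast hw
  have k4 : (1 : ℤ) ≤ g := by exact_mod_cast g1
  have k5 : (g : ℤ) + 1 ≤ w := by exact_mod_cast hgw
  have k7 : 5 * (w : ℤ) + 1 ≤ N := by exact_mod_cast hw5
  have k8 : (0 : ℤ) ≤ e := Int.natCast_nonneg _
  clear hM he hw g1 hgw hw5
  rcases hc1 with ⟨hc, hx, hy, hz⟩ | ⟨hc, hx, hy, hz⟩ <;>
  rcases hc2 with ⟨hc', hu, hv⟩ | ⟨hc', hu, hv⟩ <;> subst hx hy hz hu hv hB <;>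
  refine ⟨⟨?_, ?_, ?_, ?_⟩, ?_, ?_, ?_, ?_⟩ <;> linarith

/-- The states from `w` on: regime (I-a). -/
theorem st_hi_a {M N w e g : ℕ} (hM : M + e = 2 * N) (he : e ≤ 1) (hw : w < N) (g1 : 1 ≤ g)
    (hgw : w ≤ g) (hgN : g < N) (hw1 : 1 ≤ w) (hw5 : 5 * w < N) {μ U B : ℤ}
    (hμ : μ = 7 * (N : ℤ)) (hU0 : 0 ≤ U) (hU1 : (N : ℤ) + 2 * e - 6 * g ≤ U)
    (hB : B = 18 * (g : ℤ) - 12 * N + U) :
    (kX M N w e g ≤ B + 2 * μ ∧ kX M N w e g + kX M N w e (M - g) ≤ B + μ ∧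
      kX M N w e g + kY M N w e g ≤ B + μ ∧
      kX M N w e g + kY M N w e g + kZ M N w e g ≤ B) ∧
    0 + (12 * ((g : ℤ) - w) + (2 * N + 2 * g)) + 6 * (N : ℤ) ≤ B + 3 * μ ∧
    kX M N w e (M - g) + (12 * ((g : ℤ) - w) + (2 * N + 2 * g)) ≤ B + 2 * μ ∧
    kX M N w e (M - g) + kY M N w e (M - g) ≤ B + μ ∧
    kX M N w e (M - g) + kY M N w e (M - g) + kZ M N w e (M - g) ≤ B := by
  obtain ⟨u, v, u', v', hx, hy, hz, hx', hy', hz', hc1, hc2⟩ := val_hi' hM he hw g1 hgw hgN hw1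
  rw [hx, hy, hz, hx', hy', hz']
  clear hx hy hz hx' hy' hz'
  have k1 : (M : ℤ) + e = 2 * N := by exact_mod_cast hM
  have k2 : (e : ℤ) ≤ 1 := by exact_mod_cast he
  have k3 : (w : ℤ) + 1 ≤ N := by exact_mod_cast hw
  have k4 : (1 : ℤ) ≤ g := by exact_mod_cast g1
  have k5 : (w : ℤ) ≤ g := by exact_mod_cast hgw
  have k7 : 5 * (w : ℤ) + 1 ≤ N := by exact_mod_cast hw5
  have k8 : (0 : ℤ) ≤ e := Int.natCast_nonneg _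
  have k9 : (g : ℤ) + 1 ≤ N := by exact_mod_cast hgN
  clear hM he hw g1 hgw hw5
  rcases hc1 with ⟨hc, hu, hv⟩ | ⟨hc, hu, hv⟩ <;>
  rcases hc2 with ⟨hc', hu', hv'⟩ | ⟨hc', hu', hv'⟩ <;> subst hu hv hu' hv' hB <;>
  refine ⟨⟨?_, ?_, ?_, ?_⟩, ?_, ?_, ?_, ?_⟩ <;> linarith

variable {M : ℕ} {X Y Z : Finset ℕ}

theorem four (hZY : Z ⊆ Y) (hYX : Y ⊆ X) (g : ℕ) :
    (g ∉ X ∧ g ∉ Y ∧ g ∉ Z) ∨ (g ∈ X ∧ g ∉ Y ∧ g ∉ Z) ∨ (g ∈ X ∧ g ∈ Y ∧ g ∉ Z) ∨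
      (g ∈ X ∧ g ∈ Y ∧ g ∈ Z) := by
  by_cases hx : g ∈ X
  · by_cases hy : g ∈ Y
    · by_cases hz : g ∈ Z
      · exact Or.inr (Or.inr (Or.inr ⟨hx, hy, hz⟩))
      · exact Or.inr (Or.inr (Or.inl ⟨hx, hy, hz⟩))
    · exact Or.inr (Or.inl ⟨hx, hy, fun hz => hy (hZY hz)⟩)
  · exact Or.inl ⟨hx, fun hy => hx (hYX hy), fun hz => hx (hYX (hZY hz))⟩

theorem xy_free (h : Nest M X Y Z) {g : ℕ} (hg : g < M) : ¬ (g ∈ X ∧ M - g ∈ Y) ∧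
    ¬ (g ∈ Y ∧ M - g ∈ X) := by
  constructor
  · rintro ⟨h1, h2⟩
    exact h.free _ h1 _ h2 0 h.zero (by omega)
  · rintro ⟨h1, h2⟩
    exact h.free _ h2 _ h1 0 h.zero (by omega)

/-- The eight states below `w`. -/
theorem pos_lo (h : Nest M X Y Z) {g : ℕ} (hg : g < M) {cX cY cZ cX' cY' cZ' B E μ : ℤ}
    (hE : 0 ≤ E)
    (hst : g ∈ X → (cX ≤ B + E + 2 * μ ∧ cX + cX' ≤ B + E + μ ∧ cX + cY ≤ B + E + μ ∧
      cX + cY + cZ ≤ B + E))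
    (hst0 : 0 ≤ B + 3 * μ ∧ cX' ≤ B + 2 * μ ∧ cX' + cY' ≤ B + μ ∧ cX' + cY' + cZ' ≤ B) :
    ind X g * cX + ind Y g * cY + ind Z g * cZ + ind X (M - g) * cX' + ind Y (M - g) * cY' +
      ind Z (M - g) * cZ' ≤ B + E + μ * dd M X Y Z g := by
  obtain ⟨f1, f2⟩ := xy_free h hg
  obtain ⟨s1, s2, s3, s4⟩ := hst0
  unfold dd
  rcases four h.ZY h.YX g with ⟨a1, a2, a3⟩ | ⟨a1, a2, a3⟩ | ⟨a1, a2, a3⟩ | ⟨a1, a2, a3⟩ <;>
  rcases four h.ZY h.YX (M - g) with ⟨b1, b2, b3⟩ | ⟨b1, b2, b3⟩ | ⟨b1, b2, b3⟩ | ⟨b1, b2, b3⟩ <;>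
  first
  | exact (f1 ⟨a1, b2⟩).elim
  | exact (f2 ⟨a2, b1⟩).elim
  | (simp only [ind_of_mem, ind_of_not_mem, a1, a2, a3, b1, b2, b3, not_false_eq_true]
     linarith)
  | (obtain ⟨t1, t2, t3, t4⟩ := hst a1
     simp only [ind_of_mem, ind_of_not_mem, a1, a2, a3, b1, b2, b3, not_false_eq_true]
     linarith)

/-- The eight states from `w` on, with payments. -/
theorem pos_hi (h : Nest M X Y Z) {g w : ℕ} (hg : g < M) {cX cY cZ cX' cY' cZ' B μ P0 : ℤ}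
    {K : ℕ → ℤ} (hK : 0 ≤ 12 * ((g : ℤ) - w) + K g)
    (hst : (cX ≤ B + 2 * μ ∧ cX + cX' ≤ B + μ ∧ cX + cY ≤ B + μ ∧
      cX + cY + cZ ≤ B) ∧
      0 + (12 * ((g : ℤ) - w) + K g) + P0 ≤ B + 3 * μ ∧
      cX' + (12 * ((g : ℤ) - w) + K g) ≤ B + 2 * μ ∧ cX' + cY' ≤ B + μ ∧
      cX' + cY' + cZ' ≤ B) :
    ind X g * cX + ind Y g * cY + ind Z g * cZ + ind X (M - g) * cX' + ind Y (M - g) * cY' +
      ind Z (M - g) * cZ' + (pay X Z w K g + pay0 M X P0 g) ≤ B + μ * dd M X Y Z g := by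
  obtain ⟨f1, f2⟩ := xy_free h hg
  obtain ⟨⟨t1, t2, t3, t4⟩, s1, s2, s3, s4⟩ := hst
  have hpig : 0 ≤ dens X Z g → M - g ∉ Y := by
    intro hd hy
    obtain ⟨x, hx, z, hz, hxz⟩ := pigeon hd
    exact h.free x hx _ hy z hz (by omega)
  unfold dd pay pay0
  rcases four h.ZY h.YX g with ⟨a1, a2, a3⟩ | ⟨a1, a2, a3⟩ | ⟨a1, a2, a3⟩ | ⟨a1, a2, a3⟩ <;>
  rcases four h.ZY h.YX (M - g) with ⟨b1, b2, b3⟩ | ⟨b1, b2, b3⟩ | ⟨b1, b2, b3⟩ | ⟨b1, b2, b3⟩ <;>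
  first
  | exact (f1 ⟨a1, b2⟩).elim
  | exact (f2 ⟨a2, b1⟩).elim
  | (by_cases hd : 0 ≤ dens X Z g
     · first
       | exact (hpig hd b2).elim
       | (simp only [ind_of_mem, ind_of_not_mem, a1, a2, a3, b1, b2, b3, not_false_eq_true,
            if_true, if_false, hd]
          linarith)
     · simp only [ind_of_mem, ind_of_not_mem, a1, a2, a3, b1, b2, b3, not_false_eq_true,
            if_true, if_false, hd]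
       linarith)

end Pool.Agent.LibA338c1g
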